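import Pool.Agent.H1.Jac.Cnt
import Pool.Agent.H1.Jac.MertA
import Pool.Agent.H24.KS.AbSieve

/-!
# Upper bound sieve on top of the random primes

Part of `MP_4e17b9_nt`. See the proof of `sieveU` in `Pool/Agent/H1/Jac/SieveU.lean`. Let
`H = m / p`, `P := T.erase 2`. Apply `Pool.Agent.H24.KS.absieve` with `κ = 1`, `c = 1`,
`S := surv R a (AP m p c)`, `E q i := q ∣ a + i`, `δ q := 1 / q`, `G q := q`, `N := H * V R`,
`E0 := δ * H + 2`, and `K` with `bb K ≤ y ^ 2` and all primes of `P` at most `bb K` (as in `sieveU`).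
The counts for `D ⊆ P`, `d = ∏ D`: if `d ^ 2 ≤ H`, the error is at most `δ H V R / d ≤ E0 d` by
hypothesis; if `d ^ 2 > H`, then the count is at most `H / d + 1` (`cnt`) and so is `H V R / d`, and
`H / d + 1 ≤ d + 1 ≤ 2 d ≤ E0 d`. So `|surv (R ∪ T) a (AP m p c)| ≤ C H (V R) exp (-∑_P 1/q) +
E0 (y ^ 2) ^ 24`, and `exp (-∑_P 1/q) ≤ C' V T` as in `sieveU`.
-/

set_option autoImplicit false

namespace Pool.Agent.H1.Jac

open Finset

private lemma abr_exp {t : ℝ} (h0 : 0 ≤ t) (h1 : t ≤ 1 / 2) :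
    Real.exp (-(t + t ^ 2)) ≤ 1 - t := by
  have hx : 0 ≤ t + t ^ 2 := by positivity
  have h2 := Real.quadratic_le_exp_of_nonneg hx
  have h3 : 1 ≤ (1 - t) * (1 + (t + t ^ 2) + (t + t ^ 2) ^ 2 / 2) := by
    have h4 : (1 - t) * (1 + (t + t ^ 2) + (t + t ^ 2) ^ 2 / 2) =
        1 + t ^ 2 * (1 - t - t ^ 2 - t ^ 3) / 2 := by ring
    have h5 : 0 ≤ 1 - t - t ^ 2 - t ^ 3 := by
      have h6 : t ^ 2 ≤ (1 / 2) ^ 2 := pow_le_pow_left₀ h0 h1 2
      have h7 : t ^ 3 ≤ (1 / 2) ^ 3 := pow_le_pow_left₀ h0 h1 3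
      linarith
    rw [h4]
    have h8 : 0 ≤ t ^ 2 * (1 - t - t ^ 2 - t ^ 3) / 2 := by positivity
    linarith
  have h9 : 1 ≤ (1 - t) * Real.exp (t + t ^ 2) :=
    h3.trans (mul_le_mul_of_nonneg_left h2 (by linarith))
  rw [Real.exp_neg, inv_le_iff_one_le_mul₀ (Real.exp_pos _)]
  exact h9

private lemma abr_sq (Q : Finset ℕ) : ∑ q ∈ Q, (1 / (q : ℝ)) ^ 2 ≤ 2 := by
  have h1 : ∑ q ∈ Q, (1 : ℝ) / (q : ℝ) ^ 2 ≤ Real.pi ^ 2 / 6 :=
    sum_le_hasSum Q (fun _ _ => by positivity) hasSum_zeta_two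
  have h2 : ∑ q ∈ Q, (1 / (q : ℝ)) ^ 2 = ∑ q ∈ Q, (1 : ℝ) / (q : ℝ) ^ 2 :=
    sum_congr rfl fun q _ => by rw [div_pow, one_pow]
  rw [h2]
  have h3 := Real.pi_lt_d2
  have h4 := Real.pi_pos
  nlinarith

private lemma abr_bb (y : ℕ) (hy : 2 ≤ y) :
    ∃ K : ℕ, y ≤ Pool.Agent.H95.Gol.bb K ∧ Pool.Agent.H95.Gol.bb K ≤ y ^ 2 := by
  have hex : ∃ K : ℕ, y ≤ Pool.Agent.H95.Gol.bb K := by
    refine ⟨y, ?_⟩
    unfold Pool.Agent.H95.Gol.bb
    have h1 : y < 2 ^ y := Nat.lt_two_pow_self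
    have h2 : 2 ^ y < 2 ^ (2 ^ y) := Nat.lt_two_pow_self
    omega
  classical
  refine ⟨Nat.find hex, Nat.find_spec hex, ?_⟩
  rcases Nat.eq_zero_or_pos (Nat.find hex) with h0 | h0
  · rw [h0]
    have : Pool.Agent.H95.Gol.bb 0 = 2 := by unfold Pool.Agent.H95.Gol.bb; norm_num
    rw [this]
    nlinarith
  · obtain ⟨k, hk⟩ : ∃ k, Nat.find hex = k + 1 := ⟨Nat.find hex - 1, by omega⟩
    have hlt : Pool.Agent.H95.Gol.bb k < y := by
      have := Nat.find_min hex (m := k) (by omega)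
      omega
    rw [hk]
    have h3 : Pool.Agent.H95.Gol.bb (k + 1) = (Pool.Agent.H95.Gol.bb k) ^ 2 := by
      unfold Pool.Agent.H95.Gol.bb
      rw [← pow_mul, pow_succ]
    rw [h3]
    exact Nat.pow_le_pow_left hlt.le 2

theorem ab_R : ∃ C : ℝ, 0 < C ∧ ∀ (R T : Finset ℕ) (y : ℕ), 2 ≤ y → (∀ q ∈ R, q.Prime) →
    (∀ q ∈ T, q.Prime) → (∀ q ∈ T, q ≤ y) → ∀ (m p c a : ℕ) (δ : ℝ), 0 < p →
    (∀ q ∈ T, Nat.Coprime p q) → 0 ≤ δ →
    (∀ D ⊆ T, (∏ q ∈ D, (q : ℝ)) ^ 2 ≤ (m : ℝ) / p →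
      |(((surv R a (AP m p c)).filter (fun i => ∀ q ∈ D, q ∣ a + i)).card : ℝ) -
        (m : ℝ) / p * V R * ∏ q ∈ D, (1 / (q : ℝ))| ≤
        δ * ((m : ℝ) / p * V R * ∏ q ∈ D, (1 / (q : ℝ)))) →
    (δ * ((m : ℝ) / p) + 2) * (y : ℝ) ^ 48 ≤ (m : ℝ) / p * (V R * V T) →
    ((surv (R ∪ T) a (AP m p c)).card : ℝ) ≤ C * ((m : ℝ) / p * (V R * V T)) := by
  classical
  obtain ⟨C0, hC0, hs⟩ := Pool.Agent.H24.KS.absieve 1 1
  refine ⟨C0 * Real.exp (5 / 2) + 1, by positivity, ?_⟩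
  intro R T y hy hR hT hTy m p c a δ hp hpT hδ hcount herr
  obtain ⟨K, hK1, hK2⟩ := abr_bb y hy
  have hM : (0 : ℝ) ≤ (m : ℝ) / p := by positivity
  have hVR0 : 0 ≤ V R := by
    unfold V
    refine prod_nonneg fun q hq => ?_
    have hq1 : (1 : ℝ) ≤ q := by exact_mod_cast (hR q hq).one_lt.le
    have : 1 / (q : ℝ) ≤ 1 := by
      rw [div_le_one (by linarith)]
      exact hq1
    linarith
  have hVR1 : V R ≤ 1 := by
    unfold V
    refine prod_le_one (fun q hq => ?_) (fun q hq => ?_)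
    · have hq1 : (1 : ℝ) ≤ q := by exact_mod_cast (hR q hq).one_lt.le
      have : 1 / (q : ℝ) ≤ 1 := by
        rw [div_le_one (by linarith)]
        exact hq1
      linarith
    · have : 0 ≤ 1 / (q : ℝ) := by positivity
      linarith
  have hE0 : 0 ≤ δ * ((m : ℝ) / p) + 2 := by positivity
  -- the sieve
  have h1 := hs (surv R a (AP m p c)) (T.erase 2) K (fun q i => q ∣ a + i) (fun q => 1 / (q : ℝ))
    (fun q => (q : ℝ)) ((m : ℝ) / p * V R) (δ * ((m : ℝ) / p) + 2) (mul_nonneg hM hVR0) hE0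
    (by
      intro q hq
      have hq' := mem_of_mem_erase hq
      have hq2 := ne_of_mem_erase hq
      have h2 := (hT q hq').two_le
      exact ⟨hT q hq', by omega, (hTy q hq').trans hK1⟩)
    (by
      intro q hq
      have hq' := mem_of_mem_erase hq
      have hq1 : (1 : ℝ) ≤ q := by exact_mod_cast (hT q hq').one_lt.le
      refine ⟨by positivity, ?_, ?_⟩
      · rw [div_le_one (by linarith)]
        exact hq1
      · simp)
    (by
      intro q hq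
      simp)
    (by
      intro D hD
      have hDT : D ⊆ T := fun q hq => mem_of_mem_erase (hD hq)
      have hDp : ∀ q ∈ D, (1 : ℝ) ≤ (q : ℝ) := fun q hq => by
        exact_mod_cast (hT q (hDT hq)).one_lt.le
      have hd1 : (1 : ℝ) ≤ ∏ q ∈ D, (q : ℝ) := by
        calc (1 : ℝ) = ∏ _q ∈ D, (1 : ℝ) := by rw [prod_const_one]
          _ ≤ ∏ q ∈ D, (q : ℝ) := prod_le_prod (fun _ _ => zero_le_one) hDp
      have hinv : ∏ q ∈ D, (1 / (q : ℝ)) = 1 / ∏ q ∈ D, (q : ℝ) := by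
        rw [prod_div_distrib, prod_const_one]
      have hd0 : (0 : ℝ) < ∏ q ∈ D, (q : ℝ) := by linarith
      have hinv1 : 1 / ∏ q ∈ D, (q : ℝ) ≤ 1 := by
        rw [div_le_one hd0]
        exact hd1
      have hinv0 : 0 ≤ 1 / ∏ q ∈ D, (q : ℝ) := by positivity
      have goal' : |(((surv R a (AP m p c)).filter (fun i => ∀ q ∈ D, q ∣ a + i)).card : ℝ) -
          (m : ℝ) / p * V R * ∏ q ∈ D, (1 / (q : ℝ))| ≤
          (δ * ((m : ℝ) / p) + 2) * ∏ q ∈ D, (q : ℝ) := by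
        by_cases hsq : (∏ q ∈ D, (q : ℝ)) ^ 2 ≤ (m : ℝ) / p
        · refine (hcount D hDT hsq).trans ?_
          rw [hinv]
          have h2 : (m : ℝ) / p * V R * (1 / ∏ q ∈ D, (q : ℝ)) ≤ (m : ℝ) / p := by
            calc (m : ℝ) / p * V R * (1 / ∏ q ∈ D, (q : ℝ)) ≤ (m : ℝ) / p * 1 * 1 :=
                  mul_le_mul (mul_le_mul_of_nonneg_left hVR1 hM) hinv1 hinv0
                    (mul_nonneg hM zero_le_one)
              _ = (m : ℝ) / p := by ring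
          calc δ * ((m : ℝ) / p * V R * (1 / ∏ q ∈ D, (q : ℝ))) ≤ δ * ((m : ℝ) / p) :=
                mul_le_mul_of_nonneg_left h2 hδ
            _ ≤ (δ * ((m : ℝ) / p) + 2) * 1 := by linarith
            _ ≤ (δ * ((m : ℝ) / p) + 2) * ∏ q ∈ D, (q : ℝ) :=
                mul_le_mul_of_nonneg_left hd1 hE0
        · have hsq' : (m : ℝ) / p < (∏ q ∈ D, (q : ℝ)) ^ 2 := not_le.1 hsq
          have hHd : (m : ℝ) / p * (1 / ∏ q ∈ D, (q : ℝ)) ≤ ∏ q ∈ D, (q : ℝ) := by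
            rw [mul_one_div, div_le_iff₀ hd0]
            nlinarith
          have h2 := cnt m p c a hp D (fun q hq => hT q (hDT hq)) (fun q hq => hpT q (hDT hq))
          have h3 : (m : ℝ) / (p * ∏ q ∈ D, (q : ℝ)) = (m : ℝ) / p * (1 / ∏ q ∈ D, (q : ℝ)) := by
            rw [← div_div, mul_one_div]
          rw [h3] at h2
          have h4 : (((surv R a (AP m p c)).filter (fun i => ∀ q ∈ D, q ∣ a + i)).card : ℝ) ≤
              (((AP m p c).filter (fun i => ∀ q ∈ D, q ∣ a + i)).card : ℝ) := by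
            have hss : (surv R a (AP m p c)).filter (fun i => ∀ q ∈ D, q ∣ a + i) ⊆
                (AP m p c).filter (fun i => ∀ q ∈ D, q ∣ a + i) := by
              refine filter_subset_filter _ ?_
              unfold surv
              exact filter_subset _ _
            exact_mod_cast card_le_card hss
          have h5 := (abs_le.1 h2).2
          have h6 : (0 : ℝ) ≤ (((surv R a (AP m p c)).filter
              (fun i => ∀ q ∈ D, q ∣ a + i)).card : ℝ) := Nat.cast_nonneg _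
          have h7 : (m : ℝ) / p * V R * (1 / ∏ q ∈ D, (q : ℝ)) ≤
              (m : ℝ) / p * (1 / ∏ q ∈ D, (q : ℝ)) := by
            refine mul_le_mul_of_nonneg_right ?_ hinv0
            calc (m : ℝ) / p * V R ≤ (m : ℝ) / p * 1 := mul_le_mul_of_nonneg_left hVR1 hM
              _ = (m : ℝ) / p := mul_one _
          have h8 : 0 ≤ (m : ℝ) / p * V R * (1 / ∏ q ∈ D, (q : ℝ)) :=
            mul_nonneg (mul_nonneg hM hVR0) hinv0
          have h9 : 2 * ∏ q ∈ D, (q : ℝ) ≤ (δ * ((m : ℝ) / p) + 2) * ∏ q ∈ D, (q : ℝ) := by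
            refine mul_le_mul_of_nonneg_right ?_ hd0.le
            have : 0 ≤ δ * ((m : ℝ) / p) := mul_nonneg hδ hM
            linarith
          rw [hinv, abs_le]
          constructor <;> linarith
      convert goal' using 6)
  have hsub : surv (R ∪ T) a (AP m p c) ⊆
      (surv R a (AP m p c)).filter (fun i => ∀ q ∈ T.erase 2, ¬ q ∣ a + i) := by
    intro i hi
    unfold surv at hi ⊢
    rw [mem_filter] at hi
    rw [mem_filter, mem_filter]
    exact ⟨⟨hi.1, fun q hq => hi.2 q (mem_union_left _ hq)⟩,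
      fun q hq => hi.2 q (mem_union_right _ (mem_of_mem_erase hq))⟩
  have h4 : ((surv (R ∪ T) a (AP m p c)).card : ℝ) ≤
      (((surv R a (AP m p c)).filter (fun i => ∀ q ∈ T.erase 2, ¬ q ∣ a + i)).card : ℝ) := by
    exact_mod_cast card_le_card hsub
  -- main term
  have hsum : ∑ q ∈ T, 1 / (q : ℝ) ≤ ∑ q ∈ T.erase 2, 1 / (q : ℝ) + 1 / 2 := by
    by_cases h2 : 2 ∈ T
    · rw [← sum_erase_add T _ h2]
      norm_num
    · rw [erase_eq_of_notMem h2]
      linarith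
  have h5 : Real.exp (∑ q ∈ T, -(1 / (q : ℝ) + (1 / (q : ℝ)) ^ 2)) ≤ V T := by
    rw [Real.exp_sum]
    unfold V
    refine prod_le_prod (fun _ _ => (Real.exp_pos _).le) fun q hq => ?_
    have hq2 : (2 : ℝ) ≤ q := by exact_mod_cast (hT q hq).two_le
    refine abr_exp (by positivity) ?_
    exact one_div_le_one_div_of_le (by norm_num) hq2
  have h6 : Real.exp (-∑ q ∈ T.erase 2, 1 / (q : ℝ)) ≤ Real.exp (5 / 2) * V T := by
    have h7 := abr_sq T
    have h8 : Real.exp (-∑ q ∈ T.erase 2, 1 / (q : ℝ)) ≤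
        Real.exp (5 / 2) * Real.exp (∑ q ∈ T, -(1 / (q : ℝ) + (1 / (q : ℝ)) ^ 2)) := by
      rw [← Real.exp_add]
      refine Real.exp_le_exp.2 ?_
      rw [sum_neg_distrib, sum_add_distrib]
      linarith
    exact h8.trans (mul_le_mul_of_nonneg_left h5 (Real.exp_pos _).le)
  -- error term
  have h16 : (δ * ((m : ℝ) / p) + 2) * ((Pool.Agent.H95.Gol.bb K : ℕ) : ℝ) ^ (8 * (1 + 2)) ≤
      (m : ℝ) / p * (V R * V T) := by
    have h17 : ((Pool.Agent.H95.Gol.bb K : ℕ) : ℝ) ≤ (y : ℝ) ^ 2 := by exact_mod_cast hK2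
    have h18 : ((Pool.Agent.H95.Gol.bb K : ℕ) : ℝ) ^ (8 * (1 + 2)) ≤ ((y : ℝ) ^ 2) ^ (8 * (1 + 2)) :=
      pow_le_pow_left₀ (by positivity) h17 _
    have h19 : ((y : ℝ) ^ 2) ^ (8 * (1 + 2)) = (y : ℝ) ^ 48 := by
      rw [← pow_mul]
    rw [h19] at h18
    exact (mul_le_mul_of_nonneg_left h18 hE0).trans herr
  have h20 : C0 * ((m : ℝ) / p * V R) * Real.exp (-∑ q ∈ T.erase 2, 1 / (q : ℝ)) ≤
      C0 * ((m : ℝ) / p * V R) * (Real.exp (5 / 2) * V T) :=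
    mul_le_mul_of_nonneg_left h6 (mul_nonneg hC0.le (mul_nonneg hM hVR0))
  calc ((surv (R ∪ T) a (AP m p c)).card : ℝ)
      ≤ C0 * ((m : ℝ) / p * V R) * Real.exp (-∑ q ∈ T.erase 2, 1 / (q : ℝ)) +
        (δ * ((m : ℝ) / p) + 2) * ((Pool.Agent.H95.Gol.bb K : ℕ) : ℝ) ^ (8 * (1 + 2)) := by
        refine h4.trans (le_trans (le_of_eq ?_) h1)
        congr 2
        ext i
        simp only [mem_filter]
    _ ≤ C0 * ((m : ℝ) / p * V R) * (Real.exp (5 / 2) * V T) + (m : ℝ) / p * (V R * V T) :=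
        add_le_add h20 h16
    _ = (C0 * Real.exp (5 / 2) + 1) * ((m : ℝ) / p * (V R * V T)) := by ring

end Pool.Agent.H1.Jac
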