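import Mathlib

/-!
# The length of the pure sieve

Part of `MP_4e17b9_nt`. Take `r = ⌈8 (log log k + C + 1)⌉₊` as in `asym1`
(`Pool/Agent/H1/Jac/AsymA.lean`; the lemmas there may be imported), and `c1 = η / 16`:
`(r + 2) log (z + 1) ≤ (8 log log k + 8 C + 12) (c1 log k / log log k + 1) ≤ η log k` for large `k`.
-/

set_option autoImplicit false

namespace Pool.Agent.H1.Jac

open Finset Filter

/-- the bound of `S ^ n / n!` -/
private theorem asymR_fac {A S : ℝ} {n : ℕ} (hS : 0 ≤ S) (hSA : S ≤ A) (hn : 8 * A + 1 ≤ n) :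
    S ^ n / (n.factorial : ℝ) ≤ Real.exp (-(8 * A)) := by
  have hA : 0 ≤ A := hS.trans hSA
  have hn0 : (0 : ℝ) < n := by linarith
  have h1 : (n : ℝ) ^ n / (n.factorial : ℝ) ≤ Real.exp n :=
    Real.pow_div_factorial_le_exp (n : ℝ) hn0.le n
  have h2 : S ≤ 1 / 8 * n := by linarith
  have h3 : S ^ n ≤ (1 / 8 * n : ℝ) ^ n := pow_le_pow_left₀ hS h2 n
  have h4 : S ^ n / (n.factorial : ℝ) ≤ (1 / 8) ^ n * ((n : ℝ) ^ n / (n.factorial : ℝ)) := by
    rw [← mul_div_assoc, ← mul_pow]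
    gcongr
  have h5 : (1 / 8 : ℝ) ≤ Real.exp (-2) := by
    have h6 : Real.exp 1 < 2.7182818286 := Real.exp_one_lt_d9
    have h7 : Real.exp 2 = Real.exp 1 * Real.exp 1 := by
      rw [← Real.exp_add]
      norm_num
    have h8 : Real.exp 2 ≤ 8 := by
      rw [h7]
      nlinarith [Real.exp_pos 1]
    rw [Real.exp_neg, ← one_div]
    exact one_div_le_one_div_of_le (Real.exp_pos 2) h8
  have h6 : (1 / 8 : ℝ) ^ n ≤ Real.exp (-2 * n) := by
    calc (1 / 8 : ℝ) ^ n ≤ (Real.exp (-2)) ^ n := pow_le_pow_left₀ (by norm_num) h5 n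
      _ = Real.exp (-2 * n) := by
        rw [← Real.exp_nat_mul]
        congr 1
        ring
  calc S ^ n / (n.factorial : ℝ) ≤ (1 / 8) ^ n * ((n : ℝ) ^ n / (n.factorial : ℝ)) := h4
    _ ≤ Real.exp (-2 * n) * Real.exp n := by gcongr
    _ = Real.exp (-(n : ℝ)) := by
      rw [← Real.exp_add]
      congr 1
      ring
    _ ≤ Real.exp (-(8 * A)) := Real.exp_le_exp.2 (by linarith)

private theorem asymR_ev (δ c C η : ℝ) (hη : 0 < η) : ∀ᶠ k : ℕ in atTop,
    1 ≤ Real.log k ∧ 2 / (δ * c) ≤ Real.log k ∧ 8 * C + 3 ≤ Real.log (Real.log k) ∧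
      1 ≤ Real.log (Real.log k) ∧
      9 * Real.log (Real.log k) ≤ 7 * (η / 16) * Real.log k := by
  have hl : Tendsto (fun k : ℕ => Real.log (k : ℝ)) atTop atTop :=
    Real.tendsto_log_atTop.comp tendsto_natCast_atTop_atTop
  have hlog : ∀ᶠ x : ℝ in atTop, 9 * Real.log x ≤ 7 * (η / 16) * x := by
    have h := (Real.isLittleO_log_id_atTop).bound
      (by positivity : (0 : ℝ) < 7 * (η / 16) / 9)
    filter_upwards [h, eventually_ge_atTop (1 : ℝ)] with x hx h1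
    rw [Real.norm_eq_abs, Real.norm_eq_abs, abs_of_nonneg (Real.log_nonneg h1), id,
      abs_of_nonneg (by linarith)] at hx
    calc 9 * Real.log x ≤ 9 * (7 * (η / 16) / 9 * x) := by gcongr
      _ = 7 * (η / 16) * x := by ring
  have key : ∀ᶠ x : ℝ in atTop, 1 ≤ x ∧ 2 / (δ * c) ≤ x ∧ 8 * C + 3 ≤ Real.log x ∧
      1 ≤ Real.log x ∧ 9 * Real.log x ≤ 7 * (η / 16) * x := by
    filter_upwards [eventually_ge_atTop (1 : ℝ), eventually_ge_atTop (2 / (δ * c)),
      Real.tendsto_log_atTop.eventually_ge_atTop (8 * C + 3),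
      Real.tendsto_log_atTop.eventually_ge_atTop 1, hlog] with x h1 h2 h3 h4 h5
    exact ⟨h1, h2, h3, h4, h5⟩
  exact hl.eventually key

theorem asymR (δ c C η : ℝ) (hδ : 0 < δ) (hc : 0 < c) (hC : 0 ≤ C) (hη : 0 < η) :
    ∃ c1 : ℝ, 0 < c1 ∧ ∀ᶠ k : ℕ in atTop, ∃ r : ℕ,
      (∀ s : ℝ, 0 ≤ s → s ≤ Real.log (Real.log k) + C →
        s ^ (r + 1) / ((r + 1).factorial : ℝ) + s ^ (r + 2) / ((r + 2).factorial : ℝ) ≤
          δ * (c / Real.log k)) ∧
      ∀ z : ℕ, (z : ℝ) ≤ Real.exp (c1 * Real.log k / Real.log (Real.log k)) →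
        ((z : ℝ) + 1) ^ (r + 2) ≤ (k : ℝ) ^ η := by
  refine ⟨η / 16, by positivity, ?_⟩
  filter_upwards [asymR_ev δ c C η hη, eventually_ge_atTop 1] with k hk hk1
  obtain ⟨h1, h2, h3, h3', h4⟩ := hk
  set x : ℝ := Real.log k with hx
  have hx0 : 0 < x := by linarith
  set L : ℝ := Real.log x with hL
  have hL0 : 0 < L := by linarith
  set A : ℝ := L + C with hA
  have hA0 : 0 ≤ A := by positivity
  have hr1 : 8 * A ≤ (⌈8 * A⌉₊ : ℝ) := Nat.le_ceil _
  have hr2 : (⌈8 * A⌉₊ : ℝ) < 8 * A + 1 := Nat.ceil_lt_add_one (by positivity)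
  refine ⟨⌈8 * A⌉₊, fun S hS hSA => ?_, fun z hz => ?_⟩
  · have e1 : S ^ (⌈8 * A⌉₊ + 1) / ((⌈8 * A⌉₊ + 1).factorial : ℝ) ≤ Real.exp (-(8 * A)) :=
      asymR_fac hS hSA (by push_cast; linarith)
    have e2 : S ^ (⌈8 * A⌉₊ + 2) / ((⌈8 * A⌉₊ + 2).factorial : ℝ) ≤ Real.exp (-(8 * A)) :=
      asymR_fac hS hSA (by push_cast; linarith)
    have e3 : Real.exp (-(8 * A)) ≤ 1 / (x * x) := by
      have : Real.exp (-(8 * A)) ≤ Real.exp (-(L + L)) :=
        Real.exp_le_exp.2 (by rw [hA]; linarith)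
      rw [Real.exp_neg (L + L), Real.exp_add, hL, Real.exp_log hx0,
        ← one_div] at this
      exact this
    have e4 : 2 * (1 / (x * x)) ≤ δ * (c / x) := by
      have h5 : 2 ≤ x * (δ * c) := by
        rw [div_le_iff₀ (by positivity)] at h2
        exact h2
      have h6 : 2 * (1 / (x * x)) = 2 / (x * x) := by
        field_simp
      have h7 : δ * (c / x) = (x * (δ * c)) / (x * x) := by
        field_simp
      rw [h6, h7]
      gcongr
    linarith
  · have e1 : (z : ℝ) + 1 ≤ Real.exp (η / 16 * x / L + 1) := by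
      have h5 : 1 ≤ Real.exp (η / 16 * x / L) := Real.one_le_exp (by positivity)
      have h6 : (2 : ℝ) ≤ Real.exp 1 := by
        have := Real.add_one_le_exp (1 : ℝ)
        linarith
      rw [Real.exp_add]
      have h7 : Real.exp (η / 16 * x / L) * 2 ≤ Real.exp (η / 16 * x / L) * Real.exp 1 := by
        gcongr
      linarith
    have e2 : ((z : ℝ) + 1) ^ (⌈8 * A⌉₊ + 2) ≤
        (Real.exp (η / 16 * x / L + 1)) ^ (⌈8 * A⌉₊ + 2) :=
      pow_le_pow_left₀ (by positivity) e1 _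
    have hk0 : (0 : ℝ) < k := by
      have : (1 : ℝ) ≤ k := by exact_mod_cast hk1
      linarith
    refine e2.trans ?_
    rw [← Real.exp_nat_mul, Real.rpow_def_of_pos hk0, ← hx]
    refine Real.exp_le_exp.2 ?_
    push_cast
    have hr : (⌈8 * A⌉₊ : ℝ) + 2 ≤ 9 * L := by
      rw [hA] at hr2
      rw [hA]
      linarith
    have hp : 0 ≤ η / 16 * x / L + 1 := by positivity
    calc ((⌈8 * A⌉₊ : ℝ) + 2) * (η / 16 * x / L + 1) ≤ 9 * L * (η / 16 * x / L + 1) := by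
          gcongr
      _ = 9 * (η / 16) * x + 9 * L := by
          field_simp
      _ ≤ x * η := by linarith

end Pool.Agent.H1.Jac
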