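import Pool.Agent.H12.Brun

/-!
# Brun's pure sieve with relative errors

Part of `MP_4e17b9_nt`. Like `Pool.Agent.H12.brun` (and `pure_brun` in
`Pool/Agent/H1/Jac/Pure.lean`), upper and lower bound. For `i ∈ T` let `D_i` be the set of the
`q ∈ S` with `P q i`. Bonferroni (`Pool.Agent.H12.bonferroni`, and its odd analogue): the alternating
sum `∑_{D ⊆ S, |D| ≤ r'} (-1)^|D| [D ⊆ D_i]` is at least (`r'` even) or at most (`r'` odd) the
indicator of `D_i = ∅`. Sum over `i ∈ T`: use `r'` even and `r'` odd among `r, r + 1`. The same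
inequalities for the product `∏ (1 - x q)` instead of the indicator: the truncated alternating sum
of the elementary symmetric functions differs from the product by at most the first omitted one,
which is at most `(∑ x)^(r'+1)/(r'+1)!` (`esym_le`). The errors: `∑_{|D| ≤ r'} δ N ∏_{D} x ≤
δ N ∏ (1 + x q) ≤ δ N exp (∑ x)`.
-/

set_option autoImplicit false

namespace Pool.Agent.H1.Jac

open Finset

private theorem sum_card_le_exp (S : Finset ℕ) (x : ℕ → ℝ) (hx : ∀ q ∈ S, 0 ≤ x q) (s : ℕ) :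
    ∑ j ∈ range (s + 1), ∑ D ∈ S.powersetCard j, ∏ q ∈ D, x q ≤ Real.exp (∑ q ∈ S, x q) := by
  have hnn : ∀ j, 0 ≤ ∑ D ∈ S.powersetCard j, ∏ q ∈ D, x q := fun j =>
    sum_nonneg fun D hD => prod_nonneg fun q hq => hx q ((mem_powersetCard.1 hD).1 hq)
  have h1 : ∑ j ∈ range (s + 1), ∑ D ∈ S.powersetCard j, ∏ q ∈ D, x q ≤
      ∑ j ∈ range (max (s + 1) (S.card + 1)), ∑ D ∈ S.powersetCard j, ∏ q ∈ D, x q :=
    sum_le_sum_of_subset_of_nonneg (range_subset_range.2 (le_max_left _ _)) fun j _ _ => hnn j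
  have h2 : ∑ j ∈ range (S.card + 1), ∑ D ∈ S.powersetCard j, ∏ q ∈ D, x q =
      ∑ j ∈ range (max (s + 1) (S.card + 1)), ∑ D ∈ S.powersetCard j, ∏ q ∈ D, x q := by
    refine sum_subset (range_subset_range.2 (le_max_right _ _)) fun j _ hj => ?_
    rw [mem_range, not_lt] at hj
    rw [powersetCard_eq_empty.2 (by omega), sum_empty]
  have h3 : ∑ j ∈ range (S.card + 1), ∑ D ∈ S.powersetCard j, ∏ q ∈ D, x q =
      ∏ q ∈ S, (1 + x q) := by
    rw [prod_one_add, sum_powerset]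
  refine h1.trans ?_
  rw [← h2, h3, Real.exp_sum]
  refine prod_le_prod (fun q hq => by linarith [hx q hq]) fun q _ => ?_
  have := Real.add_one_le_exp (x q)
  linarith

private theorem brun_signed' (T S : Finset ℕ) (P : ℕ → ℕ → Prop) [∀ q i, Decidable (P q i)]
    (x : ℕ → ℝ) (hx : ∀ q ∈ S, 0 ≤ x q ∧ x q ≤ 1) (s : ℕ) (N δ : ℝ) (hN : 0 ≤ N) (hδ : 0 ≤ δ)
    (hcount : ∀ D ⊆ S, D.card ≤ s →
      |((T.filter (fun i => ∀ q ∈ D, P q i)).card : ℝ) - N * ∏ q ∈ D, x q| ≤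
        δ * (N * ∏ q ∈ D, x q)) :
    (-1 : ℝ) ^ s * (((T.filter (fun i => ∀ q ∈ S, ¬ P q i)).card : ℝ) -
      N * ∏ q ∈ S, (1 - x q)) ≤
      N * ((∑ q ∈ S, x q) ^ (s + 1) / ((s + 1).factorial : ℝ)) +
        N * (δ * Real.exp (∑ q ∈ S, x q)) := by
  classical
  -- pointwise
  have h1 : (-1 : ℝ) ^ s * (((T.filter (fun i => ∀ q ∈ S, ¬ P q i)).card : ℝ) -
      ∑ i ∈ T, H12.tsum' S (fun q => if P q i then (1 : ℝ) else 0) s) ≤ 0 := by
    rw [← sum_boole (R := ℝ), ← sum_sub_distrib, mul_sum]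
    refine sum_nonpos fun i _ => ?_
    have h := (H12.bonferroni S (fun q => if P q i then (1:ℝ) else 0) (fun p _ => by
      split_ifs <;> norm_num) s).1
    have h2 : (if ∀ q ∈ S, ¬ P q i then (1:ℝ) else 0) =
        ∏ q ∈ S, (1 - if P q i then (1:ℝ) else 0) := by
      split_ifs with hc
      · rw [prod_eq_one]
        intro p hp
        rw [if_neg (hc p hp), sub_zero]
      · push Not at hc
        obtain ⟨p, hp, hpe⟩ := hc
        symm
        refine prod_eq_zero hp ?_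
        rw [if_pos hpe, sub_self]
    rw [h2]
    have e : (-1 : ℝ) ^ s * (∏ q ∈ S, (1 - if P q i then (1:ℝ) else 0) -
        H12.tsum' S (fun q => if P q i then (1 : ℝ) else 0) s) =
        -((-1 : ℝ) ^ s * (H12.tsum' S (fun q => if P q i then (1 : ℝ) else 0) s -
          ∏ q ∈ S, (1 - if P q i then (1:ℝ) else 0))) := by ring
    rw [e]
    linarith
  have h2 : ∑ i ∈ T, H12.tsum' S (fun q => if P q i then (1:ℝ) else 0) s =
      ∑ j ∈ range (s+1), (-1)^j * ∑ D ∈ S.powersetCard j,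
        ((T.filter (fun i => ∀ q ∈ D, P q i)).card : ℝ) := by
    unfold H12.tsum' H12.esym
    rw [sum_comm]
    refine sum_congr rfl fun j _ => ?_
    rw [← mul_sum, sum_comm]
    congr 1
    refine sum_congr rfl fun D _ => ?_
    rw [← sum_boole (R := ℝ)]
    refine sum_congr rfl fun i _ => ?_
    split_ifs with hc
    · exact prod_eq_one fun p hp => if_pos (hc p hp)
    · push Not at hc
      obtain ⟨p, hp, hpe⟩ := hc
      exact prod_eq_zero hp (if_neg hpe)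
  have h3 : |∑ i ∈ T, H12.tsum' S (fun q => if P q i then (1:ℝ) else 0) s -
      N * H12.tsum' S x s| ≤ N * (δ * Real.exp (∑ q ∈ S, x q)) := by
    rw [h2]
    have e0 : ∑ j ∈ range (s+1), (-1:ℝ)^j * ∑ D ∈ S.powersetCard j,
        ((T.filter (fun i => ∀ q ∈ D, P q i)).card : ℝ) -
        N * H12.tsum' S x s =
        ∑ j ∈ range (s+1), (-1:ℝ)^j * ∑ D ∈ S.powersetCard j,
          (((T.filter (fun i => ∀ q ∈ D, P q i)).card : ℝ) -
            N * ∏ q ∈ D, x q) := by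
      unfold H12.tsum' H12.esym
      rw [mul_sum, ← sum_sub_distrib]
      refine sum_congr rfl fun j _ => ?_
      rw [sum_sub_distrib, ← mul_sum]
      ring
    rw [e0]
    refine (abs_sum_le_sum_abs _ _).trans ?_
    have hx0 : ∀ q ∈ S, 0 ≤ x q := fun q hq => (hx q hq).1
    have hexp := mul_le_mul_of_nonneg_left (sum_card_le_exp S x hx0 s) (mul_nonneg hN hδ)
    refine le_trans ?_ (le_trans hexp (le_of_eq (by ring)))
    rw [mul_sum]
    refine sum_le_sum fun j hj => ?_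
    rw [mem_range] at hj
    rw [abs_mul, abs_pow, abs_neg, abs_one, one_pow, one_mul, mul_sum]
    refine (abs_sum_le_sum_abs _ _).trans ?_
    refine sum_le_sum fun D hD => ?_
    rw [mem_powersetCard] at hD
    refine (hcount D hD.1 (by omega)).trans (le_of_eq (by ring))
  have h4 := (H12.bonferroni S x hx s).2
  have h5 := H12.esym_le S x (fun p hp => (hx p hp).1) (s+1)
  have h6 : (-1 : ℝ) ^ s * (∑ i ∈ T, H12.tsum' S (fun q => if P q i then (1:ℝ) else 0) s -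
      N * H12.tsum' S x s) ≤ N * (δ * Real.exp (∑ q ∈ S, x q)) := by
    refine le_trans (le_abs_self _) ?_
    rw [abs_mul, abs_pow, abs_neg, abs_one, one_pow, one_mul]
    exact h3
  have h7 : N * ((-1 : ℝ) ^ s * (H12.tsum' S x s - ∏ q ∈ S, (1 - x q))) ≤
      N * ((∑ q ∈ S, x q) ^ (s + 1) / ((s + 1).factorial : ℝ)) :=
    mul_le_mul_of_nonneg_left (h4.trans h5) hN
  have e8 : (-1 : ℝ) ^ s * (((T.filter (fun i => ∀ q ∈ S, ¬ P q i)).card : ℝ) -
      N * ∏ q ∈ S, (1 - x q)) =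
      (-1 : ℝ) ^ s * (((T.filter (fun i => ∀ q ∈ S, ¬ P q i)).card : ℝ) -
        ∑ i ∈ T, H12.tsum' S (fun q => if P q i then (1 : ℝ) else 0) s) +
      (-1 : ℝ) ^ s * (∑ i ∈ T, H12.tsum' S (fun q => if P q i then (1:ℝ) else 0) s -
        N * H12.tsum' S x s) +
      N * ((-1 : ℝ) ^ s * (H12.tsum' S x s - ∏ q ∈ S, (1 - x q))) := by ring
  rw [e8]
  linarith

theorem bonf_mult (T S : Finset ℕ) (P : ℕ → ℕ → Prop) [∀ q i, Decidable (P q i)] (x : ℕ → ℝ)
    (hx : ∀ q ∈ S, 0 ≤ x q ∧ x q ≤ 1) (r : ℕ) (N δ : ℝ) (hN : 0 ≤ N) (hδ : 0 ≤ δ)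
    (hcount : ∀ D ⊆ S, D.card ≤ r + 2 →
      |((T.filter (fun i => ∀ q ∈ D, P q i)).card : ℝ) - N * ∏ q ∈ D, x q| ≤
        δ * (N * ∏ q ∈ D, x q)) :
    |((T.filter (fun i => ∀ q ∈ S, ¬ P q i)).card : ℝ) - N * ∏ q ∈ S, (1 - x q)| ≤
      N * ((∑ q ∈ S, x q) ^ (r + 1) / ((r + 1).factorial : ℝ) +
        (∑ q ∈ S, x q) ^ (r + 2) / ((r + 2).factorial : ℝ) + δ * Real.exp (∑ q ∈ S, x q)) := by
  have hA := brun_signed' T S P x hx r N δ hN hδ (fun D hD hc => hcount D hD (by omega))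
  have hB := brun_signed' T S P x hx (r + 1) N δ hN hδ (fun D hD hc => hcount D hD (by omega))
  have hS : (0 : ℝ) ≤ ∑ q ∈ S, x q := sum_nonneg fun q hq => (hx q hq).1
  set A : ℝ := ((T.filter (fun i => ∀ q ∈ S, ¬ P q i)).card : ℝ) with hAd
  set X : ℝ := ∑ q ∈ S, x q with hXd
  set V : ℝ := ∏ q ∈ S, (1 - x q) with hVd
  have e1 : 0 ≤ N * (X ^ (r + 1) / ((r + 1).factorial : ℝ)) := by positivity
  have e2 : 0 ≤ N * (X ^ (r + 2) / ((r + 2).factorial : ℝ)) := by positivity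
  have hB' : (-1 : ℝ) ^ (r + 1) * (A - N * V) ≤
      N * (X ^ (r + 2) / ((r + 2).factorial : ℝ)) + N * (δ * Real.exp X) := hB
  rw [mul_add, mul_add, abs_le]
  rcases Nat.even_or_odd r with hr | hr
  · have s1 : (-1 : ℝ) ^ r = 1 := hr.neg_one_pow
    have s2 : (-1 : ℝ) ^ (r + 1) = -1 := hr.add_one.neg_one_pow
    rw [s1] at hA
    rw [s2] at hB'
    constructor <;> linarith
  · have s1 : (-1 : ℝ) ^ r = -1 := hr.neg_one_pow
    have s2 : (-1 : ℝ) ^ (r + 1) = 1 := hr.add_one.neg_one_pow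
    rw [s1] at hA
    rw [s2] at hB'
    constructor <;> linarith

end Pool.Agent.H1.Jac
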