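import Pool.Agent.H1.Jac.Cnt
import Pool.Agent.H1.Jac.ConcU
import Pool.Agent.H1.Jac.ConcL

/-!
# Concentration, all random primes large

Part of `MP_4e17b9_nt`. `conc_up` and `conc_lo` with `Q0 = ∅`, `Q1 = R`, `ε = μ ^ (-1/4) ≤ 1/4`.
Hypothesis `hT`: `V ∅ = 1`, `surv ∅ a (AP m e c) = AP m e c`, whose size is `h ± 1`, `h = m / e`
(`cnt` with `D = ∅`), and `1 ≤ ε h` as `ε h ≥ μ ^ (3/4)`. The exponent: `h / w ≤ h / μ` and
`Λ ≤ Λ h / μ`, so it is at least `ε ^ 2 (h V) μ / ((1 + Λ) h) = μ ^ (1/2) V / (1 + Λ) ≥ 6 K`.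
-/

set_option autoImplicit false

namespace Pool.Agent.H1.Jac

open Finset

theorem conc_R (R : Finset ℕ) (hR : ∀ q ∈ R, q.Prime) (m e c w : ℕ) (he : 0 < e)
    (hcop : ∀ q ∈ R, Nat.Coprime e q) (hw : 0 < w) (hwR : ∀ q ∈ R, w < q) (Λ μ K : ℝ)
    (hK : 0 ≤ K) (hΛ : 1 + ∑ q ∈ R, 1 / (q : ℝ) ≤ Λ) (hμ : 256 ≤ μ) (hμh : μ ≤ (m : ℝ) / e)
    (hμw : μ ≤ w) (hexp : 6 * K * (1 + Λ) ≤ μ ^ (1 / 2 : ℝ) * V R) :
    (((range (∏ q ∈ R, q)).filter (fun a => 5 * μ ^ (-(1 / 4) : ℝ) * ((m : ℝ) / e * V R) <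
      |((surv R a (AP m e c)).card : ℝ) - (m : ℝ) / e * V R|)).card : ℝ) ≤
      2 * (∏ q ∈ R, (q : ℝ)) * Real.exp (-(6 * K)) := by
  classical
  set h : ℝ := (m : ℝ) / e with hh
  set ε : ℝ := μ ^ (-(1 / 4) : ℝ) with hεd
  have hμ0 : 0 < μ := by linarith
  have hh0 : 0 < h := by linarith
  have hε : 0 < ε := Real.rpow_pos_of_pos hμ0 _
  have hε4 : ε ≤ 1 / 4 := by
    have h1 : (4 : ℝ) ≤ μ ^ (1 / 4 : ℝ) := by
      have h2 : (256 : ℝ) ^ (1 / 4 : ℝ) = 4 := by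
        rw [show (256 : ℝ) = 4 ^ (4 : ℝ) by norm_num, ← Real.rpow_mul (by norm_num)]
        norm_num
      have h3 : (256 : ℝ) ^ (1 / 4 : ℝ) ≤ μ ^ (1 / 4 : ℝ) :=
        Real.rpow_le_rpow (by norm_num) hμ (by norm_num)
      linarith
    rw [hεd, Real.rpow_neg hμ0.le, inv_eq_one_div]
    exact one_div_le_one_div_of_le (by norm_num) h1
  have hε2 : ε ^ 2 * μ = μ ^ (1 / 2 : ℝ) := by
    have h1 : ε ^ 2 = μ ^ (-(1 / 2) : ℝ) := by
      rw [hεd, ← Real.rpow_natCast, ← Real.rpow_mul hμ0.le]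
      norm_num
    rw [h1]
    have h2 : μ ^ (-(1 / 2) : ℝ) * μ ^ (1 : ℝ) = μ ^ (1 / 2 : ℝ) := by
      rw [← Real.rpow_add hμ0]
      norm_num
    rw [Real.rpow_one] at h2
    exact h2
  have hεh : 1 ≤ ε * h := by
    have h1 : ε * μ = μ ^ (3 / 4 : ℝ) := by
      have h2 : μ ^ (-(1 / 4) : ℝ) * μ ^ (1 : ℝ) = μ ^ (3 / 4 : ℝ) := by
        rw [← Real.rpow_add hμ0]
        norm_num
      rw [Real.rpow_one] at h2
      exact h2
    have h3 : 1 ≤ μ ^ (3 / 4 : ℝ) := Real.one_le_rpow (by linarith) (by norm_num)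
    have h4 : ε * μ ≤ ε * h := mul_le_mul_of_nonneg_left hμh hε.le
    linarith
  have hs : ∀ a, surv ∅ a (AP m e c) = AP m e c := by
    intro a
    unfold surv
    simp
  have hV : V ∅ = 1 := by
    unfold V
    simp
  have hc := cnt m e c 0 he ∅ (by simp) (by simp)
  simp only [notMem_empty, false_imp_iff, imp_true_iff, filter_true, prod_empty, mul_one] at hc
  rw [abs_le] at hc
  have hu := conc_up ∅ R (by simp) hR (disjoint_empty_left _) m e c w he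
    (by simpa using hcop) hw hwR Λ ε hε hε4 hΛ (by
      intro a
      rw [hs, hV, mul_one]
      linarith [hc.2])
  have hl := conc_lo ∅ R (by simp) hR (disjoint_empty_left _) m e c w he
    (by simpa using hcop) hw hwR Λ ε hε hε4 hΛ (by
      intro a
      rw [hs, hV, mul_one]
      linarith [hc.1])
  rw [empty_union] at hu hl
  rw [← hh] at hu hl
  have hw' : (0 : ℝ) < w := by exact_mod_cast hw
  have hΛ1 : 1 ≤ Λ := by
    have : 0 ≤ ∑ q ∈ R, 1 / (q : ℝ) := sum_nonneg fun _ _ => by positivity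
    linarith
  have hB0 : 0 < h / w + Λ := by positivity
  have hkey : 6 * K ≤ ε ^ 2 * (h * V R) / (h / w + Λ) := by
    rw [le_div_iff₀ hB0]
    have h1 : h / w ≤ h / μ := div_le_div_of_nonneg_left hh0.le hμ0 hμw
    have h2 : 1 ≤ h / μ := by
      rw [le_div_iff₀ hμ0]
      linarith
    have h3 : Λ ≤ Λ * (h / μ) := le_mul_of_one_le_right (by linarith) h2
    have h4 : 6 * K * (h / w + Λ) ≤ 6 * K * ((1 + Λ) * (h / μ)) :=
      mul_le_mul_of_nonneg_left (by linarith) (by linarith)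
    have h5 : 6 * K * (1 + Λ) * (h / μ) ≤ μ ^ (1 / 2 : ℝ) * V R * (h / μ) :=
      mul_le_mul_of_nonneg_right hexp (by positivity)
    have h6 : μ ^ (1 / 2 : ℝ) * V R * (h / μ) = ε ^ 2 * (h * V R) := by
      rw [← hε2]
      field_simp
    linarith
  have hexp' : Real.exp (-(ε ^ 2 * (h * V R) / (h / w + Λ))) ≤ Real.exp (-(6 * K)) :=
    Real.exp_le_exp.2 (neg_le_neg hkey)
  have hP : 0 ≤ ∏ q ∈ R, (q : ℝ) := prod_nonneg fun _ _ => Nat.cast_nonneg _
  have hsub : (range (∏ q ∈ R, q)).filter (fun a => 5 * ε * (h * V R) <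
      |((surv R a (AP m e c)).card : ℝ) - h * V R|) ⊆
      (range (∏ q ∈ R, q)).filter (fun a => (1 + 5 * ε) * (h * V R) <
        ((surv R a (AP m e c)).card : ℝ)) ∪
      (range (∏ q ∈ R, q)).filter (fun a => ((surv R a (AP m e c)).card : ℝ) <
        (1 - 5 * ε) * (h * V R)) := by
    intro a ha
    rw [mem_filter] at ha
    rw [mem_union, mem_filter, mem_filter]
    rcases lt_abs.1 ha.2 with h1 | h1
    · left
      exact ⟨ha.1, by linarith⟩
    · right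
      exact ⟨ha.1, by linarith⟩
  have hcard := (card_le_card hsub).trans (card_union_le _ _)
  have hcard' : (((range (∏ q ∈ R, q)).filter (fun a => 5 * ε * (h * V R) <
      |((surv R a (AP m e c)).card : ℝ) - h * V R|)).card : ℝ) ≤
      (((range (∏ q ∈ R, q)).filter (fun a => (1 + 5 * ε) * (h * V R) <
        ((surv R a (AP m e c)).card : ℝ))).card : ℝ) +
      (((range (∏ q ∈ R, q)).filter (fun a => ((surv R a (AP m e c)).card : ℝ) <
        (1 - 5 * ε) * (h * V R))).card : ℝ) := by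
    exact_mod_cast hcard
  have h7 := mul_le_mul_of_nonneg_left hexp' hP
  linarith

end Pool.Agent.H1.Jac
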