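import Pool.Agent.H1.Jac.VBig

/-!
# The product over the primes up to `y`

Part of `MP_4e17b9_nt`. `V_big` with `k := z` (`S.card ≤ z`):
`V S = V (S.filter (y < ·)) * V (S.filter (¬ y < ·)) ≥ c (log y / log z) V (S.filter (¬ y < ·))`.
-/

set_option autoImplicit false

namespace Pool.Agent.H1.Jac

open Finset

theorem V_small : ∃ C : ℝ, 0 < C ∧ ∀ z y : ℕ, 3 ≤ z → 2 ≤ y → y ≤ z → ∀ S : Finset ℕ,
    (∀ q ∈ S, q.Prime) → (∀ q ∈ S, q ≤ z) →
    V (S.filter (fun q => ¬ y < q)) ≤ C * (Real.log z / Real.log y) * V S := by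
  obtain ⟨c, hc, h⟩ := V_big
  refine ⟨1 / c, by positivity, ?_⟩
  intro z y hz hy hyz S hS hSz
  have hcard : S.card ≤ z := by
    have h1 : S ⊆ Ioc 0 z := fun q hq => mem_Ioc.2 ⟨(hS q hq).pos, hSz q hq⟩
    have h2 := card_le_card h1
    rwa [Nat.card_Ioc, Nat.sub_zero] at h2
  have h1 := h z hz y hy hyz S hS hcard
  have hz1 : (1 : ℝ) < z := by exact_mod_cast (by omega : 1 < z)
  have hy1 : (1 : ℝ) < y := by exact_mod_cast (by omega : 1 < y)
  have hlz : 0 < Real.log z := Real.log_pos hz1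
  have hly : 0 < Real.log y := Real.log_pos hy1
  have h2 : V S = V (S.filter (fun q => y < q)) * V (S.filter (fun q => ¬ y < q)) := by
    unfold V
    exact (prod_filter_mul_prod_filter_not S (fun q => y < q) _).symm
  have h3 : 0 ≤ V (S.filter (fun q => ¬ y < q)) := by
    refine prod_nonneg fun q hq => ?_
    have h4 : (1 : ℝ) ≤ q := by exact_mod_cast (hS q (mem_filter.1 hq).1).one_lt.le
    have h5 : 1 / (q : ℝ) ≤ 1 := by
      rw [div_le_one (by linarith)]; exact h4
    linarith
  have h4 := mul_le_mul_of_nonneg_right h1 h3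
  rw [← h2] at h4
  have h5 : 1 / c * (Real.log z / Real.log y) * (c * Real.log y / Real.log z *
      V (S.filter (fun q => ¬ y < q))) = V (S.filter (fun q => ¬ y < q)) := by
    field_simp
  calc V (S.filter (fun q => ¬ y < q)) = 1 / c * (Real.log z / Real.log y) *
        (c * Real.log y / Real.log z * V (S.filter (fun q => ¬ y < q))) := h5.symm
    _ ≤ 1 / c * (Real.log z / Real.log y) * V S := mul_le_mul_of_nonneg_left h4 (by positivity)

end Pool.Agent.H1.Jac
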