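import Pool.Agent.H34.NA.Primes

/-!
# A weighted sum over primes

Part of `MP_4e17b9_nt`. For `p ∈ E` let `j` with `2 ^ j ≤ M / p < 2 ^ (j + 1)`, so `1 ≤ j ≤ log k`
(`2 ^ j ≤ √k`). The primes of `E` with this `j` are in `(M / 2 ^ (j + 1), M / 2 ^ j]`, and
`M / 2 ^ (j + 1) ≥ √k / 2`, so by `Pool.Agent.H34.NA.mertens_window` (take floors) their sum of
`1/p` is at most `(log 2 + C) / log (√k / 2) ≤ C' / log k`; the weight `1 / log (M / p)` is at most
`1 / (j log 2)`. Sum over `j ≤ log k`: `∑ 1/j ≤ 1 + log log k`.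
-/

set_option autoImplicit false

namespace Pool.Agent.H1.Jac

open Finset

/-- the sum over one dyadic class -/
private lemma w_class {C0 : ℝ}
    (hw : ∀ y x : ℕ, 1 ≤ y → y ≤ x →
      |∑ p ∈ (Ioc y x).filter Nat.Prime, Real.log p / p - (Real.log x - Real.log y)| ≤ C0)
    {k : ℕ} (hk : 16 ≤ k) {M : ℝ} (hM : (k : ℝ) ≤ M) {E : Finset ℕ} (hE : ∀ p ∈ E, p.Prime)
    {j : ℕ} (hj : 1 ≤ j) (hj2 : (2 : ℝ) ^ j ≤ Real.sqrt k)
    (hE2 : ∀ p ∈ E, (2 : ℝ) ^ j * p ≤ M ∧ M < 2 ^ (j + 1) * p) :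
    ∑ p ∈ E, 1 / (p : ℝ) * (1 / Real.log (M / p)) ≤
      4 * (Real.log 4 + C0) / Real.log 2 / Real.log k * (1 / j) := by
  have hkR : (16 : ℝ) ≤ k := by exact_mod_cast hk
  have hk0 : (0 : ℝ) < k := by linarith
  have hs : 0 < Real.sqrt k := Real.sqrt_pos.2 hk0
  have hs4 : 4 ≤ Real.sqrt k := by
    rw [show (4 : ℝ) = Real.sqrt 16 by
      rw [show (16 : ℝ) = 4 ^ 2 by norm_num, Real.sqrt_sq (by norm_num)]]
    exact Real.sqrt_le_sqrt hkR
  have hss : Real.sqrt k * Real.sqrt k = k := Real.mul_self_sqrt hk0.le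
  have hl2 : 0 < Real.log 2 := Real.log_pos (by norm_num)
  have hlk : 4 * Real.log 2 ≤ Real.log k := by
    have h : Real.log ((2 : ℝ) ^ 4) ≤ Real.log k :=
      Real.log_le_log (by norm_num) (by norm_num; linarith)
    rw [Real.log_pow] at h
    push_cast at h
    exact h
  have hlk0 : 0 < Real.log k := by linarith
  have hj0 : (0 : ℝ) < j := by exact_mod_cast hj
  have h2j : (0 : ℝ) < 2 ^ j := by positivity
  -- the lower end of the class
  have hlow : Real.sqrt k / 2 ≤ M / 2 ^ (j + 1) := by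
    rw [le_div_iff₀ (by positivity), pow_succ]
    nlinarith
  have hlow2 : 2 ≤ M / 2 ^ (j + 1) := by linarith
  have hM0 : 0 < M := by linarith
  obtain ⟨x, hx⟩ : ∃ x : ℕ, x = ⌊M / 2 ^ j⌋₊ := ⟨_, rfl⟩
  obtain ⟨y, hy⟩ : ∃ y : ℕ, y = ⌊M / 2 ^ (j + 1)⌋₊ := ⟨_, rfl⟩
  have hy1 : M / 2 ^ (j + 1) - 1 < y := by
    rw [hy]
    exact Nat.sub_one_lt_floor _
  have hy2 : (y : ℝ) ≤ M / 2 ^ (j + 1) := by
    rw [hy]
    exact Nat.floor_le (by positivity)
  have hx2 : (x : ℝ) ≤ M / 2 ^ j := by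
    rw [hx]
    exact Nat.floor_le (by positivity)
  have hy0 : (1 : ℝ) < y := by linarith
  have hy1' : 1 ≤ y := by
    have : 1 < y := by exact_mod_cast hy0
    omega
  have hhalf : M / 2 ^ j = 2 * (M / 2 ^ (j + 1)) := by
    rw [pow_succ]
    field_simp
  have hyx : y ≤ x := by
    rw [hy, hx]
    apply Nat.floor_le_floor
    rw [hhalf]
    linarith
  have hx1 : (x : ℝ) ≤ 4 * y := by
    rw [hhalf] at hx2
    linarith
  have hxy : Real.log x - Real.log y ≤ Real.log 4 := by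
    have hx0 : (0 : ℝ) < x := by
      have : (y : ℝ) ≤ x := by exact_mod_cast hyx
      linarith
    have h := Real.log_le_log hx0 hx1
    rw [Real.log_mul (by norm_num) (by linarith)] at h
    linarith
  have hsum : ∑ p ∈ (Ioc y x).filter Nat.Prime, Real.log p / p ≤ Real.log 4 + C0 := by
    have h := (abs_le.1 (hw y x hy1' hyx)).2
    linarith
  have hLk : Real.log k / 4 ≤ Real.log (Real.sqrt k / 2) := by
    rw [Real.log_div hs.ne' (by norm_num), Real.log_sqrt hk0.le]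
    linarith
  have hLk0 : 0 < Real.log (Real.sqrt k / 2) := by linarith
  have hsub : E ⊆ (Ioc y x).filter Nat.Prime := by
    intro p hp
    rw [mem_filter, mem_Ioc]
    have hpp := hE p hp
    obtain ⟨g1, g2⟩ := hE2 p hp
    refine ⟨⟨?_, ?_⟩, hpp⟩
    · have h1 : (y : ℝ) < p := by
        refine lt_of_le_of_lt hy2 ?_
        rw [div_lt_iff₀ (by positivity)]
        linarith
      exact_mod_cast h1
    · rw [hx]
      apply Nat.le_floor
      rw [le_div_iff₀ h2j]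
      linarith
  have hterm : ∀ p ∈ E, 1 / (p : ℝ) * (1 / Real.log (M / p)) ≤
      Real.log p / p * (1 / Real.log (Real.sqrt k / 2) * (1 / (j * Real.log 2))) := by
    intro p hp
    have hpp := hE p hp
    have hp0 : (0 : ℝ) < p := by exact_mod_cast hpp.pos
    obtain ⟨g1, g2⟩ := hE2 p hp
    have h1 : (j : ℝ) * Real.log 2 ≤ Real.log (M / p) := by
      rw [← Real.log_pow]
      apply Real.log_le_log h2j
      rw [le_div_iff₀ hp0]
      exact g1
    have h2 : Real.log (Real.sqrt k / 2) ≤ Real.log p := by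
      apply Real.log_le_log (by positivity)
      refine hlow.trans ?_
      rw [div_le_iff₀ (by positivity)]
      linarith
    have h3 : 1 / Real.log (M / p) ≤ 1 / (j * Real.log 2) :=
      one_div_le_one_div_of_le (by positivity) h1
    have h4 : 1 ≤ Real.log p * (1 / Real.log (Real.sqrt k / 2)) := by
      rw [mul_one_div, le_div_iff₀ hLk0, one_mul]
      exact h2
    calc 1 / (p : ℝ) * (1 / Real.log (M / p)) ≤ 1 / (p : ℝ) * (1 / (j * Real.log 2)) :=
          mul_le_mul_of_nonneg_left h3 (by positivity)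
      _ = 1 * (1 / (p : ℝ) * (1 / (j * Real.log 2))) := (one_mul _).symm
      _ ≤ (Real.log p * (1 / Real.log (Real.sqrt k / 2))) *
          (1 / (p : ℝ) * (1 / (j * Real.log 2))) :=
          mul_le_mul_of_nonneg_right h4 (by positivity)
      _ = _ := by ring
  calc ∑ p ∈ E, 1 / (p : ℝ) * (1 / Real.log (M / p))
      ≤ ∑ p ∈ E, Real.log p / p *
          (1 / Real.log (Real.sqrt k / 2) * (1 / (j * Real.log 2))) := sum_le_sum hterm
    _ ≤ ∑ p ∈ (Ioc y x).filter Nat.Prime, Real.log p / p *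
          (1 / Real.log (Real.sqrt k / 2) * (1 / (j * Real.log 2))) := by
        refine sum_le_sum_of_subset_of_nonneg hsub fun p hp _ => ?_
        have hpp := (mem_filter.1 hp).2
        have : 0 ≤ Real.log (p : ℝ) := Real.log_natCast_nonneg p
        positivity
    _ = (∑ p ∈ (Ioc y x).filter Nat.Prime, Real.log p / p) *
          (1 / Real.log (Real.sqrt k / 2) * (1 / (j * Real.log 2))) := by rw [sum_mul]
    _ ≤ (Real.log 4 + C0) * (4 / Real.log k * (1 / (j * Real.log 2))) := by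
        have hnn : 0 ≤ ∑ p ∈ (Ioc y x).filter Nat.Prime, Real.log p / (p : ℝ) :=
          sum_nonneg fun p _ => div_nonneg (Real.log_natCast_nonneg p) (Nat.cast_nonneg p)
        have h5 : 1 / Real.log (Real.sqrt k / 2) ≤ 4 / Real.log k := by
          rw [div_le_div_iff₀ hLk0 hlk0]
          linarith
        exact mul_le_mul hsum (mul_le_mul_of_nonneg_right h5 (by positivity))
          (by positivity) (hnn.trans hsum)
    _ = _ := by
        field_simp

theorem w_sum : ∃ C : ℝ, 0 < C ∧ ∃ k₀ : ℕ, ∀ k ≥ k₀, ∀ M : ℝ, (k : ℝ) ≤ M → ∀ E : Finset ℕ,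
    (∀ p ∈ E, p.Prime) → (∀ p ∈ E, 2 * (p : ℝ) ≤ M ∧ M ≤ Real.sqrt k * p) →
    ∑ p ∈ E, 1 / (p : ℝ) * (1 / Real.log (M / p)) ≤ C * Real.log (Real.log k) / Real.log k := by
  classical
  obtain ⟨C0, hC0, hw⟩ := Pool.Agent.H34.NA.mertens_window
  have hl2 : 0 < Real.log 2 := Real.log_pos (by norm_num)
  have hl4 : 0 < Real.log 4 := Real.log_pos (by norm_num)
  have hl2a := Real.log_two_gt_d9
  have hl2b := Real.log_two_lt_d9
  have he := Real.exp_one_lt_d9
  obtain ⟨K, hK⟩ : ∃ K : ℝ, K = 4 * (Real.log 4 + C0) / Real.log 2 := ⟨_, rfl⟩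
  have hK0 : 0 < K := by
    rw [hK]
    positivity
  refine ⟨2 * K, by positivity, 16, ?_⟩
  intro k hk M hM E hE hE2
  have hkR : (16 : ℝ) ≤ k := by exact_mod_cast hk
  have hk0 : (0 : ℝ) < k := by linarith
  have hs : 0 < Real.sqrt k := Real.sqrt_pos.2 hk0
  have hlk : 4 * Real.log 2 ≤ Real.log k := by
    have h : Real.log ((2 : ℝ) ^ 4) ≤ Real.log k :=
      Real.log_le_log (by norm_num) (by norm_num; linarith)
    rw [Real.log_pow] at h
    push_cast at h
    exact h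
  have hlk0 : 0 < Real.log k := by linarith
  have hllk : 1 ≤ Real.log (Real.log k) := by
    rw [Real.le_log_iff_exp_le hlk0]
    linarith
  have hM0 : 0 < M := by linarith
  obtain ⟨g, hg⟩ : ∃ g : ℕ → ℕ, g = fun p : ℕ => Nat.log 2 ⌊M / (p : ℝ)⌋₊ :=
    ⟨_, rfl⟩
  obtain ⟨J, hJ⟩ : ∃ J : ℕ, J = ⌊Real.log k⌋₊ := ⟨_, rfl⟩
  -- the properties of `g`
  have hgp : ∀ p ∈ E, 1 ≤ g p ∧ (2 : ℝ) ^ g p * p ≤ M ∧ M < 2 ^ (g p + 1) * p := by
    intro p hp
    have hpp := hE p hp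
    have hp0 : (0 : ℝ) < p := by exact_mod_cast hpp.pos
    obtain ⟨g1, g2⟩ := hE2 p hp
    have h1 : (2 : ℝ) ≤ M / p := by
      rw [le_div_iff₀ hp0]
      exact g1
    have h2 : 2 ≤ ⌊M / (p : ℝ)⌋₊ := Nat.le_floor (by exact_mod_cast h1)
    have h3 : 2 ^ Nat.log 2 ⌊M / (p : ℝ)⌋₊ ≤ ⌊M / (p : ℝ)⌋₊ :=
      Nat.pow_log_le_self 2 (by omega)
    have h4 : ⌊M / (p : ℝ)⌋₊ < 2 ^ (Nat.log 2 ⌊M / (p : ℝ)⌋₊ + 1) :=
      Nat.lt_pow_succ_log_self (by norm_num) _
    rw [hg]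
    refine ⟨Nat.log_pos (by norm_num) h2, ?_, ?_⟩
    · rw [← le_div_iff₀ hp0]
      have h5 : ((2 ^ Nat.log 2 ⌊M / (p : ℝ)⌋₊ : ℕ) : ℝ) ≤ (⌊M / (p : ℝ)⌋₊ : ℝ) := by
        exact_mod_cast h3
      push_cast at h5
      exact h5.trans (Nat.floor_le (by positivity))
    · rw [← div_lt_iff₀ hp0]
      have h5 : M / (p : ℝ) < (⌊M / (p : ℝ)⌋₊ : ℝ) + 1 := Nat.lt_floor_add_one _
      have h6 : ((⌊M / (p : ℝ)⌋₊ + 1 : ℕ) : ℝ) ≤
          ((2 ^ (Nat.log 2 ⌊M / (p : ℝ)⌋₊ + 1) : ℕ) : ℝ) := by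
        exact_mod_cast h4
      push_cast at h6
      exact lt_of_lt_of_le h5 h6
  have hg2 : ∀ p ∈ E, (2 : ℝ) ^ g p ≤ Real.sqrt k := by
    intro p hp
    have hpp := hE p hp
    have hp0 : (0 : ℝ) < p := by exact_mod_cast hpp.pos
    have h1 := (hgp p hp).2.1
    have h2 := (hE2 p hp).2
    exact le_of_mul_le_mul_right (h1.trans h2) hp0
  have hmaps : ∀ p ∈ E, g p ∈ Icc 1 J := by
    intro p hp
    rw [mem_Icc]
    refine ⟨(hgp p hp).1, ?_⟩
    rw [hJ]
    apply Nat.le_floor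
    have h1 := Real.log_le_log (by positivity) (hg2 p hp)
    rw [Real.log_pow, Real.log_sqrt hk0.le] at h1
    have h2 : (0 : ℝ) ≤ (g p : ℝ) := Nat.cast_nonneg _
    nlinarith
  rw [← sum_fiberwise_of_maps_to hmaps]
  have hcl : ∀ j ∈ Icc 1 J, ∑ p ∈ E.filter (fun p => g p = j),
      1 / (p : ℝ) * (1 / Real.log (M / p)) ≤ K / Real.log k * (1 / j) := by
    intro j hj
    rw [mem_Icc] at hj
    rcases (E.filter (fun p => g p = j)).eq_empty_or_nonempty with h0 | ⟨p0, hp0⟩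
    · rw [h0, sum_empty]
      positivity
    · have hjp : (2 : ℝ) ^ j ≤ Real.sqrt k := by
        obtain ⟨q1, q2⟩ := mem_filter.1 hp0
        rw [← q2]
        exact hg2 p0 q1
      rw [hK]
      refine w_class hw hk hM (fun p hp => hE p (mem_filter.1 hp).1) hj.1 hjp ?_
      intro p hp
      obtain ⟨q1, q2⟩ := mem_filter.1 hp
      have := (hgp p q1).2
      rw [q2] at this
      exact this
  refine (sum_le_sum hcl).trans ?_
  rw [← mul_sum]
  have hJlog : (J : ℝ) ≤ Real.log k := by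
    rw [hJ]
    exact Nat.floor_le hlk0.le
  have hJ1 : 1 ≤ J := by
    rw [hJ]
    apply Nat.le_floor
    push_cast
    linarith
  have hharm : ∑ j ∈ Icc 1 J, 1 / (j : ℝ) ≤ 1 + Real.log (Real.log k) := by
    have h1 : ∑ j ∈ Icc 1 J, 1 / (j : ℝ) = ((harmonic J : ℚ) : ℝ) := by
      rw [harmonic_eq_sum_Icc]
      push_cast
      refine sum_congr rfl fun j _ => ?_
      rw [one_div]
    rw [h1]
    refine (harmonic_le_one_add_log J).trans ?_
    have h2 : Real.log J ≤ Real.log (Real.log k) :=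
      Real.log_le_log (by exact_mod_cast hJ1) hJlog
    linarith
  have h3 : 1 + Real.log (Real.log k) ≤ 2 * Real.log (Real.log k) := by linarith
  calc K / Real.log k * ∑ j ∈ Icc 1 J, 1 / (j : ℝ)
      ≤ K / Real.log k * (2 * Real.log (Real.log k)) :=
        mul_le_mul_of_nonneg_left (hharm.trans h3) (by positivity)
    _ = 2 * K * Real.log (Real.log k) / Real.log k := by ring

end Pool.Agent.H1.Jac
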