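import Pool.Agent.H1.Jac.Main2
import Pool.Agent.H1.Jac3.VSmall
import Pool.Agent.H1.Jac3.Wsum
import Pool.Agent.H1.Jac3.AsymR

/-!
# The deterministic theorem: few medium primes
-/

set_option autoImplicit false

namespace Pool.Agent.H1.Jac

open Finset Filter

lemma log_floor_ge {t : ℝ} (ht : 4 ≤ t) : Real.log t / 2 ≤ Real.log (⌊t⌋₊ : ℝ) := by
  have h1 : t - 1 ≤ (⌊t⌋₊ : ℝ) := (Nat.sub_one_lt_floor t).le
  have h2 : Real.sqrt t ≤ ⌊t⌋₊ := by
    refine le_trans ?_ h1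
    rw [Real.sqrt_le_left (by linarith)]
    nlinarith
  have h3 : Real.log (Real.sqrt t) = Real.log t / 2 := Real.log_sqrt (by linarith)
  rw [← h3]
  exact Real.log_le_log (Real.sqrt_pos.2 (by linarith)) h2

/-- Deterministic bound for the number of survivors in a class modulo `p`. -/
theorem kill_det : ∃ C A' : ℝ, 0 < C ∧ 2 ≤ A' ∧ ∀ z : ℕ, 3 ≤ z → ∀ S : Finset ℕ,
    (∀ q ∈ S, q.Prime) → (∀ q ∈ S, q ≤ z) → ∀ m p a c : ℕ, 0 < p →
    (∀ q ∈ S, Nat.Coprime p q) →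
    ((surv S a (AP m p c)).card : ℝ) ≤ (A' + 1) + (if A' ≤ (m : ℝ) / p then
      C * ((m : ℝ) / p * V S * (1 + Real.log z * (1 / Real.log ((m : ℝ) / p)))) else 0) := by
  obtain ⟨CS, hCS, N, hN, hsieve⟩ := sieveU
  obtain ⟨C1, hC1, hVs⟩ := V_small
  have hNr : (1 : ℝ) ≤ N := by exact_mod_cast hN
  refine ⟨2 * CS * C1 * (2 * N), (4 : ℝ) ^ N, by positivity, ?_, ?_⟩
  · calc (2 : ℝ) ≤ 4 ^ 1 := by norm_num
      _ ≤ 4 ^ N := pow_le_pow_right₀ (by norm_num) hN
  intro z hz S hS hSz m p a c hp hcop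
  have hp0 : (0 : ℝ) < p := by exact_mod_cast hp
  have hH0 : 0 ≤ (m : ℝ) / p := by positivity
  have hV : 0 < V S := V_pos hS
  by_cases hH : (4 : ℝ) ^ N ≤ (m : ℝ) / p
  · rw [if_pos hH]
    obtain ⟨H, hHd⟩ : ∃ H, H = (m : ℝ) / p := ⟨_, rfl⟩
    rw [← hHd] at hH hH0 ⊢
    have hH4 : 4 ≤ H := by
      refine le_trans ?_ hH
      calc (4 : ℝ) = 4 ^ 1 := by norm_num
        _ ≤ 4 ^ N := pow_le_pow_right₀ (by norm_num) hN
    have hHpos : 0 < H := by linarith
    obtain ⟨t, ht⟩ : ∃ t, t = H ^ (1 / (N : ℝ)) := ⟨_, rfl⟩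
    have htN : t ^ N = H := by
      rw [ht, ← Real.rpow_natCast, ← Real.rpow_mul hH0]
      have : 1 / (N : ℝ) * N = 1 := by field_simp
      rw [this, Real.rpow_one]
    have ht0 : 0 ≤ t := by rw [ht]; exact Real.rpow_nonneg hH0 _
    have ht4 : 4 ≤ t := by
      by_contra hcon
      have : t ^ N < 4 ^ N := pow_lt_pow_left₀ (not_le.1 hcon) ht0 (by omega)
      rw [htN] at this
      linarith
    have hlt : Real.log t = Real.log H / N := by
      rw [ht, Real.log_rpow hHpos]; ring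
    obtain ⟨y0, hy0⟩ : ∃ y0, y0 = ⌊t⌋₊ := ⟨_, rfl⟩
    have hy0t : (y0 : ℝ) ≤ t := by rw [hy0]; exact Nat.floor_le ht0
    have hy04 : 4 ≤ y0 := by rw [hy0]; exact Nat.le_floor (by exact_mod_cast ht4)
    obtain ⟨y, hy⟩ : ∃ y, y = min y0 z := ⟨_, rfl⟩
    have hy2 : 2 ≤ y := by rw [hy]; omega
    have hyz : y ≤ z := by rw [hy]; exact min_le_right _ _
    have hyt : (y : ℝ) ≤ t := by
      refine le_trans ?_ hy0t
      exact_mod_cast (by rw [hy]; exact min_le_left _ _ : y ≤ y0)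
    have hyN : (y : ℝ) ^ N ≤ H := by
      rw [← htN]; exact pow_le_pow_left₀ (by positivity) hyt _
    have h1 := det_big (m := m) hsieve hS hy2 hp hcop a c
    have hHm : (m : ℝ) * (1 / (p : ℝ)) = H := by rw [hHd]; ring
    rw [hHm] at h1
    have h2 := hVs z y hz hy2 hyz S hS hSz
    have hVy0 : 0 ≤ V (S.filter (fun q => ¬ y < q)) :=
      (V_pos fun q hq => hS q (mem_filter.1 hq).1).le
    have hz1 : (1 : ℝ) < z := by exact_mod_cast (by omega : 1 < z)
    have hlz : 0 < Real.log z := Real.log_pos hz1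
    have hlH : 0 < Real.log H := Real.log_pos (by linarith)
    have hly : 0 < Real.log y := Real.log_pos (by exact_mod_cast (by omega : 1 < y))
    have h3 : Real.log z / Real.log y ≤ 2 * N * (1 + Real.log z * (1 / Real.log H)) := by
      rcases le_total y0 z with h | h
      · have hyy : y = y0 := by rw [hy]; exact min_eq_left h
        have h4 : Real.log H / (2 * N) ≤ Real.log y := by
          rw [hyy, hy0]
          have := log_floor_ge ht4
          rw [hlt] at this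
          refine le_trans (le_of_eq ?_) this
          field_simp
        have h5 : Real.log z / Real.log y ≤ Real.log z / (Real.log H / (2 * N)) :=
          div_le_div_of_nonneg_left hlz.le (by positivity) h4
        have h6 : Real.log z / (Real.log H / (2 * N)) = 2 * N * (Real.log z * (1 / Real.log H)) := by
          field_simp
        rw [h6] at h5
        refine h5.trans (mul_le_mul_of_nonneg_left (by linarith) (by positivity))
      · have hyy : y = z := by rw [hy]; exact min_eq_right h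
        rw [hyy, div_self hlz.ne']
        have h7 : 0 ≤ Real.log z * (1 / Real.log H) := by positivity
        nlinarith
    have h4 : V (S.filter (fun q => ¬ y < q)) ≤
        C1 * (2 * N * (1 + Real.log z * (1 / Real.log H))) * V S := by
      refine h2.trans (mul_le_mul_of_nonneg_right ?_ hV.le)
      exact mul_le_mul_of_nonneg_left h3 hC1.le
    have h5 : ((surv S a (AP m p c)).card : ℝ) ≤
        CS * (C1 * (2 * N * (1 + Real.log z * (1 / Real.log H))) * V S) * (H + H) := by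
      refine h1.trans ?_
      refine mul_le_mul (mul_le_mul_of_nonneg_left h4 hCS.le) (by linarith) (by positivity) ?_
      have : 0 ≤ Real.log z * (1 / Real.log H) := by positivity
      positivity
    have h6 : CS * (C1 * (2 * N * (1 + Real.log z * (1 / Real.log H))) * V S) * (H + H) =
        2 * CS * C1 * (2 * N) * (H * V S * (1 + Real.log z * (1 / Real.log H))) := by ring
    rw [h6] at h5
    have h7 : (0 : ℝ) ≤ 4 ^ N + 1 := by positivity
    linarith
  · rw [if_neg hH, add_zero]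
    have h1 : ((surv S a (AP m p c)).card : ℝ) ≤ (AP m p c).card := by
      exact_mod_cast card_le_card (filter_subset _ _)
    have h2 := cnt_ap m p c hp
    have h3 := not_le.1 hH
    linarith

/-- the last inequality of the deterministic theorem -/
lemma final_det {ε δ C0 Ck A k M v S S2 S3 lz : ℝ} (hε : 0 < ε) (hδ : δ = ε / 20)
    (hM : 0 < M) (hv : 0 < v)
    (hS : S ≤ 1 - ε) (hkM : C0 * k ≤ M * v) (hC0 : C0 = 16 * A / ε)
    (h2 : Ck * (S2 + lz * S3) ≤ ε / 8) :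
    (1 + δ) * (M * v) * S + A * k + Ck * (M * v) * (S2 + lz * S3) < (1 - δ) * (M * v) := by
  have hMv : 0 < M * v := by positivity
  have h3 : A * k ≤ ε / 16 * (M * v) := by
    have e1 : A * k = ε / 16 * (C0 * k) := by rw [hC0]; field_simp
    rw [e1]
    exact mul_le_mul_of_nonneg_left hkM (by positivity)
  have h4 : Ck * (M * v) * (S2 + lz * S3) ≤ ε / 8 * (M * v) := by
    have e1 : Ck * (M * v) * (S2 + lz * S3) = Ck * (S2 + lz * S3) * (M * v) := by ring
    rw [e1]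
    exact mul_le_mul_of_nonneg_right h2 hMv.le
  have h5 : (1 + δ) * (M * v) * S ≤ (1 + δ) * (M * v) * (1 - ε) := by
    refine mul_le_mul_of_nonneg_left hS ?_
    rw [hδ]; positivity
  have h6 : (1 + δ) * (M * v) * (1 - ε) + ε / 4 * (M * v) < (1 - δ) * (M * v) := by
    rw [hδ]
    have : 0 < ε * (M * v) := by positivity
    nlinarith [mul_pos hε this]
  have h7 : 0 < ε * (M * v) := by positivity
  linarith

theorem det_core (ε : ℝ) (hε : 0 < ε) (hε1 : ε ≤ 1) : ∃ C c1 : ℝ, 0 < C ∧ 0 < c1 ∧ ∃ k₀ : ℕ,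
    ∀ k ≥ k₀, ∀ z : ℕ, 3 ≤ z → (z : ℝ) ≤ Real.exp (c1 * Real.log k / Real.log (Real.log k)) →
    ∀ S E : Finset ℕ, (∀ q ∈ S, q.Prime) → (∀ p ∈ E, p.Prime) → Disjoint S E →
    (∀ q ∈ S, q ≤ z) → S.card ≤ k → E.card ≤ k → ∑ p ∈ E, 1 / (p : ℝ) ≤ 1 - ε →
    ∀ m : ℕ, C * k ≤ m * V S → ∀ x : ℤ, ∃ i : ℕ, i < m ∧ (∀ q ∈ S, ¬ (q : ℤ) ∣ x + i) ∧
      ∀ p ∈ E, ¬ (p : ℤ) ∣ x + i := by
  obtain ⟨C2, hC2, hsum⟩ := sum_le
  obtain ⟨c0, hc0, hV⟩ := V_ge
  obtain ⟨C6, hC6, hmid⟩ := mid_sum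
  obtain ⟨Ck, A', hCk, hA', hkill⟩ := kill_det
  obtain ⟨Cw, hCw, kw, hw⟩ := w_sum
  obtain ⟨δ, hδ⟩ : ∃ δ, δ = ε / 20 := ⟨_, rfl⟩
  have hδ0 : 0 < δ := by rw [hδ]; positivity
  obtain ⟨η, hη⟩ : ∃ η, η = min (1 / 2) (ε / (32 * Ck * C6)) := ⟨_, rfl⟩
  have hη0 : 0 < η := by rw [hη]; positivity
  have hη2 : η ≤ 1 / 2 := by rw [hη]; exact min_le_left _ _
  have hηs : Ck * C6 * η ≤ ε / 32 := by
    have h1 : η ≤ ε / (32 * Ck * C6) := by rw [hη]; exact min_le_right _ _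
    have h2 : Ck * C6 * (ε / (32 * Ck * C6)) = ε / 32 := by field_simp
    rw [← h2]
    exact mul_le_mul_of_nonneg_left h1 (by positivity)
  obtain ⟨c1, hc1, hev1⟩ := asymR (δ / 2) c0 C2 (η / 2) (by positivity) hc0 hC2 (by positivity)
  obtain ⟨c2, hc2⟩ : ∃ c2, c2 = min c1 (ε / (32 * Ck * Cw)) := ⟨_, rfl⟩
  have hc20 : 0 < c2 := by rw [hc2]; positivity
  have hc2s : Ck * Cw * c2 ≤ ε / 32 := by
    have h1 : c2 ≤ ε / (32 * Ck * Cw) := by rw [hc2]; exact min_le_right _ _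
    have h2 : Ck * Cw * (ε / (32 * Ck * Cw)) = ε / 32 := by field_simp
    rw [← h2]
    exact mul_le_mul_of_nonneg_left h1 (by positivity)
  obtain ⟨C0, hC0⟩ : ∃ C0, C0 = 16 * (A' + 1) / ε := ⟨_, rfl⟩
  have hC01 : 1 ≤ C0 := by
    rw [hC0, le_div_iff₀ hε]; linarith
  -- asymptotics
  have hlog : Tendsto (fun k : ℕ => Real.log k) atTop atTop :=
    Real.tendsto_log_atTop.comp tendsto_natCast_atTop_atTop
  have hllog : Tendsto (fun k : ℕ => Real.log (Real.log k)) atTop atTop :=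
    Real.tendsto_log_atTop.comp hlog
  have hlo : Tendsto (fun k : ℕ => (Real.log (Real.log k) + 1) / Real.log k) atTop (nhds 0) := by
    have h1 : Tendsto (fun x : ℝ => (Real.log x + 1) / x) atTop (nhds 0) := by
      have e1 : Tendsto (fun x : ℝ => Real.log x / x) atTop (nhds 0) := by
        have := Real.isLittleO_log_id_atTop.tendsto_div_nhds_zero
        simpa using this
      have e2 : Tendsto (fun x : ℝ => 1 / x) atTop (nhds 0) := by
        simpa using tendsto_inv_atTop_zero (𝕜 := ℝ)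
      have e3 := e1.add e2
      simp only [add_zero] at e3
      refine e3.congr fun x => ?_
      rw [add_div]
    exact h1.comp hlog
  have hpow : Tendsto (fun k : ℕ => (k : ℝ) ^ (η / 2) / Real.log k) atTop atTop := by
    have h1 : Tendsto (fun x : ℝ => x ^ (η / 2) / Real.log x) atTop atTop := by
      have e1 := (isLittleO_log_rpow_atTop (half_pos hη0)).tendsto_div_nhds_zero
      have e2 : ∀ᶠ x : ℝ in atTop, 0 < Real.log x / x ^ (η / 2) := by
        filter_upwards [eventually_gt_atTop 1] with x hx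
        have := Real.log_pos hx
        have := Real.rpow_pos_of_pos (by linarith : 0 < x) (η / 2)
        positivity
      have e3 := (tendsto_nhdsWithin_iff.2 ⟨e1, e2⟩).inv_tendsto_nhdsGT_zero
      refine e3.congr fun x => ?_
      simp [inv_div]
    exact h1.comp tendsto_natCast_atTop_atTop
  have hev := hev1.and ((hlo.eventually_lt_const (show 0 < ε / (32 * Ck * C6) by positivity)).and
    ((hpow.eventually_ge_atTop (2 / (δ * c0))).and ((hllog.eventually_ge_atTop 1).and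
    ((eventually_ge_atTop kw).and (eventually_ge_atTop 3)))))
  obtain ⟨k₀, hk₀⟩ := eventually_atTop.1 hev
  refine ⟨C0, c2, by linarith, hc20, k₀, ?_⟩
  intro k hk z hz3 hz S E hS hE hd hSz hSk hEk hSE m hm x
  obtain ⟨⟨r, a1, a2⟩, a3, a4, a5, a6, a7⟩ := hk₀ k hk
  clear hk₀ hev
  obtain ⟨ℓ, hℓ⟩ : ∃ ℓ, ℓ = Real.log k := ⟨_, rfl⟩
  rw [← hℓ] at a1 a2 a3 a4 a5 hz
  have hk3 : (3 : ℝ) ≤ k := by exact_mod_cast a7
  have hk0 : (0 : ℝ) < k := by linarith
  have hk1 : (1 : ℝ) ≤ k := by linarith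
  have hℓ1 : 1 ≤ ℓ := by
    rw [hℓ, Real.le_log_iff_exp_le (by linarith)]
    have := Real.exp_one_lt_d9
    linarith
  have hℓ0 : 0 < ℓ := by linarith
  have hlℓ : 0 < Real.log ℓ := by linarith
  have hv : 0 < V S := V_pos hS
  have hv1 : V S ≤ 1 := V_le_one hS
  have hvge : c0 / ℓ ≤ V S := by rw [hℓ]; exact hV k a7 S hS hSk
  have hc0ℓ : 0 < c0 / ℓ := by positivity
  have hkm : (k : ℝ) ≤ m := by
    have e1 : (k : ℝ) ≤ C0 * k := by nlinarith
    have e2 : (m : ℝ) * V S ≤ m := by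
      have : (0 : ℝ) ≤ m := Nat.cast_nonneg m
      nlinarith
    linarith
  have hM : (0 : ℝ) < m := by linarith
  -- `z` and the level
  have hlz : Real.log z ≤ c2 * ℓ / Real.log ℓ := by
    rw [Real.log_le_iff_le_exp (by exact_mod_cast (by omega : 0 < z))]
    exact hz
  have hz1 : (z : ℝ) ≤ Real.exp (c1 * ℓ / Real.log ℓ) := by
    refine hz.trans (Real.exp_le_exp.2 ?_)
    have : c2 ≤ c1 := by rw [hc2]; exact min_le_left _ _
    gcongr
  have hlev := a2 z hz1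
  obtain ⟨X, hX⟩ : ∃ X, X = (k : ℝ) ^ η := ⟨_, rfl⟩
  have hX1 : 1 ≤ X := by rw [hX]; exact Real.one_le_rpow hk1 hη0.le
  have hX0 : 0 < X := by linarith
  have hXs : X ≤ Real.sqrt k := by
    rw [hX, Real.sqrt_eq_rpow]
    exact Real.rpow_le_rpow_of_exponent_le hk1 hη2
  have hlX : Real.log X = η * ℓ := by rw [hX, Real.log_rpow hk0, hℓ]
  have hXh : ((z : ℝ) + 1) ^ (r + 1) ≤ δ / 2 * (c0 / ℓ) * X := by
    have e1 : ((z : ℝ) + 1) ^ (r + 1) ≤ ((z : ℝ) + 1) ^ (r + 2) :=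
      pow_le_pow_right₀ (by linarith [Nat.cast_nonneg (α := ℝ) z]) (by omega)
    have e2 : X = (k : ℝ) ^ (η / 2) * (k : ℝ) ^ (η / 2) := by
      rw [hX, ← Real.rpow_add hk0]; ring_nf
    rw [le_div_iff₀ hℓ0, div_mul_eq_mul_div, div_le_iff₀ (by positivity)] at a4
    have e3 : 0 < (k : ℝ) ^ (η / 2) := Real.rpow_pos_of_pos hk0 _
    have e4 : 1 ≤ δ / 2 * (c0 / ℓ) * (k : ℝ) ^ (η / 2) := by
      have e5 : δ / 2 * (c0 / ℓ) * (k : ℝ) ^ (η / 2) = (k : ℝ) ^ (η / 2) * (δ * c0) / (2 * ℓ) := by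
        field_simp
      rw [e5, le_div_iff₀ (by positivity)]
      linarith
    calc ((z : ℝ) + 1) ^ (r + 1) ≤ (k : ℝ) ^ (η / 2) := e1.trans hlev
      _ = 1 * (k : ℝ) ^ (η / 2) := (one_mul _).symm
      _ ≤ δ / 2 * (c0 / ℓ) * (k : ℝ) ^ (η / 2) * (k : ℝ) ^ (η / 2) :=
        mul_le_mul_of_nonneg_right e4 e3.le
      _ = δ / 2 * (c0 / ℓ) * X := by rw [e2]; ring
  have hS0 : ∑ q ∈ S, 1 / (q : ℝ) ≤ Real.log ℓ + C2 := by
    rw [hℓ]; exact hsum k a7 S hS hSk
  have hS0' : 0 ≤ ∑ q ∈ S, 1 / (q : ℝ) := sum_nonneg fun q _ => by positivity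
  -- accuracy of the sieve by small primes
  have hacc : ∀ p : ℕ, 0 < p → (∀ q ∈ S, Nat.Coprime p q) → p * X ≤ m → ∀ a c,
      |((surv S a (AP m p c)).card : ℝ) - (m : ℝ) / p * V S| ≤ δ * ((m : ℝ) / p * V S) := by
    intro p hp hpq hpL a c
    have hp0 : (0 : ℝ) < p := by exact_mod_cast hp
    have hXm : X ≤ (m : ℝ) / p := by
      rw [le_div_iff₀ hp0]
      linarith
    exact pure_acc hS hp hpq hSz hδ0 (a1 _ hS0' hS0) hXh hc0ℓ hvge hXm a c
  by_contra hcon
  push Not at hcon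
  have hQ0 : 0 < ∏ q ∈ S, q := prod_pos fun q hq => (hS q hq).pos
  have hQ0' : (0 : ℤ) < ((∏ q ∈ S, q : ℕ) : ℤ) := by exact_mod_cast hQ0
  obtain ⟨a, ha⟩ : ∃ a, a = (x % ((∏ q ∈ S, q : ℕ) : ℤ)).toNat := ⟨_, rfl⟩
  have hdet := det S E (fun p hp => (hE p hp).pos) x m a (by
      intro q hq
      rw [ha, Int.toNat_of_nonneg (Int.emod_nonneg x hQ0'.ne')]
      have h3 : ((∏ q ∈ S, q : ℕ) : ℤ) ∣ x - x % ((∏ q ∈ S, q : ℕ) : ℤ) :=
        Int.dvd_self_sub_emod
      refine dvd_trans ?_ h3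
      exact_mod_cast dvd_prod_of_mem (fun p : ℕ => p) hq) (by
      intro i hi
      by_cases h : ∃ q ∈ S, (q : ℤ) ∣ x + i
      · exact Or.inl h
      · right
        push Not at h
        exact hcon i hi h)
  have hdet' : ((surv S a (range m)).card : ℝ) ≤
      ∑ p ∈ E, ((surv S a (AP m p (x % p).toNat)).card : ℝ) := by exact_mod_cast hdet
  -- lower bound
  have hlow : (1 - δ) * (m * V S) ≤ ((surv S a (range m)).card : ℝ) := by
    have e1 := (abs_le.1 (hacc 1 one_pos (fun q _ => Nat.coprime_one_left q) (by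
      have := hXs.trans (Real.sqrt_le_iff.2 ⟨by linarith, by nlinarith⟩ : Real.sqrt k ≤ k)
      push_cast; linarith) a 0)).1
    rw [AP_one, Nat.cast_one, div_one] at e1
    linarith
  -- upper bounds
  have hcop : ∀ p ∈ E, ∀ q ∈ S, Nat.Coprime p q := by
    intro p hp q hq
    refine (Nat.coprime_primes (hE p hp) (hS q hq)).2 ?_
    rintro rfl
    exact disjoint_left.1 hd hq hp
  obtain ⟨E2, hE2⟩ : ∃ E2, E2 = E.filter (fun p : ℕ => ¬ (p : ℝ) * X ≤ m) := ⟨_, rfl⟩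
  have hE2s : E2 ⊆ E := by rw [hE2]; exact filter_subset _ _
  obtain ⟨E3, hE3⟩ : ∃ E3, E3 = E2.filter (fun p : ℕ => A' ≤ (m : ℝ) / p) := ⟨_, rfl⟩
  have hE3s : E3 ⊆ E2 := by rw [hE3]; exact filter_subset _ _
  have hup : ∑ p ∈ E, ((surv S a (AP m p (x % p).toNat)).card : ℝ) ≤
      (1 + δ) * (m * V S) * (∑ p ∈ E, 1 / (p : ℝ)) + (A' + 1) * k +
        Ck * (m * V S) * ((∑ p ∈ E2, 1 / (p : ℝ)) +
          Real.log z * ∑ p ∈ E3, 1 / (p : ℝ) * (1 / Real.log (m / p))) := by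
    have h1 : ∀ p ∈ E, ((surv S a (AP m p (x % p).toNat)).card : ℝ) ≤
        (1 + δ) * (m * V S) * (1 / (p : ℝ)) + ((A' + 1) + (if ¬ (p : ℝ) * X ≤ m then
          (if A' ≤ (m : ℝ) / p then Ck * (m * V S) * (1 / (p : ℝ) +
            Real.log z * (1 / (p : ℝ) * (1 / Real.log (m / p)))) else 0) else 0)) := by
      intro p hp
      have hp0 : (0 : ℝ) < p := by exact_mod_cast (hE p hp).pos
      by_cases hpX : (p : ℝ) * X ≤ m
      · rw [if_neg (not_not.2 hpX)]
        have e1 := (abs_le.1 (hacc p (hE p hp).pos (hcop p hp) hpX a (x % p).toNat)).2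
        have e2 : (m : ℝ) / p * V S = m * V S * (1 / (p : ℝ)) := by ring
        rw [e2] at e1
        linarith
      · rw [if_pos hpX]
        have e1 := hkill z hz3 S hS hSz m p a (x % p).toNat (hE p hp).pos (hcop p hp)
        have e3 : 0 ≤ (1 + δ) * (m * V S) * (1 / (p : ℝ)) := by positivity
        by_cases hA : A' ≤ (m : ℝ) / p
        · rw [if_pos hA] at e1 ⊢
          have e2 : Ck * ((m : ℝ) / p * V S * (1 + Real.log z * (1 / Real.log ((m : ℝ) / p)))) =
              Ck * (m * V S) * (1 / (p : ℝ) +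
            Real.log z * (1 / (p : ℝ) * (1 / Real.log (m / p)))) := by ring
          rw [e2] at e1
          linarith
        · rw [if_neg hA] at e1 ⊢
          linarith
    refine (sum_le_sum h1).trans ?_
    have e0 : ∑ _p ∈ E, (A' + 1) = (E.card : ℝ) * (A' + 1) := by
      rw [sum_const, nsmul_eq_mul]
    have e4 : ∑ p ∈ E3, Ck * (m * V S) * (1 / (p : ℝ) +
        Real.log z * (1 / (p : ℝ) * (1 / Real.log (m / p)))) = Ck * (m * V S) *
        ((∑ p ∈ E3, 1 / (p : ℝ)) + Real.log z * ∑ p ∈ E3, 1 / (p : ℝ) * (1 / Real.log (m / p))) := by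
      rw [← mul_sum, sum_add_distrib, ← mul_sum]
    rw [sum_add_distrib, sum_add_distrib, ← mul_sum, ← sum_filter, ← hE2, ← sum_filter, ← hE3,
      e0, e4]
    have e1 : (E.card : ℝ) * (A' + 1) ≤ (A' + 1) * k := by
      have : (E.card : ℝ) ≤ k := by exact_mod_cast hEk
      nlinarith
    have e2 : ∑ p ∈ E3, 1 / (p : ℝ) ≤ ∑ p ∈ E2, 1 / (p : ℝ) :=
      sum_le_sum_of_subset_of_nonneg hE3s fun _ _ _ => by positivity
    have e3 : Ck * (m * V S) * (∑ p ∈ E3, 1 / (p : ℝ)) ≤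
        Ck * (m * V S) * (∑ p ∈ E2, 1 / (p : ℝ)) := mul_le_mul_of_nonneg_left e2 (by positivity)
    rw [mul_add, mul_add]
    linarith
  -- the two sums
  have hS2 := hmid k a7 X hX1 hXs E2 (fun p hp => hE p (hE2s hp))
    ((card_le_card hE2s).trans hEk) (by
      intro p hp
      rw [hE2, mem_filter] at hp
      have h1 := not_le.1 hp.2
      rw [div_lt_iff₀ hX0]
      linarith)
  rw [← hℓ, hlX] at hS2
  have hS3 := hw k a6 (m : ℝ) hkm E3 (fun p hp => hE p (hE2s (hE3s hp))) (by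
      intro p hp
      rw [hE3, mem_filter, hE2, mem_filter] at hp
      have hp0 : (0 : ℝ) < p := by exact_mod_cast (hE p hp.1.1).pos
      obtain ⟨⟨h1, h2⟩, h3⟩ := hp
      rw [le_div_iff₀ hp0] at h3
      refine ⟨by nlinarith, ?_⟩
      have h4 := not_le.1 h2
      nlinarith)
  rw [← hℓ] at hS3
  have hfin : Ck * ((∑ p ∈ E2, 1 / (p : ℝ)) +
          Real.log z * ∑ p ∈ E3, 1 / (p : ℝ) * (1 / Real.log (m / p))) ≤ ε / 8 := by
    have e1 : Ck * (∑ p ∈ E2, 1 / (p : ℝ)) ≤ ε / 32 + ε / 32 := by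
      have f1 : Ck * (∑ p ∈ E2, 1 / (p : ℝ)) ≤ Ck * (C6 * (η * ℓ + Real.log ℓ + 1) / ℓ) :=
        mul_le_mul_of_nonneg_left hS2 hCk.le
      have f2 : Ck * (C6 * (η * ℓ + Real.log ℓ + 1) / ℓ) =
          Ck * C6 * η + Ck * C6 * ((Real.log ℓ + 1) / ℓ) := by
        field_simp
        ring
      have f3 : Ck * C6 * ((Real.log ℓ + 1) / ℓ) ≤ ε / 32 := by
        have f4 : Ck * C6 * (ε / (32 * Ck * C6)) = ε / 32 := by field_simp
        rw [← f4]
        exact mul_le_mul_of_nonneg_left a3.le (by positivity)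
      rw [f2] at f1
      linarith
    have e2 : Ck * (Real.log z * ∑ p ∈ E3, 1 / (p : ℝ) * (1 / Real.log (m / p))) ≤ ε / 32 := by
      have f1 : 0 ≤ Real.log z := Real.log_nonneg (by exact_mod_cast (by omega : 1 ≤ z))
      have f2 : Real.log z * ∑ p ∈ E3, 1 / (p : ℝ) * (1 / Real.log (m / p)) ≤
          (c2 * ℓ / Real.log ℓ) * (Cw * Real.log ℓ / ℓ) := by
        refine (mul_le_mul_of_nonneg_left hS3 f1).trans ?_
        exact mul_le_mul_of_nonneg_right hlz (by positivity)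
      have f3 : (c2 * ℓ / Real.log ℓ) * (Cw * Real.log ℓ / ℓ) = Cw * c2 := by field_simp
      rw [f3] at f2
      have f4 := mul_le_mul_of_nonneg_left f2 hCk.le
      linarith
    rw [mul_add]
    linarith
  have hlast := final_det (A := A' + 1) (k := k) hε hδ hM hv hSE hm hC0 hfin
  linarith

end Pool.Agent.H1.Jac
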