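import Pool.Agent.H1.Jac.Defs

/-!
# Covering an interval

Part of `MP_4e17b9_nt`. First, by induction on `S`: for every finite `R` there is `a` with
`|surv S a R| ≤ |R| * V S`. Step `insert q S`: some residue `r` modulo `q` has
`|R.filter (q ∣ r + ·)| ≥ |R| / q`; apply the induction hypothesis to
`R' = R.filter (¬ q ∣ r + ·)`, and glue `r` modulo `q` and `a'` modulo `∏ S`
(`Nat.chineseRemainder`). Apply this to `R = range m`. Then cover the at most `|E|` survivors one by
one with distinct primes of `E`: for a finite set `T` with `|T| ≤ |E|` and `N` coprime to all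
`p ∈ E` there is an integer `x ≡ a (mod N)` such that for all `i ∈ T` some `p ∈ E` divides `x + i`
(induction on `T`, with `N * p` and `E.erase p`).
-/

set_option autoImplicit false

namespace Pool.Agent.H1.Jac

open Finset

private lemma lw_card (R : Finset ℕ) (q : ℕ) (hq : 0 < q) :
    ∃ r : ℕ, (R.card : ℝ) ≤ q * ((R.filter (fun i => q ∣ r + i)).card : ℝ) := by
  by_contra hcon
  push Not at hcon
  have h1 : ∑ r ∈ range q, (R.filter (fun i => q ∣ r + i)).card = R.card := by
    have h2 : ∀ i ∈ R, ∑ r ∈ range q, (if q ∣ r + i then 1 else 0) = 1 := by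
      intro i _
      have h3 : (range q).filter (fun r => q ∣ r + i) = {((q - i % q) % q)} := by
        ext r
        rw [mem_filter, mem_range, mem_singleton]
        have him : i % q < q := Nat.mod_lt _ hq
        have hkey : q ∣ r + i ↔ q ∣ r + i % q := by
          rw [Nat.dvd_iff_mod_eq_zero, Nat.dvd_iff_mod_eq_zero, Nat.add_mod, Nat.add_mod r (i % q),
            Nat.mod_mod]
        rw [hkey]
        constructor
        · rintro ⟨hr, k, hk⟩
          rcases Nat.eq_zero_or_pos (i % q) with h0 | h0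
          · rw [h0, Nat.sub_zero, Nat.mod_self]
            rw [h0, add_zero] at hk
            rcases Nat.eq_zero_or_pos k with hk0 | hk0
            · rw [hk, hk0, mul_zero]
            · exfalso
              have := Nat.mul_le_mul_left q hk0
              omega
          · rw [Nat.mod_eq_of_lt (by omega)]
            have hk1 : k = 1 := by
              rcases Nat.lt_or_ge k 1 with hk0 | hk0
              · have : k = 0 := by omega
                rw [this, mul_zero] at hk
                omega
              · rcases Nat.lt_or_ge k 2 with hk2 | hk2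
                · omega
                · exfalso
                  have := Nat.mul_le_mul_left q hk2
                  omega
            rw [hk1, mul_one] at hk
            omega
        · intro hr
          rcases Nat.eq_zero_or_pos (i % q) with h0 | h0
          · rw [h0, Nat.sub_zero, Nat.mod_self] at hr
            rw [hr, h0]
            exact ⟨hq, dvd_zero _⟩
          · rw [Nat.mod_eq_of_lt (by omega)] at hr
            rw [hr]
            refine ⟨by omega, ?_⟩
            rw [Nat.sub_add_cancel him.le]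
      rw [← card_filter, h3, card_singleton]
    calc ∑ r ∈ range q, (R.filter (fun i => q ∣ r + i)).card =
        ∑ r ∈ range q, ∑ i ∈ R, (if q ∣ r + i then 1 else 0) :=
          sum_congr rfl fun r _ => by rw [card_filter]
      _ = ∑ i ∈ R, ∑ r ∈ range q, (if q ∣ r + i then 1 else 0) := sum_comm
      _ = ∑ i ∈ R, 1 := sum_congr rfl h2
      _ = R.card := by rw [sum_const, smul_eq_mul, mul_one]
  have h4 : ∑ r ∈ range q, (q * ((R.filter (fun i => q ∣ r + i)).card : ℝ)) <
      ∑ _r ∈ range q, (R.card : ℝ) := by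
    refine sum_lt_sum_of_nonempty ⟨0, mem_range.2 hq⟩ fun r _ => hcon r
  rw [← mul_sum, sum_const, card_range, nsmul_eq_mul] at h4
  have h5 : ∑ r ∈ range q, ((R.filter (fun i => q ∣ r + i)).card : ℝ) = R.card := by
    exact_mod_cast h1
  rw [h5] at h4
  exact lt_irrefl _ h4

private lemma lw_V0 (S : Finset ℕ) (hS : ∀ q ∈ S, q.Prime) : 0 ≤ V S := by
  unfold V
  refine prod_nonneg fun q hq => ?_
  have hq1 : (1 : ℝ) ≤ q := by exact_mod_cast (hS q hq).one_lt.le
  have : 1 / (q : ℝ) ≤ 1 := by
    rw [div_le_one (by linarith)]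
    exact hq1
  linarith

private lemma lw_surv (S : Finset ℕ) : (∀ q ∈ S, q.Prime) → ∀ R : Finset ℕ,
    ∃ a : ℕ, ((surv S a R).card : ℝ) ≤ R.card * V S := by
  induction S using Finset.induction_on with
  | empty =>
    intro _ R
    refine ⟨0, ?_⟩
    unfold surv V
    simp
  | insert q S hqS ih =>
    intro hS R
    have hq := hS q (mem_insert_self _ _)
    have hS' : ∀ q' ∈ S, q'.Prime := fun q' h => hS q' (mem_insert_of_mem h)
    obtain ⟨r, hr⟩ := lw_card R q hq.pos
    obtain ⟨a', ha'⟩ := ih hS' (R.filter (fun i => ¬ q ∣ r + i))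
    have hcop : Nat.Coprime q (∏ q' ∈ S, q') := by
      refine Nat.Coprime.prod_right fun q' hq' => ?_
      rw [Nat.coprime_primes hq (hS' q' hq')]
      rintro rfl
      exact hqS hq'
    obtain ⟨a, ha1, ha2⟩ := Nat.chineseRemainder hcop r a'
    refine ⟨a, ?_⟩
    have h1 : ∀ i, q ∣ a + i ↔ q ∣ r + i := fun i => (Nat.ModEq.add_right i ha1).dvd_iff dvd_rfl
    have h2 : ∀ q' ∈ S, ∀ i, q' ∣ a + i ↔ q' ∣ a' + i := fun q' hq' i =>
      (Nat.ModEq.add_right i ha2).dvd_iff (dvd_prod_of_mem _ hq')
    have h3 : surv (insert q S) a R ⊆ surv S a' (R.filter (fun i => ¬ q ∣ r + i)) := by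
      intro i hi
      unfold surv at hi ⊢
      rw [mem_filter] at hi
      rw [mem_filter, mem_filter]
      refine ⟨⟨hi.1, ?_⟩, ?_⟩
      · rw [← h1]
        exact hi.2 q (mem_insert_self _ _)
      · intro q' hq'
        rw [← h2 q' hq']
        exact hi.2 q' (mem_insert_of_mem hq')
    have h4 : ((surv (insert q S) a R).card : ℝ) ≤
        ((surv S a' (R.filter (fun i => ¬ q ∣ r + i))).card : ℝ) := by
      exact_mod_cast card_le_card h3
    have h5 : ((R.filter (fun i => ¬ q ∣ r + i)).card : ℝ) ≤ R.card * (1 - 1 / (q : ℝ)) := by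
      have h6 := card_filter_add_card_filter_not (s := R) (fun i => q ∣ r + i)
      have h7 : ((R.filter (fun i => q ∣ r + i)).card : ℝ) +
          ((R.filter (fun i => ¬ q ∣ r + i)).card : ℝ) = R.card := by exact_mod_cast h6
      have hq0 : (0 : ℝ) < q := by exact_mod_cast hq.pos
      have h8 : (R.card : ℝ) / q ≤ ((R.filter (fun i => q ∣ r + i)).card : ℝ) := by
        rw [div_le_iff₀ hq0]
        linarith
      have h9 : (R.card : ℝ) * (1 - 1 / (q : ℝ)) = R.card - R.card / q := by ring
      rw [h9]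
      linarith
    have h10 : V (insert q S) = (1 - 1 / (q : ℝ)) * V S := by
      unfold V
      rw [prod_insert hqS]
    calc ((surv (insert q S) a R).card : ℝ)
        ≤ ((R.filter (fun i => ¬ q ∣ r + i)).card : ℝ) * V S := h4.trans ha'
      _ ≤ R.card * (1 - 1 / (q : ℝ)) * V S := mul_le_mul_of_nonneg_right h5 (lw_V0 S hS')
      _ = R.card * V (insert q S) := by rw [h10]; ring

private lemma lw_cover (T : Finset ℕ) : ∀ (E : Finset ℕ) (N a : ℕ), (∀ p ∈ E, p.Prime) →
    (∀ p ∈ E, Nat.Coprime N p) → T.card ≤ E.card →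
    ∃ x : ℕ, x ≡ a [MOD N] ∧ ∀ i ∈ T, ∃ p ∈ E, p ∣ x + i := by
  induction T using Finset.induction_on with
  | empty =>
    intro E N a _ _ _
    exact ⟨a, Nat.ModEq.refl a, fun i hi => absurd hi (notMem_empty i)⟩
  | insert j T hj ih =>
    intro E N a hE hN hc
    rw [card_insert_of_notMem hj] at hc
    have hne : E.Nonempty := by
      rw [← card_pos]
      omega
    obtain ⟨p, hp⟩ := hne
    obtain ⟨a1, h1, h2⟩ := Nat.chineseRemainder (hN p hp) a ((p - 1) * j)
    have hpp := hE p hp
    obtain ⟨x, hx1, hx2⟩ := ih (E.erase p) (N * p) a1 (fun p' hp' => hE p' (mem_of_mem_erase hp'))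
      (fun p' hp' => by
        refine Nat.Coprime.mul_left (hN p' (mem_of_mem_erase hp')) ?_
        rw [Nat.coprime_primes hpp (hE p' (mem_of_mem_erase hp'))]
        exact (ne_of_mem_erase hp').symm)
      (by rw [card_erase_of_mem hp]; omega)
    refine ⟨x, (Nat.ModEq.of_mul_right p hx1).trans h1, ?_⟩
    intro i hi
    rcases mem_insert.1 hi with rfl | hi
    · refine ⟨p, hp, ?_⟩
      have h3 : x ≡ (p - 1) * i [MOD p] := (Nat.ModEq.of_mul_left N hx1).trans h2
      rw [(Nat.ModEq.add_right i h3).dvd_iff dvd_rfl]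
      refine ⟨i, ?_⟩
      have := hpp.pos
      obtain ⟨t, rfl⟩ : ∃ t, p = t + 1 := ⟨p - 1, by omega⟩
      simp only [Nat.add_sub_cancel]
      ring
    · obtain ⟨p', hp', h⟩ := hx2 i hi
      exact ⟨p', mem_of_mem_erase hp', h⟩

theorem low_block (S E : Finset ℕ) (hS : ∀ q ∈ S, q.Prime) (hE : ∀ p ∈ E, p.Prime)
    (hd : Disjoint S E) (m : ℕ) (h : (m : ℝ) * V S ≤ E.card) :
    ∃ x : ℤ, ∀ i : ℕ, i < m → (∃ q ∈ S, (q : ℤ) ∣ x + i) ∨ ∃ p ∈ E, (p : ℤ) ∣ x + i := by
  obtain ⟨a, ha⟩ := lw_surv S hS (range m)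
  rw [card_range] at ha
  have hc : (surv S a (range m)).card ≤ E.card := by
    exact_mod_cast ha.trans h
  obtain ⟨x, hx1, hx2⟩ := lw_cover (surv S a (range m)) E (∏ q ∈ S, q) a hE (by
    intro p hp
    refine Nat.Coprime.prod_left fun q hq => ?_
    rw [Nat.coprime_primes (hS q hq) (hE p hp)]
    rintro rfl
    exact (disjoint_left.1 hd hq) hp) hc
  refine ⟨(x : ℤ), fun i hi => ?_⟩
  by_cases hT : i ∈ surv S a (range m)
  · right
    obtain ⟨p, hp, hpx⟩ := hx2 i hT
    exact ⟨p, hp, by exact_mod_cast hpx⟩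
  · left
    unfold surv at hT
    rw [mem_filter] at hT
    push Not at hT
    obtain ⟨q, hq, hqa⟩ := hT (mem_range.2 hi)
    refine ⟨q, hq, ?_⟩
    have h1 : q ∣ x + i := by
      rw [(Nat.ModEq.add_right i hx1).dvd_iff (dvd_prod_of_mem _ hq)]
      exact hqa
    exact_mod_cast h1

end Pool.Agent.H1.Jac
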