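import Pool.Agent.H1.Jac3.DetA
import Pool.Agent.H1.Jac3.LowA
import Pool.Agent.H1.Jac.MertB
import Pool.Agent.H24.UM.Fixed

/-!
# The order of magnitude of Jacobsthal's function for integers with few medium prime factors
-/

set_option autoImplicit false

namespace Pool.Agent.H1.Jac

open Finset Filter

/-- Jacobsthal's function of `n`: the least `m` such that every `m` consecutive integers contain
an integer coprime to `n`. -/
noncomputable def jacobsthal (n : ℕ) : ℕ :=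
  sInf {m : ℕ | ∀ x : ℤ, ∃ i : ℕ, i < m ∧ IsCoprime (x + i) (n : ℤ)}

lemma coprime_iff {n : ℕ} (hn : n ≠ 0) (y : ℤ) :
    IsCoprime y (n : ℤ) ↔ ∀ p ∈ n.primeFactors, ¬ (p : ℤ) ∣ y := by
  rw [Int.isCoprime_iff_gcd_eq_one]
  constructor
  · intro h p hp hpy
    have hpp := Nat.prime_of_mem_primeFactors hp
    have h1 : (p : ℤ) ∣ (n : ℤ) := by exact_mod_cast Nat.dvd_of_mem_primeFactors hp
    have h2 : p ∣ Int.gcd y n := by
      have := Int.dvd_coe_gcd hpy h1
      exact_mod_cast this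
    rw [h] at h2
    exact hpp.one_lt.ne' (Nat.dvd_one.1 h2)
  · intro h
    by_contra h3
    obtain ⟨p, hp, hpd⟩ := Nat.exists_prime_and_dvd h3
    have h4 : (p : ℤ) ∣ y := dvd_trans (by exact_mod_cast hpd) (Int.gcd_dvd_left (a := y) (b := (n : ℤ)))
    have h5 : p ∣ n := by
      have : (p : ℤ) ∣ (n : ℤ) := dvd_trans (by exact_mod_cast hpd)
        (Int.gcd_dvd_right (a := y) (b := (n : ℤ)))
      exact_mod_cast this
    exact h p (Nat.mem_primeFactors.2 ⟨hp, h5, hn⟩) h4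

lemma jac_le {n m : ℕ} (h : ∀ x : ℤ, ∃ i : ℕ, i < m ∧ IsCoprime (x + i) (n : ℤ)) :
    jacobsthal n ≤ m := Nat.sInf_le h

lemma lt_jac {n m m' : ℕ} (h' : ∀ x : ℤ, ∃ i : ℕ, i < m' ∧ IsCoprime (x + i) (n : ℤ))
    (x : ℤ) (hx : ∀ i : ℕ, i < m → ¬ IsCoprime (x + i) (n : ℤ)) : m < jacobsthal n := by
  have h1 : jacobsthal n ∈ {m : ℕ | ∀ x : ℤ, ∃ i : ℕ, i < m ∧ IsCoprime (x + i) (n : ℤ)} :=
    Nat.sInf_mem ⟨m', h'⟩
  obtain ⟨i, hi, hc⟩ := h1 x
  by_contra hcon
  exact hx i (by omega) hc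

lemma totient_V {n : ℕ} (hn : n ≠ 0) : (n : ℝ) / (Nat.totient n : ℝ) = (V n.primeFactors)⁻¹ := by
  have h1 := Nat.totient_eq_mul_prod_factors n
  have h2 : (Nat.totient n : ℝ) = n * V n.primeFactors := by
    have h3 : ((Nat.totient n : ℚ) : ℝ) = ((n * ∏ p ∈ n.primeFactors, (1 - (p : ℚ)⁻¹) : ℚ) : ℝ) := by
      rw [h1]
    push_cast at h3
    rw [h3]
    unfold V
    simp only [one_div]
  rw [h2]
  have h3 : (n : ℝ) ≠ 0 := by exact_mod_cast hn
  rw [div_mul_eq_div_div, div_self h3, one_div]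

lemma one_sub_ge {t : ℝ} (h0 : 0 ≤ t) (h1 : t ≤ 1 / 2) : Real.exp (-(2 * t)) ≤ 1 - t := by
  have h2 : 0 < 1 - t := by linarith
  have h3 := Real.one_sub_inv_le_log_of_pos h2
  rw [← Real.le_log_iff_exp_le h2]
  refine le_trans ?_ h3
  have h4 : (1 - t)⁻¹ ≤ 1 + 2 * t := by
    rw [inv_le_iff_one_le_mul₀ h2]
    nlinarith
  linarith

lemma V_ge_exp {E : Finset ℕ} (hE : ∀ p ∈ E, p.Prime) {s : ℝ} (hs : ∑ p ∈ E, 1 / (p : ℝ) ≤ s) :
    Real.exp (-(2 * s)) ≤ V E := by
  have h1 : Real.exp (∑ q ∈ E, -(2 * (1 / (q : ℝ)))) ≤ V E := by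
    rw [Real.exp_sum]
    unfold V
    refine prod_le_prod (fun _ _ => (Real.exp_pos _).le) fun q hq => ?_
    have hq2 : (2 : ℝ) ≤ q := by exact_mod_cast (hE q hq).two_le
    exact one_sub_ge (by positivity) (one_div_le_one_div_of_le (by norm_num) hq2)
  refine le_trans (Real.exp_le_exp.2 ?_) h1
  rw [sum_neg_distrib, ← mul_sum]
  linarith

lemma V_union {A B : Finset ℕ} (h : Disjoint A B) : V (A ∪ B) = V A * V B := prod_union h

/-- `log log k ≥ 1` and the level is between `3` and `√k` for large `k` -/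
lemma level_ev (c : ℝ) (hc : 0 < c) : ∀ᶠ k : ℕ in atTop,
    3 ≤ ⌊Real.exp (c * Real.log k / Real.log (Real.log k))⌋₊ ∧
    (⌊Real.exp (c * Real.log k / Real.log (Real.log k))⌋₊ : ℝ) ≤ k / 4 ∧
    1 ≤ Real.log (Real.log k) ∧
    c / 2 * Real.log k / Real.log (Real.log k) ≤
      Real.log (⌊Real.exp (c * Real.log k / Real.log (Real.log k))⌋₊ : ℝ) := by
  have hlog : Tendsto (fun k : ℕ => Real.log k) atTop atTop :=
    Real.tendsto_log_atTop.comp tendsto_natCast_atTop_atTop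
  have hllog : Tendsto (fun k : ℕ => Real.log (Real.log k)) atTop atTop :=
    Real.tendsto_log_atTop.comp hlog
  have h1 : Tendsto (fun k : ℕ => Real.log k / Real.log (Real.log k)) atTop atTop := by
    have h1 : Tendsto (fun x : ℝ => x / Real.log x) atTop atTop := by
      have e1 : Tendsto (fun x : ℝ => Real.log x / x) atTop (nhds 0) := by
        have := Real.isLittleO_log_id_atTop.tendsto_div_nhds_zero
        simpa using this
      have e2 : ∀ᶠ x : ℝ in atTop, 0 < Real.log x / x := by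
        filter_upwards [eventually_gt_atTop 1] with x hx
        have := Real.log_pos hx
        have : 0 < x := by linarith
        positivity
      have e3 := (tendsto_nhdsWithin_iff.2 ⟨e1, e2⟩).inv_tendsto_nhdsGT_zero
      refine e3.congr fun x => ?_
      simp [inv_div]
    exact h1.comp hlog
  filter_upwards [h1.eventually_ge_atTop (4 / c), hllog.eventually_ge_atTop (2 * c + 1),
    hllog.eventually_ge_atTop 1, hlog.eventually_ge_atTop 4, eventually_ge_atTop 3]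
    with k h2 h3 h4 h5 h6
  have hk3 : (3 : ℝ) ≤ k := by exact_mod_cast h6
  obtain ⟨t, ht⟩ : ∃ t, t = c * Real.log k / Real.log (Real.log k) := ⟨_, rfl⟩
  rw [← ht]
  have ht4 : 4 ≤ t := by
    rw [ht]
    rw [div_le_iff₀ hc] at h2
    calc (4 : ℝ) ≤ Real.log k / Real.log (Real.log k) * c := h2
      _ = _ := by ring
  have hte : 4 ≤ Real.exp t := by
    have := Real.add_one_le_exp t
    linarith
  refine ⟨?_, ?_, h4, ?_⟩
  · exact Nat.le_floor (by push_cast; linarith)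
  · refine (Nat.floor_le (Real.exp_pos _).le).trans ?_
    have h7 : t ≤ Real.log k / 2 := by
      rw [ht, div_le_iff₀ (by linarith)]
      nlinarith
    have h8 : Real.exp t ≤ Real.exp (Real.log k - Real.log 4) := by
      apply Real.exp_le_exp.2
      have h9 : Real.log 4 ≤ 2 := by
        have h10 : Real.log 4 = 2 * Real.log 2 := by
          rw [show (4 : ℝ) = 2 ^ 2 by norm_num, Real.log_pow]; norm_num
        have := Real.log_two_lt_d9
        rw [h10]; linarith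
      linarith
    rw [Real.exp_sub, Real.exp_log (by linarith), Real.exp_log (by norm_num)] at h8
    exact h8
  · have h7 := log_floor_ge hte
    rw [Real.log_exp] at h7
    refine le_trans (le_of_eq ?_) h7
    rw [ht]; ring

/-- every integer with few medium prime factors: the upper bound -/
theorem upper_A (ε : ℝ) (hε : 0 < ε) : ∃ C c : ℝ, 0 < C ∧ 0 < c ∧ ∃ k₀ : ℕ, ∀ k ≥ k₀,
    ∀ n : ℕ, n ≠ 0 → n.primeFactors.card ≤ k →
    ∑ p ∈ n.primeFactors.filter (fun p : ℕ => Real.exp (c * Real.log k / Real.log (Real.log k)) < p),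
      1 / (p : ℝ) ≤ 1 - ε →
    ∀ m : ℕ, C * k * (V (n.primeFactors.filter
      (fun p : ℕ => ¬ Real.exp (c * Real.log k / Real.log (Real.log k)) < p)))⁻¹ ≤ m →
    ∀ x : ℤ, ∃ i : ℕ, i < m ∧ IsCoprime (x + i) (n : ℤ) := by
  obtain ⟨C, c, hC, hc, k₀, hcore⟩ := det_core (min ε 1) (lt_min hε one_pos) (min_le_right _ _)
  obtain ⟨k₁, hk₁⟩ := eventually_atTop.1 (level_ev c hc)
  refine ⟨C, c, hC, hc, max k₀ k₁, ?_⟩
  intro k hk n hn hnk hsum m hm x
  obtain ⟨h3, -, -, -⟩ := hk₁ k (le_trans (le_max_right _ _) hk)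
  have hpr : ∀ p ∈ n.primeFactors, p.Prime := fun p hp => Nat.prime_of_mem_primeFactors hp
  obtain ⟨S, hS⟩ : ∃ S, S = n.primeFactors.filter
    (fun p : ℕ => ¬ Real.exp (c * Real.log k / Real.log (Real.log k)) < p) := ⟨_, rfl⟩
  obtain ⟨E, hE⟩ : ∃ E, E = n.primeFactors.filter
    (fun p : ℕ => Real.exp (c * Real.log k / Real.log (Real.log k)) < p) := ⟨_, rfl⟩
  rw [← hS] at hm
  rw [← hE] at hsum
  have hSs : S ⊆ n.primeFactors := by rw [hS]; exact filter_subset _ _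
  have hEs : E ⊆ n.primeFactors := by rw [hE]; exact filter_subset _ _
  have hV : 0 < V S := V_pos fun q hq => hpr q (hSs hq)
  obtain ⟨i, hi, h1, h2⟩ := hcore k (le_trans (le_max_left _ _) hk) _ h3
    (Nat.floor_le (Real.exp_pos _).le) S E (fun q hq => hpr q (hSs hq))
    (fun q hq => hpr q (hEs hq)) (by
      rw [hS, hE, disjoint_comm]; exact disjoint_filter_filter_not _ _ _) (by
      intro q hq
      rw [hS, mem_filter] at hq
      exact Nat.le_floor (not_lt.1 hq.2))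
    ((card_le_card hSs).trans hnk) ((card_le_card hEs).trans hnk)
    (hsum.trans (by linarith [min_le_left ε 1])) m (by
      rw [← div_eq_mul_inv, div_le_iff₀ hV] at hm
      exact hm) x
  refine ⟨i, hi, ?_⟩
  rw [coprime_iff hn]
  intro p hp
  by_cases h : Real.exp (c * Real.log k / Real.log (Real.log k)) < p
  · exact h2 p (by rw [hE]; exact mem_filter.2 ⟨hp, h⟩)
  · exact h1 p (by rw [hS]; exact mem_filter.2 ⟨hp, h⟩)

/-- the lower bound -/
lemma lower_A {n m' : ℕ} (hn : n ≠ 0)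
    (h' : ∀ x : ℤ, ∃ i : ℕ, i < m' ∧ IsCoprime (x + i) (n : ℤ)) {S E : Finset ℕ}
    (hS : S ⊆ n.primeFactors) (hE : E ⊆ n.primeFactors) (hd : Disjoint S E) :
    (E.card : ℝ) * (V S)⁻¹ ≤ jacobsthal n := by
  have hpr : ∀ p ∈ n.primeFactors, p.Prime := fun p hp => Nat.prime_of_mem_primeFactors hp
  have hV : 0 < V S := V_pos fun q hq => hpr q (hS hq)
  obtain ⟨m, hm⟩ : ∃ m, m = ⌊(E.card : ℝ) * (V S)⁻¹⌋₊ := ⟨_, rfl⟩
  have hm1 : (m : ℝ) ≤ (E.card : ℝ) * (V S)⁻¹ := by rw [hm]; exact Nat.floor_le (by positivity)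
  have hm2 : (E.card : ℝ) * (V S)⁻¹ < m + 1 := by rw [hm]; exact Nat.lt_floor_add_one _
  obtain ⟨x, hx⟩ := low_block S E (fun q hq => hpr q (hS hq)) (fun q hq => hpr q (hE hq)) hd m (by
    rw [← div_eq_mul_inv, le_div_iff₀ hV] at hm1
    exact hm1)
  have h1 : m < jacobsthal n := lt_jac h' x (by
    intro i hi hc
    rw [coprime_iff hn] at hc
    rcases hx i hi with ⟨q, hq, hd⟩ | ⟨q, hq, hd⟩
    · exact hc q (hS hq) hd
    · exact hc q (hE hq) hd)
  have h2 : (m : ℝ) + 1 ≤ jacobsthal n := by exact_mod_cast h1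
  linarith

/-- The order of magnitude of `g(n)` for integers with few medium prime factors. -/
theorem order_A (ε : ℝ) (hε : 0 < ε) : ∃ C₁ C₂ c : ℝ, 0 < C₁ ∧ 0 < C₂ ∧ 0 < c ∧ ∃ k₀ : ℕ,
    ∀ n : ℕ, n ≠ 0 → k₀ ≤ n.primeFactors.card →
    ∑ p ∈ n.primeFactors.filter (fun p : ℕ => Real.exp (c * Real.log n.primeFactors.card /
      Real.log (Real.log n.primeFactors.card)) < p), 1 / (p : ℝ) ≤ 1 - ε →
    C₁ * (n.primeFactors.card * ((n : ℝ) / Nat.totient n)) ≤ jacobsthal n ∧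
      (jacobsthal n : ℝ) ≤ C₂ * (n.primeFactors.card * ((n : ℝ) / Nat.totient n)) := by
  obtain ⟨C, c, hC, hc, k₀, hup⟩ := upper_A ε hε
  obtain ⟨k₁, hk₁⟩ := eventually_atTop.1 ((level_ev c hc).and (eventually_ge_atTop 3))
  refine ⟨Real.exp (-2) / 2, C + 1, c, by positivity, by linarith, hc, max k₀ k₁, ?_⟩
  intro n hn hk hsum
  obtain ⟨k, hkd⟩ : ∃ k, k = n.primeFactors.card := ⟨_, rfl⟩
  rw [← hkd] at hk hsum ⊢
  obtain ⟨⟨h3, h4, -, -⟩, h5⟩ := hk₁ k (le_trans (le_max_right _ _) hk)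
  have hk3 : (3 : ℝ) ≤ k := by exact_mod_cast h5
  have hpr : ∀ p ∈ n.primeFactors, p.Prime := fun p hp => Nat.prime_of_mem_primeFactors hp
  obtain ⟨S, hS⟩ : ∃ S, S = n.primeFactors.filter
    (fun p : ℕ => ¬ Real.exp (c * Real.log k / Real.log (Real.log k)) < p) := ⟨_, rfl⟩
  obtain ⟨E, hE⟩ : ∃ E, E = n.primeFactors.filter
    (fun p : ℕ => Real.exp (c * Real.log k / Real.log (Real.log k)) < p) := ⟨_, rfl⟩
  have hup' := hup k (le_trans (le_max_left _ _) hk) n hn hkd.ge hsum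
  rw [← hS] at hup'
  rw [← hE] at hsum
  have hSs : S ⊆ n.primeFactors := by rw [hS]; exact filter_subset _ _
  have hEs : E ⊆ n.primeFactors := by rw [hE]; exact filter_subset _ _
  have hSE : S ∪ E = n.primeFactors := by
    rw [hS, hE, union_comm, filter_union_filter_not_eq]
  have hd : Disjoint S E := by
    rw [hS, hE, disjoint_comm]; exact disjoint_filter_filter_not _ _ _
  have hVS : 0 < V S := V_pos fun q hq => hpr q (hSs hq)
  have hVS1 : V S ≤ 1 := V_le_one fun q hq => hpr q (hSs hq)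
  have hVE : Real.exp (-2) ≤ V E := by
    have h1 := V_ge_exp (fun q hq => hpr q (hEs hq)) (s := 1) (hsum.trans (by linarith))
    rwa [mul_one] at h1
  have hVE1 : V E ≤ 1 := V_le_one fun q hq => hpr q (hEs hq)
  have hVE0 : 0 < V E := V_pos fun q hq => hpr q (hEs hq)
  have hVn : V n.primeFactors = V S * V E := by rw [← hSE, V_union hd]
  rw [totient_V hn, hVn]
  obtain ⟨m, hm⟩ : ∃ m, m = ⌈C * k * (V S)⁻¹⌉₊ := ⟨_, rfl⟩
  have hpos : 0 ≤ C * k * (V S)⁻¹ := by positivity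
  have hm' := hup' m (by rw [hm]; exact Nat.le_ceil _)
  constructor
  · have h1 := lower_A hn hm' hSs hEs hd
    refine le_trans ?_ h1
    have h2 : (k : ℝ) / 2 ≤ E.card := by
      have e1 : S.card + E.card = k := by rw [← card_union_of_disjoint hd, hSE, hkd]
      have e2 : S.card ≤ ⌊Real.exp (c * Real.log k / Real.log (Real.log k))⌋₊ := by
        have e3 : S ⊆ Ioc 0 ⌊Real.exp (c * Real.log k / Real.log (Real.log k))⌋₊ := by
          intro q hq
          have hq' := hq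
          rw [hS, mem_filter] at hq'
          exact mem_Ioc.2 ⟨(hpr q (hSs hq)).pos, Nat.le_floor (not_lt.1 hq'.2)⟩
        have e4 := card_le_card e3
        rwa [Nat.card_Ioc, Nat.sub_zero] at e4
      have e3 : (S.card : ℝ) ≤ k / 4 := le_trans (by exact_mod_cast e2) h4
      have e4 : (S.card : ℝ) + E.card = k := by exact_mod_cast e1
      linarith
    have h3 : (V S * V E)⁻¹ = (V S)⁻¹ * (V E)⁻¹ := mul_inv _ _
    rw [h3]
    have h4 : Real.exp (-2) * (V E)⁻¹ ≤ 1 := by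
      rw [← div_eq_mul_inv, div_le_one hVE0]; exact hVE
    have h5 : 0 < (V S)⁻¹ := inv_pos.2 hVS
    calc Real.exp (-2) / 2 * (k * ((V S)⁻¹ * (V E)⁻¹)) =
          (k / 2 * (V S)⁻¹) * (Real.exp (-2) * (V E)⁻¹) := by ring
      _ ≤ (k / 2 * (V S)⁻¹) * 1 := mul_le_mul_of_nonneg_left h4 (by positivity)
      _ ≤ E.card * (V S)⁻¹ := by
        rw [mul_one]; exact mul_le_mul_of_nonneg_right h2 h5.le
  · have h1 : jacobsthal n ≤ m := jac_le hm'
    have h2 : (m : ℝ) ≤ C * k * (V S)⁻¹ + 1 := by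
      rw [hm]; exact (Nat.ceil_lt_add_one hpos).le
    have h3 : (jacobsthal n : ℝ) ≤ m := by exact_mod_cast h1
    have h4 : (V S)⁻¹ ≤ (V S * V E)⁻¹ := by
      apply inv_anti₀ (by positivity)
      nlinarith
    have h5 : 1 ≤ (V S)⁻¹ := (one_le_inv₀ hVS).2 hVS1
    have h6 : (1 : ℝ) ≤ k * (V S)⁻¹ := by nlinarith
    have h7 : (k : ℝ) * (V S)⁻¹ ≤ k * (V S * V E)⁻¹ := mul_le_mul_of_nonneg_left h4 (by linarith)
    nlinarith

end Pool.Agent.H1.Jac
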