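import Pool.Agent.H1.Jac3.FinA

/-!
# The maximum of Jacobsthal's function over integers without medium prime factors
-/

set_option autoImplicit false

namespace Pool.Agent.H1.Jac

open Finset Filter

lemma exists_bound {n : ℕ} (hn : n ≠ 0) (x : ℤ) :
    ∃ i : ℕ, i < n ∧ IsCoprime (x + i) (n : ℤ) := by
  have hn0 : (0 : ℤ) < n := by exact_mod_cast Nat.pos_of_ne_zero hn
  have h1 := Int.emod_nonneg (1 - x) hn0.ne'
  have h2 := Int.emod_lt_of_pos (1 - x) hn0
  refine ⟨((1 - x) % n).toNat, by omega, ?_⟩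
  rw [Int.toNat_of_nonneg h1]
  have h3 : (n : ℤ) ∣ (1 - x) - (1 - x) % n := Int.dvd_self_sub_emod
  obtain ⟨t, ht⟩ := h3
  refine ⟨1, t, ?_⟩
  linarith

lemma V_le_exp {S : Finset ℕ} (hS : ∀ q ∈ S, q.Prime) :
    V S ≤ Real.exp (-∑ q ∈ S, 1 / (q : ℝ)) := by
  rw [← sum_neg_distrib, Real.exp_sum]
  unfold V
  refine prod_le_prod (fun q hq => ?_) (fun q _ => ?_)
  · have h2 : (2 : ℝ) ≤ q := by exact_mod_cast (hS q hq).two_le
    have : 1 / (q : ℝ) ≤ 1 / 2 := by
      apply one_div_le_one_div_of_le <;> linarith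
    linarith
  · have := Real.add_one_le_exp (-(1 / (q : ℝ)))
    linarith

theorem max_A (θ : ℝ) (hθ : Real.exp (-1) < θ) : ∃ C₁ C₂ c : ℝ, 0 < C₁ ∧ 0 < C₂ ∧ 0 < c ∧
    ∃ k₀ : ℕ, ∀ k ≥ k₀,
    (∀ n : ℕ, n ≠ 0 → n.primeFactors.card ≤ k →
      (∀ p ∈ n.primeFactors, (p : ℝ) ≤ Real.exp (c * Real.log k / Real.log (Real.log k)) ∨
        (k : ℝ) ^ θ < p) →
      (jacobsthal n : ℝ) ≤ C₂ * (k * Real.log k / Real.log (Real.log k))) ∧
    ∃ n : ℕ, n ≠ 0 ∧ n.primeFactors.card ≤ k ∧
      (∀ p ∈ n.primeFactors, (p : ℝ) ≤ Real.exp (c * Real.log k / Real.log (Real.log k)) ∨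
        (k : ℝ) ^ θ < p) ∧
      C₁ * (k * Real.log k / Real.log (Real.log k)) ≤ jacobsthal n := by
  have hθ0 : 0 < θ := (Real.exp_pos _).trans hθ
  obtain ⟨θ', hθ'⟩ : ∃ θ', θ' = min θ (9 / 10) := ⟨_, rfl⟩
  have hθ'0 : 0 < θ' := by rw [hθ']; exact lt_min hθ0 (by norm_num)
  have hθ'1 : θ' < 1 := by rw [hθ']; exact lt_of_le_of_lt (min_le_right _ _) (by norm_num)
  have hθ'e : Real.exp (-1) < θ' := by
    rw [hθ']
    refine lt_min hθ ?_
    rw [Real.exp_neg]
    have h1 := Real.exp_one_gt_d9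
    have h2 : (Real.exp 1)⁻¹ ≤ (2 : ℝ)⁻¹ := inv_anti₀ (by norm_num) (by linarith)
    linarith
  have hlogθ : Real.log (1 / θ') < 1 := by
    rw [one_div, Real.log_inv, neg_lt, ← Real.exp_lt_exp, Real.exp_log hθ'0]
    exact hθ'e
  obtain ⟨η, hη⟩ : ∃ η, η = (1 - Real.log (1 / θ')) / 2 := ⟨_, rfl⟩
  have hη0 : 0 < η := by rw [hη]; linarith
  obtain ⟨C, c, hC, hc, k₀, hup⟩ := upper_A η hη0
  obtain ⟨k₂, hk₂⟩ := large_sum θ' η hθ'0 hθ'1 hη0
  obtain ⟨c0, hc0, hV⟩ := V_ge
  obtain ⟨k₁, hk₁⟩ := eventually_atTop.1 ((level_ev c hc).and (eventually_ge_atTop 8))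
  refine ⟨c * Real.exp (-2) / 8, C * c / c0 + 1, c, by positivity, by positivity, hc,
    max k₀ (max k₁ k₂), ?_⟩
  intro k hk
  obtain ⟨⟨h3, h4, hllk, hlz⟩, h5⟩ := hk₁ k (le_trans (le_trans (le_max_left _ _) (le_max_right _ _)) hk)
  obtain ⟨z, hz⟩ : ∃ z, z = ⌊Real.exp (c * Real.log k / Real.log (Real.log k))⌋₊ := ⟨_, rfl⟩
  rw [← hz] at h3 h4 hlz
  have hk8 : (8 : ℝ) ≤ k := by exact_mod_cast h5
  have hk0 : (0 : ℝ) < k := by linarith
  have hℓ : 1 ≤ Real.log k := by
    rw [Real.le_log_iff_exp_le (by linarith)]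
    have := Real.exp_one_lt_d9
    linarith
  have hz3 : (3 : ℝ) ≤ z := by exact_mod_cast h3
  have hlz0 : 0 < Real.log z := Real.log_pos (by linarith)
  have hg1 : 1 ≤ (k : ℝ) * Real.log k / Real.log (Real.log k) := by
    rw [le_div_iff₀ (by linarith)]
    have := Real.log_le_sub_one_of_pos (show 0 < Real.log k by linarith)
    nlinarith
  constructor
  · intro n hn hnk hpn
    have hpr : ∀ p ∈ n.primeFactors, p.Prime := fun p hp => Nat.prime_of_mem_primeFactors hp
    obtain ⟨S, hS⟩ : ∃ S, S = n.primeFactors.filter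
      (fun p : ℕ => ¬ Real.exp (c * Real.log k / Real.log (Real.log k)) < p) := ⟨_, rfl⟩
    obtain ⟨E, hE⟩ : ∃ E, E = n.primeFactors.filter
      (fun p : ℕ => Real.exp (c * Real.log k / Real.log (Real.log k)) < p) := ⟨_, rfl⟩
    have hSs : S ⊆ n.primeFactors := by rw [hS]; exact filter_subset _ _
    have hEs : E ⊆ n.primeFactors := by rw [hE]; exact filter_subset _ _
    have hsum := hk₂ k (le_trans (le_trans (le_max_right _ _) (le_max_right _ _)) hk) E
      (fun p hp => hpr p (hEs hp)) ((card_le_card hEs).trans hnk) (by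
        intro p hp
        have hp' := hp
        rw [hE, mem_filter] at hp'
        rcases hpn p hp'.1 with h | h
        · linarith [hp'.2]
        · refine lt_of_le_of_lt ?_ h
          exact Real.rpow_le_rpow_of_exponent_le (by linarith)
            (by rw [hθ']; exact min_le_left _ _))
    have hup' := hup k (le_trans (le_max_left _ _) hk) n hn hnk (by rw [← hE, hη]; rw [hη] at hsum; linarith)
    rw [← hS] at hup'
    have hVS : 0 < V S := V_pos fun q hq => hpr q (hSs hq)
    have hcard : S.card ≤ z := by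
      have e3 : S ⊆ Ioc 0 z := by
        intro q hq
        have hq' := hq
        rw [hS, mem_filter] at hq'
        exact mem_Ioc.2 ⟨(hpr q (hSs hq)).pos, by rw [hz]; exact Nat.le_floor (not_lt.1 hq'.2)⟩
      have e4 := card_le_card e3
      rwa [Nat.card_Ioc, Nat.sub_zero] at e4
    have h6 := hV z h3 S (fun q hq => hpr q (hSs hq)) hcard
    have h7 : (V S)⁻¹ ≤ Real.log z / c0 := by
      have := inv_anti₀ (by positivity) h6
      rwa [inv_div] at this
    have h8 : Real.log z ≤ c * Real.log k / Real.log (Real.log k) := by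
      rw [Real.log_le_iff_le_exp (by linarith), hz]
      exact Nat.floor_le (Real.exp_pos _).le
    obtain ⟨m, hm⟩ : ∃ m, m = ⌈C * k * (V S)⁻¹⌉₊ := ⟨_, rfl⟩
    have hpos : 0 ≤ C * k * (V S)⁻¹ := by positivity
    have hm' := hup' m (by rw [hm]; exact Nat.le_ceil _)
    have h9 : (jacobsthal n : ℝ) ≤ m := by exact_mod_cast jac_le hm'
    have h10 : (m : ℝ) ≤ C * k * (V S)⁻¹ + 1 := by
      rw [hm]; exact (Nat.ceil_lt_add_one hpos).le
    have h11 : C * k * (V S)⁻¹ ≤ C * k * ((c * Real.log k / Real.log (Real.log k)) / c0) := by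
      refine mul_le_mul_of_nonneg_left (h7.trans ?_) (by positivity)
      exact div_le_div_of_nonneg_right h8 hc0.le
    have h12 : C * k * ((c * Real.log k / Real.log (Real.log k)) / c0) =
        C * c / c0 * (k * Real.log k / Real.log (Real.log k)) := by ring
    rw [h12] at h11
    linarith
  · obtain ⟨S, hS⟩ : ∃ S, S = (Ioc 0 z).filter Nat.Prime := ⟨_, rfl⟩
    have hSp : ∀ q ∈ S, q.Prime := fun q hq => by rw [hS, mem_filter] at hq; exact hq.2
    have hSz : ∀ q ∈ S, q ≤ z := fun q hq => by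
      rw [hS, mem_filter, mem_Ioc] at hq; exact hq.1.2
    obtain ⟨M, hM⟩ : ∃ M : ℕ, M = max z ⌈(k : ℝ) ^ θ⌉₊ := ⟨_, rfl⟩
    have hinf : {p : ℕ | p.Prime ∧ M < p}.Infinite := by
      refine Set.infinite_of_forall_exists_gt fun a => ?_
      obtain ⟨p, hp1, hp2⟩ := Nat.exists_infinite_primes (max a M + 1)
      refine ⟨p, ⟨hp2, ?_⟩, ?_⟩ <;> omega
    obtain ⟨E, hEs, hEc⟩ := hinf.exists_subset_card_eq (k / 2)
    have hEp : ∀ p ∈ E, p.Prime := fun p hp => (hEs hp).1
    have hEM : ∀ p ∈ E, M < p := fun p hp => (hEs hp).2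
    have hd : Disjoint S E := by
      rw [disjoint_left]
      intro q hq hq'
      have h1 := hSz q hq
      have h2 := hEM q hq'
      have h3 : z ≤ M := by rw [hM]; exact le_max_left _ _
      omega
    have hScard : S.card ≤ z := by
      have e3 : S ⊆ Ioc 0 z := by rw [hS]; exact filter_subset _ _
      have e4 := card_le_card e3
      rwa [Nat.card_Ioc, Nat.sub_zero] at e4
    have hup : ∀ p ∈ S ∪ E, p.Prime := by
      intro p hp
      rcases mem_union.1 hp with h | h
      · exact hSp p h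
      · exact hEp p h
    have hn : (∏ p ∈ S ∪ E, p) ≠ 0 := (prod_pos fun p hp => (hup p hp).pos).ne'
    have hpf : (∏ p ∈ S ∪ E, p).primeFactors = S ∪ E := Nat.primeFactors_prod hup
    refine ⟨∏ p ∈ S ∪ E, p, hn, ?_, ?_, ?_⟩
    · rw [hpf, card_union_of_disjoint hd, hEc]
      have e1 : (S.card : ℝ) ≤ k / 4 := le_trans (by exact_mod_cast hScard) h4
      have e2 : ((k / 2 : ℕ) : ℝ) ≤ k / 2 := by
        have := @Nat.cast_div_le ℝ _ _ _ k 2
        push_cast at this
        exact this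
      have e3 : ((S.card + k / 2 : ℕ) : ℝ) ≤ k := by push_cast; linarith
      exact_mod_cast e3
    · rw [hpf]
      intro p hp
      rcases mem_union.1 hp with h | h
      · left
        have h1 := hSz p h
        rw [hz] at h1
        exact (Nat.cast_le.2 h1).trans (Nat.floor_le (Real.exp_pos _).le)
      · right
        have h1 := hEM p h
        have h2 : ⌈(k : ℝ) ^ θ⌉₊ < p := lt_of_le_of_lt (by rw [hM]; exact le_max_right _ _) h1
        exact Nat.lt_of_ceil_lt h2
    · have h1 := lower_A hn (exists_bound hn) (S := S) (E := E) (by rw [hpf]; exact subset_union_left)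
        (by rw [hpf]; exact subset_union_right) hd
      refine le_trans ?_ h1
      have h2 : V S ≤ Real.exp 2 / Real.log z := by
        refine (V_le_exp hSp).trans ?_
        have e1 := Pool.Agent.H24.UM.loglog_lower z h3
        have e2 : ∑ p ∈ Pool.Agent.H12.oddPrimes z, (1:ℝ)/p ≤ ∑ q ∈ S, 1 / (q : ℝ) := by
          refine sum_le_sum_of_subset_of_nonneg ?_ fun _ _ _ => by positivity
          intro q hq
          unfold Pool.Agent.H12.oddPrimes at hq
          rw [mem_erase, Nat.mem_primesBelow] at hq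
          rw [hS, mem_filter, mem_Ioc]
          exact ⟨⟨hq.2.2.pos, hq.2.1.le⟩, hq.2.2⟩
        have e3 : Real.exp 2 / Real.log z = Real.exp (-(Real.log (Real.log z) - 2)) := by
          rw [neg_sub, Real.exp_sub, Real.exp_log hlz0]
        rw [e3]
        exact Real.exp_le_exp.2 (by linarith)
      have hVS : 0 < V S := V_pos hSp
      have h6 : Real.log z / Real.exp 2 ≤ (V S)⁻¹ := by
        have := inv_anti₀ hVS h2
        rwa [inv_div] at this
      have h7 : (k : ℝ) / 4 ≤ E.card := by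
        rw [hEc]
        have e1 : k < 2 * (k / 2) + 2 := by omega
        have e2 : (k : ℝ) < 2 * ((k / 2 : ℕ) : ℝ) + 2 := by exact_mod_cast e1
        linarith
      have h8 : c * Real.exp (-2) / 8 * (k * Real.log k / Real.log (Real.log k)) =
          (k / 4) * ((c / 2 * Real.log k / Real.log (Real.log k)) / Real.exp 2) := by
        rw [Real.exp_neg]
        field_simp
        ring
      rw [h8]
      refine mul_le_mul h7 (le_trans ?_ h6) (by positivity) (by positivity)
      exact div_le_div_of_nonneg_right hlz (Real.exp_pos _).le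

end Pool.Agent.H1.Jac
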