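import Pool.Agent.H1.Jac.Cnt
import Pool.Agent.H1.Jac.MomZ

/-!
# Few survivors in a subset of a short progression

Part of `MP_4e17b9_nt`. The proof of `small` in `Pool/Agent/H1/Jac/Small.lean`, simpler: all primes
of `R` are larger than `L`, so every class modulo `q ∈ R` has at most one element in
`T ⊆ AP m p c`, and `mom_z` with `z = 1` gives
`∑_{a < ∏ R} 2^|surv R a T| ≤ ∏ R * (1 + V R)^|T| ≤ ∏ R * exp (V R * |T|)`. Markov.
-/

set_option autoImplicit false

namespace Pool.Agent.H1.Jac

open Finset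

theorem small_T (R : Finset ℕ) (hR : ∀ q ∈ R, q.Prime) (T : Finset ℕ) (m p c L : ℕ)
    (hT : T ⊆ AP m p c) (hp : 0 < p) (hcop : ∀ q ∈ R, Nat.Coprime p q) (hL : m ≤ p * L)
    (hRL : ∀ q ∈ R, L < q) (s : ℝ) :
    (((range (∏ q ∈ R, q)).filter (fun a => s < ((surv R a T).card : ℝ))).card : ℝ) ≤
      (∏ q ∈ R, (q : ℝ)) * Real.exp (V R * T.card - s * Real.log 2) := by
  classical
  have hpr : (0 : ℝ) < p := by exact_mod_cast hp
  have hV0 : 0 ≤ V R := by
    refine prod_nonneg fun q hq => ?_
    have h1 : (1 : ℝ) ≤ q := by exact_mod_cast (hR q hq).one_lt.le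
    have h2 : 1 / (q : ℝ) ≤ 1 := by
      rw [div_le_one (by linarith)]
      exact h1
    linarith
  have hM : ∀ q ∈ R, ∀ r, (T.filter (fun i => q ∣ r + i)).card ≤ 1 := by
    intro q hq r
    have h := cnt_class m p c hp q (hR q hq) (hcop q hq) r
    have hqr : (0 : ℝ) < q := by exact_mod_cast (hR q hq).pos
    have h1 : (m : ℝ) / p / q < 1 := by
      rw [div_div, div_lt_one (by positivity)]
      have h2 : m < p * q := lt_of_le_of_lt hL (Nat.mul_lt_mul_of_pos_left (hRL q hq) hp)
      exact_mod_cast h2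
    have h3 : (((AP m p c).filter (fun i => q ∣ r + i)).card : ℝ) < (2 : ℕ) := by
      push_cast
      linarith
    have h4 := Nat.cast_lt.mp h3
    have h5 : (T.filter (fun i => q ∣ r + i)).card ≤
        ((AP m p c).filter (fun i => q ∣ r + i)).card := card_le_card (filter_subset_filter _ hT)
    omega
  have hS : ∑ a ∈ range (∏ q ∈ R, q), (2 : ℝ) ^ (surv R a T).card ≤
      (∏ q ∈ R, (q : ℝ)) * Real.exp (V R * T.card) := by
    have h := mom_z R hR T 1 zero_le_one hM
    have e : (1 + 1 : ℝ) = 2 := by norm_num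
    rw [e, one_mul] at h
    refine h.trans (mul_le_mul_of_nonneg_left ?_ (by positivity))
    have h1 : (1 + V R) ^ T.card ≤ Real.exp (V R) ^ T.card :=
      pow_le_pow_left₀ (by linarith) (by linarith [Real.add_one_le_exp (V R)]) _
    refine h1.trans ?_
    rw [← Real.exp_nat_mul, mul_comm]
  set B := (range (∏ q ∈ R, q)).filter (fun a => s < ((surv R a T).card : ℝ)) with hB
  have hMk : (B.card : ℝ) * Real.exp (s * Real.log 2) ≤
      ∑ a ∈ range (∏ q ∈ R, q), (2 : ℝ) ^ (surv R a T).card := by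
    calc (B.card : ℝ) * Real.exp (s * Real.log 2) = ∑ _a ∈ B, Real.exp (s * Real.log 2) := by
          rw [sum_const, nsmul_eq_mul]
      _ ≤ ∑ a ∈ B, (2 : ℝ) ^ (surv R a T).card := by
          refine sum_le_sum fun a ha => ?_
          have h1 : s < ((surv R a T).card : ℝ) := (mem_filter.mp ha).2
          have h2 : (2 : ℝ) ^ (surv R a T).card = Real.exp ((surv R a T).card * Real.log 2) := by
            rw [Real.exp_nat_mul, Real.exp_log (by norm_num)]
          rw [h2, Real.exp_le_exp]
          exact mul_le_mul_of_nonneg_right h1.le (Real.log_nonneg (by norm_num))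
      _ ≤ ∑ a ∈ range (∏ q ∈ R, q), (2 : ℝ) ^ (surv R a T).card :=
          sum_le_sum_of_subset_of_nonneg (filter_subset _ _) fun _ _ _ => by positivity
  have hfin := hMk.trans hS
  rw [Real.exp_sub, ← mul_div_assoc, le_div_iff₀ (Real.exp_pos _)]
  exact hfin

end Pool.Agent.H1.Jac
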