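import Pool.Agent.H1.Jac.Defs

/-!
# Congruences in a progression

Part of `MP_4e17b9_nt`. The `i` with `p ∣ c + i` and `q ∣ a + i` for all `q ∈ D` form one residue
class modulo `e = p * ∏ q ∈ D, q` (Chinese remainder theorem, see the proof of `cnt` in
`Pool/Agent/H1/Jac/Cnt.lean`, where the lemma `crt_aux` is private: copy it), and the class
`i ≡ r (mod e)` is `e ∣ c' + i` with `c' = (e - 1) * r`.
-/

set_option autoImplicit false

namespace Pool.Agent.H1.Jac

open Finset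

private theorem sub_ap_class (p c : ℕ) (hp : 0 < p) :
    ∃ r, ∀ i, p ∣ c + i ↔ i ≡ r [MOD p] := by
  refine ⟨(p - 1) * c, fun i => ?_⟩
  have h1 : c + (p - 1) * c = p * c := by
    obtain ⟨k, rfl⟩ : ∃ k, p = k + 1 := ⟨p - 1, by omega⟩
    simp only [Nat.add_sub_cancel]
    ring
  have h2 : p ∣ c + (p - 1) * c := by
    rw [h1]
    exact Nat.dvd_mul_right p c
  constructor
  · intro h
    have h3 : c + i ≡ c + (p - 1) * c [MOD p] :=
      ((Nat.modEq_zero_iff_dvd).2 h).trans ((Nat.modEq_zero_iff_dvd).2 h2).symm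
    exact Nat.ModEq.add_left_cancel' c h3
  · intro h
    have h3 : c + i ≡ c + (p - 1) * c [MOD p] := Nat.ModEq.add_left c h
    exact (Nat.modEq_zero_iff_dvd).1 (h3.trans ((Nat.modEq_zero_iff_dvd).2 h2))

private theorem sub_ap_dvd (e r : ℕ) (he : 0 < e) :
    ∀ i, e ∣ (e - 1) * r + i ↔ i ≡ r [MOD e] := by
  intro i
  have h1 : (e - 1) * r + r = e * r := by
    obtain ⟨k, rfl⟩ : ∃ k, e = k + 1 := ⟨e - 1, by omega⟩
    simp only [Nat.add_sub_cancel]
    ring
  have h2 : e ∣ (e - 1) * r + r := by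
    rw [h1]
    exact Nat.dvd_mul_right e r
  constructor
  · intro h
    have h3 : (e - 1) * r + i ≡ (e - 1) * r + r [MOD e] :=
      ((Nat.modEq_zero_iff_dvd).2 h).trans ((Nat.modEq_zero_iff_dvd).2 h2).symm
    exact Nat.ModEq.add_left_cancel' _ h3
  · intro h
    have h3 : (e - 1) * r + i ≡ (e - 1) * r + r [MOD e] := Nat.ModEq.add_left _ h
    exact (Nat.modEq_zero_iff_dvd).1 (h3.trans ((Nat.modEq_zero_iff_dvd).2 h2))

private theorem sub_ap_crt (p c a : ℕ) (hp : 0 < p) (D : Finset ℕ) :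
    (∀ q ∈ D, q.Prime) → (∀ q ∈ D, Nat.Coprime p q) →
    ∃ r, ∀ i, (p ∣ c + i ∧ ∀ q ∈ D, q ∣ a + i) ↔ i ≡ r [MOD p * ∏ q ∈ D, q] := by
  classical
  induction D using Finset.induction_on with
  | empty =>
    intro _ _
    obtain ⟨r, hr⟩ := sub_ap_class p c hp
    refine ⟨r, fun i => ?_⟩
    simp [hr i]
  | insert q D hq ih =>
    intro hD hpD
    obtain ⟨r, hr⟩ := ih (fun x hx => hD x (mem_insert_of_mem hx))
      (fun x hx => hpD x (mem_insert_of_mem hx))
    have hqp : q.Prime := hD q (mem_insert_self q D)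
    obtain ⟨r', hr'⟩ := sub_ap_class q a hqp.pos
    have hcop : Nat.Coprime (p * ∏ x ∈ D, x) q := by
      apply Nat.Coprime.mul_left (hpD q (mem_insert_self q D))
      apply Nat.Coprime.prod_left
      intro x hx
      rw [Nat.coprime_primes (hD x (mem_insert_of_mem hx)) hqp]
      rintro rfl
      exact hq hx
    refine ⟨Nat.chineseRemainder hcop r r', fun i => ?_⟩
    have hprod : p * ∏ x ∈ insert q D, x = (p * ∏ x ∈ D, x) * q := by
      rw [prod_insert hq]
      ring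
    rw [hprod, ← Nat.modEq_and_modEq_iff_modEq_mul hcop]
    have h1 := (Nat.chineseRemainder hcop r r').2.1
    have h2 := (Nat.chineseRemainder hcop r r').2.2
    constructor
    · rintro ⟨h3, h4⟩
      refine ⟨?_, ?_⟩
      · exact ((hr i).1 ⟨h3, fun x hx => h4 x (mem_insert_of_mem hx)⟩).trans h1.symm
      · exact ((hr' i).1 (h4 q (mem_insert_self q D))).trans h2.symm
    · rintro ⟨h3, h4⟩
      have h5 := (hr i).2 (h3.trans h1)
      have h6 := (hr' i).2 (h4.trans h2)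
      refine ⟨h5.1, ?_⟩
      intro x hx
      rcases mem_insert.1 hx with rfl | hx
      · exact h6
      · exact h5.2 x hx

theorem sub_ap (m p c a : ℕ) (hp : 0 < p) (D : Finset ℕ) (hD : ∀ q ∈ D, q.Prime)
    (hpD : ∀ q ∈ D, Nat.Coprime p q) :
    ∃ c', (AP m p c).filter (fun i => ∀ q ∈ D, q ∣ a + i) = AP m (p * ∏ q ∈ D, q) c' := by
  obtain ⟨r, hr⟩ := sub_ap_crt p c a hp D hD hpD
  have hN : 0 < p * ∏ q ∈ D, q :=
    Nat.mul_pos hp (Finset.prod_pos fun q hq => (hD q hq).pos)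
  refine ⟨(p * ∏ q ∈ D, q - 1) * r, ?_⟩
  unfold AP
  rw [filter_filter]
  apply filter_congr
  intro i _
  rw [hr i, sub_ap_dvd _ r hN i]

end Pool.Agent.H1.Jac
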