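import Pool.Agent.H1.Jac3.DetA
import Pool.Agent.H1.Jac3.SubAp
import Pool.Agent.H1.Jac3.BonfM
import Pool.Agent.H1.Jac3.ConcR
import Pool.Agent.H1.Jac3.SmallT
import Pool.Agent.H1.Jac3.AbR

/-!
# Consequences of the concentration for a good residue
-/

set_option autoImplicit false

namespace Pool.Agent.H1.Jac

open Finset

/-- The numbers of survivors of the random primes in all not too short progressions are as
expected. -/
def Good (R : Finset ℕ) (z : ℕ) (X0 : ℝ) (m b : ℕ) : Prop :=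
  ∀ e : ℕ, 0 < e → (∀ q ∈ R, Nat.Coprime e q) → X0 ≤ (m : ℝ) / e → ∀ c : ℕ,
    |((surv R b (AP m e c)).card : ℝ) - (m : ℝ) / e * V R| ≤
      5 * (min ((m : ℝ) / e) z) ^ (-(1 / 4) : ℝ) * ((m : ℝ) / e * V R)

lemma surv_filter (R : Finset ℕ) (b : ℕ) (T : Finset ℕ) (D : Finset ℕ) :
    (surv R b T).filter (fun i => ∀ q ∈ D, q ∣ b + i) =
      surv R b (T.filter (fun i => ∀ q ∈ D, q ∣ b + i)) := by
  unfold surv
  rw [filter_filter, filter_filter]
  apply filter_congr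
  intro i _
  exact and_comm

lemma surv_mono {Q Q' : Finset ℕ} (h : Q ⊆ Q') (a : ℕ) (T : Finset ℕ) :
    surv Q' a T ⊆ surv Q a T := by
  intro i hi
  unfold surv at hi ⊢
  rw [mem_filter] at hi ⊢
  exact ⟨hi.1, fun q hq => hi.2 q (h hq)⟩

lemma prod_le_pow {D : Finset ℕ} {z n : ℕ} (hz : 1 ≤ z) (hD : ∀ q ∈ D, q ≤ z)
    (hn : D.card ≤ n) : (∏ q ∈ D, (q : ℝ)) ≤ (z : ℝ) ^ n := by
  calc (∏ q ∈ D, (q : ℝ)) ≤ ∏ _q ∈ D, (z : ℝ) :=
        prod_le_prod (fun _ _ => Nat.cast_nonneg _) fun q hq => by exact_mod_cast hD q hq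
    _ = (z : ℝ) ^ D.card := by rw [prod_const]
    _ ≤ (z : ℝ) ^ n := pow_le_pow_right₀ (by exact_mod_cast hz) hn

/-- the count for `D` in terms of a progression -/
lemma good_count {R : Finset ℕ} {z : ℕ} {X0 : ℝ} {m b : ℕ} (hg : Good R z X0 m b)
    {p c : ℕ} (hp : 0 < p) {D : Finset ℕ} (hD : ∀ q ∈ D, q.Prime)
    (hpD : ∀ q ∈ D, Nat.Coprime p q) (hpR : ∀ q ∈ R, Nat.Coprime p q)
    (hDR : ∀ q ∈ R, ∀ q' ∈ D, Nat.Coprime q' q) {μ : ℝ} (hμ1 : 0 < μ)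
    (hμz : μ ≤ z) (hμ : μ ≤ (m : ℝ) / p / ∏ q ∈ D, (q : ℝ))
    (hX : X0 ≤ (m : ℝ) / p / ∏ q ∈ D, (q : ℝ)) :
    |(((surv R b (AP m p c)).filter (fun i => ∀ q ∈ D, q ∣ b + i)).card : ℝ) -
        (m : ℝ) / p * V R * ∏ q ∈ D, (1 / (q : ℝ))| ≤
      5 * μ ^ (-(1 / 4) : ℝ) * ((m : ℝ) / p * V R * ∏ q ∈ D, (1 / (q : ℝ))) := by
  obtain ⟨c', hc'⟩ := sub_ap m p c b hp D hD hpD
  rw [surv_filter, hc']
  have hprod : 0 < ∏ q ∈ D, q := prod_pos fun q hq => (hD q hq).pos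
  have hprod' : (0 : ℝ) < ∏ q ∈ D, (q : ℝ) := prod_pos fun q hq => by exact_mod_cast (hD q hq).pos
  have hp0 : (0 : ℝ) < p := by exact_mod_cast hp
  have he : 0 < p * ∏ q ∈ D, q := Nat.mul_pos hp hprod
  have hcast : (m : ℝ) / ((p * ∏ q ∈ D, q : ℕ) : ℝ) = (m : ℝ) / p / ∏ q ∈ D, (q : ℝ) := by
    push_cast
    rw [div_div]
  have hco : ∀ q ∈ R, Nat.Coprime (p * ∏ q ∈ D, q) q := by
    intro q hq
    exact Nat.Coprime.mul_left (hpR q hq) (Nat.Coprime.prod_left fun q' hq' => hDR q hq q' hq')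
  have h1 := hg (p * ∏ q ∈ D, q) he hco (by rw [hcast]; exact hX) c'
  rw [hcast] at h1
  have h2 : (m : ℝ) / p / (∏ q ∈ D, (q : ℝ)) * V R =
      (m : ℝ) / p * V R * ∏ q ∈ D, (1 / (q : ℝ)) := by
    rw [prod_div_distrib, prod_const_one]
    field_simp
  rw [h2] at h1
  refine h1.trans ?_
  have h3 : 0 ≤ V R ∨ V R < 0 := le_or_gt 0 _
  have h4 : μ ≤ min ((m : ℝ) / p / ∏ q ∈ D, (q : ℝ)) z := le_min hμ hμz
  have h5 : (min ((m : ℝ) / p / ∏ q ∈ D, (q : ℝ)) z) ^ (-(1 / 4) : ℝ) ≤ μ ^ (-(1 / 4) : ℝ) :=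
    Real.rpow_le_rpow_of_nonpos hμ1 h4 (by norm_num)
  rcases h3 with h3 | h3
  · have h6 : 0 ≤ (m : ℝ) / p * V R * ∏ q ∈ D, (1 / (q : ℝ)) := by positivity
    exact mul_le_mul_of_nonneg_right (by linarith) h6
  · exfalso
    have h7 : (m : ℝ) / p * V R * ∏ q ∈ D, (1 / (q : ℝ)) < 0 := by
      rw [← h2]
      exact mul_neg_of_pos_of_neg (by linarith) h3
    have h8 : 0 < 5 * (min ((m : ℝ) / p / ∏ q ∈ D, (q : ℝ)) z) ^ (-(1 / 4) : ℝ) := by
      have : 0 < min ((m : ℝ) / p / ∏ q ∈ D, (q : ℝ)) (z : ℝ) := lt_of_lt_of_le hμ1 h4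
      positivity
    have h9 := mul_neg_of_pos_of_neg h8 h7
    linarith [abs_nonneg (((surv R b (AP m (p * ∏ q ∈ D, q) c')).card : ℝ) -
      (m : ℝ) / p * V R * ∏ q ∈ D, (1 / (q : ℝ)))]

/-- Accuracy of the whole sieve in the long progressions. -/
lemma class_one {R S : Finset ℕ} {z : ℕ} {X0 : ℝ} {m b : ℕ} (hg : Good R z X0 m b)
    (hX0 : 1 ≤ X0) (hX0z : X0 ≤ z) (hR : ∀ q ∈ R, q.Prime) (hS : ∀ q ∈ S, q.Prime)
    (hSz : ∀ q ∈ S, q ≤ z) (hd : Disjoint R S) {p c r : ℕ} (hp : 0 < p)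
    (hpR : ∀ q ∈ R, Nat.Coprime p q) (hpS : ∀ q ∈ S, Nat.Coprime p q)
    (hX : ((z : ℝ) + 1) ^ (r + 2) * X0 ≤ (m : ℝ) / p) {δ c0 ℓ C2 : ℝ} (hδ : 0 < δ)
    (hV : c0 / ℓ ≤ V S) (hs : ∑ q ∈ S, 1 / (q : ℝ) ≤ Real.log ℓ + C2)
    (ha : ∀ s : ℝ, 0 ≤ s → s ≤ Real.log ℓ + C2 →
        s ^ (r + 1) / ((r + 1).factorial : ℝ) + s ^ (r + 2) / ((r + 2).factorial : ℝ) ≤
          δ / 2 * (c0 / ℓ))
    (hb : 5 * X0 ^ (-(1 / 4) : ℝ) * Real.exp (Real.log ℓ + C2) ≤ δ / 2 * (c0 / ℓ)) :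
    |((surv (R ∪ S) b (AP m p c)).card : ℝ) - (m : ℝ) / p * V (R ∪ S)| ≤
      δ * ((m : ℝ) / p * V (R ∪ S)) := by
  have hz1 : (1 : ℝ) ≤ z := hX0.trans hX0z
  have hp0 : (0 : ℝ) < p := by exact_mod_cast hp
  have hVR : 0 < V R := V_pos hR
  have hVS : 0 < V S := V_pos hS
  have hX00 : 0 < X0 := by linarith
  have hN : 0 ≤ (m : ℝ) / p * V R := by positivity
  have hδ' : 0 ≤ 5 * X0 ^ (-(1 / 4) : ℝ) := by positivity
  have hs0 : 0 ≤ ∑ q ∈ S, 1 / (q : ℝ) := sum_nonneg fun _ _ => by positivity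
  have h1 := bonf_mult (surv R b (AP m p c)) S (fun q i => q ∣ b + i) (fun q => 1 / (q : ℝ))
    (fun q hq => by
      have h2 : (2 : ℝ) ≤ q := by exact_mod_cast (hS q hq).two_le
      refine ⟨by positivity, ?_⟩
      rw [div_le_one (by linarith)]; linarith) r ((m : ℝ) / p * V R) (5 * X0 ^ (-(1 / 4) : ℝ))
    hN hδ' (by
      intro D hD hDc
      have hDp : ∀ q ∈ D, q.Prime := fun q hq => hS q (hD hq)
      have hprod' : (0 : ℝ) < ∏ q ∈ D, (q : ℝ) :=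
        prod_pos fun q hq => by exact_mod_cast (hDp q hq).pos
      have hle : X0 ≤ (m : ℝ) / p / ∏ q ∈ D, (q : ℝ) := by
        rw [le_div_iff₀ hprod']
        refine le_trans ?_ hX
        have e1 := prod_le_pow (by exact_mod_cast hz1) (fun q hq => hSz q (hD hq)) hDc
        have e2 : (z : ℝ) ^ (r + 2) ≤ ((z : ℝ) + 1) ^ (r + 2) :=
          pow_le_pow_left₀ (by linarith) (by linarith) _
        rw [mul_comm]
        exact mul_le_mul_of_nonneg_right (e1.trans e2) hX00.le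
      refine good_count hg hp hDp (fun q hq => hpS q (hD hq)) hpR ?_ hX00 hX0z hle hle
      intro q hq q' hq'
      refine (Nat.coprime_primes (hDp q' hq') (hR q hq)).2 ?_
      rintro rfl
      exact disjoint_left.1 hd hq (hD hq'))
  have h2 : ((surv R b (AP m p c)).filter (fun i => ∀ q ∈ S, ¬ q ∣ b + i)) =
      surv (R ∪ S) b (AP m p c) := by
    rw [surv_union]; rfl
  have h3 : (m : ℝ) / p * V R * ∏ q ∈ S, (1 - 1 / (q : ℝ)) = (m : ℝ) / p * V (R ∪ S) := by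
    unfold V
    rw [prod_union hd]; ring
  rw [h2, h3] at h1
  refine h1.trans ?_
  have h4 : (∑ q ∈ S, 1 / (q : ℝ)) ^ (r + 1) / ((r + 1).factorial : ℝ) +
      (∑ q ∈ S, 1 / (q : ℝ)) ^ (r + 2) / ((r + 2).factorial : ℝ) +
        5 * X0 ^ (-(1 / 4) : ℝ) * Real.exp (∑ q ∈ S, 1 / (q : ℝ)) ≤ δ * V S := by
    have e1 := ha _ hs0 hs
    have e2 : 5 * X0 ^ (-(1 / 4) : ℝ) * Real.exp (∑ q ∈ S, 1 / (q : ℝ)) ≤ δ / 2 * (c0 / ℓ) :=
      (mul_le_mul_of_nonneg_left (Real.exp_le_exp.2 hs) hδ').trans hb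
    have e3 : δ * (c0 / ℓ) ≤ δ * V S := mul_le_mul_of_nonneg_left hV hδ.le
    linarith
  have h5 := mul_le_mul_of_nonneg_left h4 hN
  have h6 : (m : ℝ) / p * V R * (δ * V S) = δ * ((m : ℝ) / p * V (R ∪ S)) := by
    have : V (R ∪ S) = V R * V S := prod_union hd
    rw [this]; ring
  rw [h6] at h5
  exact h5

/-- Upper bound in the progressions of medium length. -/
lemma class_two_b {C C1 : ℝ} (hC : 0 < C) (hC1 : 0 < C1)
    (hab : ∀ (R T : Finset ℕ) (y : ℕ), 2 ≤ y → (∀ q ∈ R, q.Prime) →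
    (∀ q ∈ T, q.Prime) → (∀ q ∈ T, q ≤ y) → ∀ (m p c a : ℕ) (δ : ℝ), 0 < p →
    (∀ q ∈ T, Nat.Coprime p q) → 0 ≤ δ →
    (∀ D ⊆ T, (∏ q ∈ D, (q : ℝ)) ^ 2 ≤ (m : ℝ) / p →
      |(((surv R a (AP m p c)).filter (fun i => ∀ q ∈ D, q ∣ a + i)).card : ℝ) -
        (m : ℝ) / p * V R * ∏ q ∈ D, (1 / (q : ℝ))| ≤
        δ * ((m : ℝ) / p * V R * ∏ q ∈ D, (1 / (q : ℝ)))) →
    (δ * ((m : ℝ) / p) + 2) * (y : ℝ) ^ 48 ≤ (m : ℝ) / p * (V R * V T) →
    ((surv (R ∪ T) a (AP m p c)).card : ℝ) ≤ C * ((m : ℝ) / p * (V R * V T)))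
    (hVs : ∀ z y : ℕ, 3 ≤ z → 2 ≤ y → y ≤ z → ∀ S : Finset ℕ, (∀ q ∈ S, q.Prime) →
      (∀ q ∈ S, q ≤ z) → V (S.filter (fun q => ¬ y < q)) ≤ C1 * (Real.log z / Real.log y) * V S)
    {R S : Finset ℕ} {z : ℕ} {X0 : ℝ} {m b : ℕ} (hg : Good R z X0 m b)
    (hX01 : 1 ≤ X0) (hX0 : 4 ≤ X0 ^ (1 / 400 : ℝ)) (hX0z : X0 ≤ z) (hR : ∀ q ∈ R, q.Prime)
    (hS : ∀ q ∈ S, q.Prime) (hSz : ∀ q ∈ S, q ≤ z) (hd : Disjoint R S) {p c : ℕ} (hp : 0 < p)
    (hpR : ∀ q ∈ R, Nat.Coprime p q) (hpS : ∀ q ∈ S, Nat.Coprime p q)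
    (hX : X0 ^ 2 ≤ (m : ℝ) / p) (hsm : 7 * X0 ^ (-(13 / 100) : ℝ) ≤ V R * V S) :
    ((surv (R ∪ S) b (AP m p c)).card : ℝ) ≤
      1600 * C * C1 * ((m : ℝ) / p * V (R ∪ S) *
        (1 + Real.log z * (1 / Real.log ((m : ℝ) / p)))) := by
  have hp0 : (0 : ℝ) < p := by exact_mod_cast hp
  have hVR : 0 < V R := V_pos hR
  have hVS : 0 < V S := V_pos hS
  have hX00 : 0 < X0 := by linarith
  obtain ⟨H, hH⟩ : ∃ H, H = (m : ℝ) / p := ⟨_, rfl⟩
  rw [← hH] at hX ⊢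
  have hH1 : 1 ≤ H := le_trans (by nlinarith) hX
  have hH0 : 0 < H := by linarith
  have hsH : X0 ≤ Real.sqrt H := Real.le_sqrt_of_sq_le hX
  obtain ⟨μ, hμ⟩ : ∃ μ, μ = min (Real.sqrt H) z := ⟨_, rfl⟩
  have hμX : X0 ≤ μ := by rw [hμ]; exact le_min hsH hX0z
  have hμz : μ ≤ z := by rw [hμ]; exact min_le_right _ _
  have hμs : μ ≤ Real.sqrt H := by rw [hμ]; exact min_le_left _ _
  have hμ0 : 0 < μ := by linarith
  have hμ1 : 1 ≤ μ := by linarith
  obtain ⟨t, ht⟩ : ∃ t, t = μ ^ (1 / 400 : ℝ) := ⟨_, rfl⟩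
  have ht0 : 0 ≤ t := by rw [ht]; exact Real.rpow_nonneg hμ0.le _
  have ht4 : 4 ≤ t := by
    rw [ht]
    exact hX0.trans (Real.rpow_le_rpow hX00.le hμX (by norm_num))
  have htμ : t ≤ μ := by
    rw [ht]
    calc μ ^ (1 / 400 : ℝ) ≤ μ ^ (1 : ℝ) := Real.rpow_le_rpow_of_exponent_le hμ1 (by norm_num)
      _ = μ := Real.rpow_one _
  have ht48 : t ^ 48 = μ ^ (3 / 25 : ℝ) := by
    rw [ht, ← Real.rpow_natCast, ← Real.rpow_mul hμ0.le]
    norm_num
  obtain ⟨y, hy⟩ : ∃ y, y = ⌊t⌋₊ := ⟨_, rfl⟩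
  have hyt : (y : ℝ) ≤ t := by rw [hy]; exact Nat.floor_le ht0
  have hy4 : 4 ≤ y := by rw [hy]; exact Nat.le_floor (by exact_mod_cast ht4)
  have hyz : y ≤ z := by exact_mod_cast (hyt.trans (htμ.trans hμz) : (y : ℝ) ≤ z)
  have hz4 : (4 : ℝ) ≤ z := ht4.trans (htμ.trans hμz)
  have hz3 : 3 ≤ z := by
    have : 4 ≤ z := by exact_mod_cast hz4
    omega
  obtain ⟨T, hT⟩ : ∃ T, T = S.filter (fun q => ¬ y < q) := ⟨_, rfl⟩
  have hTS : T ⊆ S := by rw [hT]; exact filter_subset _ _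
  have hTp : ∀ q ∈ T, q.Prime := fun q hq => hS q (hTS hq)
  have hTy : ∀ q ∈ T, q ≤ y := fun q hq => by
    rw [hT, mem_filter] at hq; omega
  have hVT : V S ≤ V T := by
    have h1 : V S = V (S.filter (fun q => y < q)) * V T := by
      rw [hT]; unfold V
      exact (prod_filter_mul_prod_filter_not S (fun q => y < q) _).symm
    have h2 := V_le_one (Q := S.filter (fun q => y < q)) (fun q hq => hS q (mem_filter.1 hq).1)
    have h3 : 0 < V T := V_pos hTp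
    rw [h1]
    nlinarith
  have hVT0 : 0 < V T := V_pos hTp
  have hsq : Real.sqrt H * Real.sqrt H = H := Real.mul_self_sqrt hH0.le
  have hμ4 : μ ^ (-(1 / 4) : ℝ) * μ ^ (3 / 25 : ℝ) = μ ^ (-(13 / 100) : ℝ) := by
    rw [← Real.rpow_add hμ0]; norm_num
  have hmain := hab R T y (by omega) hR hTp hTy m p c b (5 * μ ^ (-(1 / 4) : ℝ)) hp
    (fun q hq => hpS q (hTS hq)) (by positivity) (by
      intro D hD hDH
      have hDp : ∀ q ∈ D, q.Prime := fun q hq => hTp q (hD hq)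
      have hprod' : (0 : ℝ) < ∏ q ∈ D, (q : ℝ) :=
        prod_pos fun q hq => by exact_mod_cast (hDp q hq).pos
      rw [← hH] at hDH
      have h1 : (∏ q ∈ D, (q : ℝ)) ≤ Real.sqrt H := Real.le_sqrt_of_sq_le hDH
      have h2 : Real.sqrt H ≤ (m : ℝ) / p / ∏ q ∈ D, (q : ℝ) := by
        rw [← hH, le_div_iff₀ hprod']
        have := mul_le_mul_of_nonneg_left h1 (Real.sqrt_nonneg H)
        linarith
      refine good_count hg hp hDp (fun q hq => hpS q (hTS (hD hq))) hpR ?_ hμ0 hμz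
        (hμs.trans h2) (hsH.trans h2)
      intro q hq q' hq'
      refine (Nat.coprime_primes (hDp q' hq') (hR q hq)).2 ?_
      rintro rfl
      exact disjoint_left.1 hd hq (hTS (hD hq'))) (by
      rw [← hH]
      have h1 : (y : ℝ) ^ 48 ≤ μ ^ (3 / 25 : ℝ) := by
        rw [← ht48]; exact pow_le_pow_left₀ (Nat.cast_nonneg _) hyt _
      have h2 : (5 * μ ^ (-(1 / 4) : ℝ) * H + 2) * (y : ℝ) ^ 48 ≤
          (5 * μ ^ (-(1 / 4) : ℝ) * H + 2) * μ ^ (3 / 25 : ℝ) :=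
        mul_le_mul_of_nonneg_left h1 (by positivity)
      refine h2.trans ?_
      have h3 : (5 * μ ^ (-(1 / 4) : ℝ) * H + 2) * μ ^ (3 / 25 : ℝ) =
          5 * H * μ ^ (-(13 / 100) : ℝ) + 2 * μ ^ (3 / 25 : ℝ) := by
        rw [← hμ4]; ring
      rw [h3]
      have h4 : μ ^ (3 / 25 : ℝ) ≤ H * μ ^ (-(13 / 100) : ℝ) := by
        have h5 : μ ^ (2 : ℝ) ≤ H := by
          have : μ ^ 2 ≤ H := by
            calc μ ^ 2 ≤ Real.sqrt H ^ 2 := pow_le_pow_left₀ hμ0.le hμs 2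
              _ = H := Real.sq_sqrt hH0.le
          exact_mod_cast this
        calc μ ^ (3 / 25 : ℝ) ≤ μ ^ (2 + -(13 / 100) : ℝ) :=
              Real.rpow_le_rpow_of_exponent_le hμ1 (by norm_num)
          _ = μ ^ (2 : ℝ) * μ ^ (-(13 / 100) : ℝ) := Real.rpow_add hμ0 _ _
          _ ≤ H * μ ^ (-(13 / 100) : ℝ) :=
            mul_le_mul_of_nonneg_right h5 (Real.rpow_nonneg hμ0.le _)
      have h5 : μ ^ (-(13 / 100) : ℝ) ≤ X0 ^ (-(13 / 100) : ℝ) :=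
        Real.rpow_le_rpow_of_nonpos hX00 hμX (by norm_num)
      have h6 : 7 * μ ^ (-(13 / 100) : ℝ) ≤ V R * V T := by
        have : V R * V S ≤ V R * V T := mul_le_mul_of_nonneg_left hVT hVR.le
        linarith
      have h7 := mul_le_mul_of_nonneg_left h6 hH0.le
      linarith)
  rw [← hH] at hmain
  have hsub : ((surv (R ∪ S) b (AP m p c)).card : ℝ) ≤ ((surv (R ∪ T) b (AP m p c)).card : ℝ) := by
    exact_mod_cast card_le_card (surv_mono (union_subset_union_right hTS) b _)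
  refine hsub.trans (hmain.trans ?_)
  have hV1 := hVs z y hz3 (by omega) hyz S hS hSz
  rw [← hT] at hV1
  have hlz : 0 < Real.log z := Real.log_pos (by linarith)
  have hlμ : 0 < Real.log μ := Real.log_pos (by
    have : t ≤ μ := htμ
    linarith)
  have hly : 0 < Real.log y := Real.log_pos (by exact_mod_cast (by omega : 1 < y))
  have hlH : 0 < Real.log H := Real.log_pos (by
    have h1 : Real.sqrt H ≤ H := by
      rw [Real.sqrt_le_left (by linarith)]; nlinarith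
    linarith)
  have hly' : Real.log μ / 800 ≤ Real.log y := by
    have h1 := log_floor_ge ht4
    rw [← hy] at h1
    have h2 : Real.log t = 1 / 400 * Real.log μ := by rw [ht, Real.log_rpow hμ0]
    rw [h2] at h1
    linarith
  have hratio : Real.log z / Real.log y ≤ 1600 * (1 + Real.log z * (1 / Real.log H)) := by
    have h1 : Real.log z / Real.log y ≤ Real.log z / (Real.log μ / 800) :=
      div_le_div_of_nonneg_left hlz.le (by positivity) hly'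
    refine h1.trans ?_
    have h3 : 0 ≤ Real.log z * (1 / Real.log H) := by positivity
    rcases le_total (Real.sqrt H) z with h | h
    · have h2 : μ = Real.sqrt H := by rw [hμ]; exact min_eq_left h
      rw [h2, Real.log_sqrt hH0.le]
      have h4 : Real.log z / (Real.log H / 2 / 800) = 1600 * (Real.log z * (1 / Real.log H)) := by
        field_simp
        norm_num
      rw [h4]
      linarith
    · have h2 : μ = z := by rw [hμ]; exact min_eq_right h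
      rw [h2]
      have h4 : Real.log z / (Real.log z / 800) = 800 := by field_simp
      rw [h4]
      linarith
  have hVRS : V (R ∪ S) = V R * V S := prod_union hd
  rw [hVRS]
  have h1 : V T ≤ C1 * (1600 * (1 + Real.log z * (1 / Real.log H))) * V S := by
    refine hV1.trans (mul_le_mul_of_nonneg_right ?_ hVS.le)
    exact mul_le_mul_of_nonneg_left hratio hC1.le
  calc C * (H * (V R * V T)) ≤
        C * (H * (V R * (C1 * (1600 * (1 + Real.log z * (1 / Real.log H))) * V S))) := by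
        gcongr
    _ = 1600 * C * C1 * (H * (V R * V S) * (1 + Real.log z * (1 / Real.log H))) := by ring

/-- Upper bound in the short progressions, given the second event. -/
lemma class_two_a {CS C1 : ℝ} {N : ℕ} (hCS : 0 < CS)
    (hsieve : ∀ y : ℕ, 2 ≤ y → ∀ Q : Finset ℕ,
    (∀ q ∈ Q, q.Prime) → (∀ q ∈ Q, q ≤ y) → ∀ m p c a : ℕ, 0 < p →
    (∀ q ∈ Q, Nat.Coprime p q) → (y : ℝ) ^ N ≤ (m : ℝ) / p →
    ((surv Q a (AP m p c)).card : ℝ) ≤ CS * ((m : ℝ) / p * V Q)) (hC1 : 0 < C1)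
    (hVs : ∀ z y : ℕ, 3 ≤ z → 2 ≤ y → y ≤ z → ∀ S : Finset ℕ, (∀ q ∈ S, q.Prime) →
      (∀ q ∈ S, q ≤ z) → V (S.filter (fun q => ¬ y < q)) ≤ C1 * (Real.log z / Real.log y) * V S)
    {R S : Finset ℕ} {z m b y1 : ℕ} {K : ℝ} (hK : 0 < K) (hz : 3 ≤ z)
    (hR : ∀ q ∈ R, q.Prime)
    (hS : ∀ q ∈ S, q.Prime) (hSz : ∀ q ∈ S, q ≤ z) (hd : Disjoint R S) {p c : ℕ} (hp : 0 < p)
    (hpS : ∀ q ∈ S, Nat.Coprime p q)
    (hy1 : 2 ≤ y1) (hy1z : y1 ≤ z) (hy1N : (y1 : ℝ) ^ N ≤ K)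
    (hly : Real.log K / (2 * (N + 1)) ≤ Real.log y1) (hlK : 0 < Real.log K)
    (hev : ((surv R b (surv (S.filter (fun q => ¬ y1 < q)) b (AP m p c))).card : ℝ) ≤
      (V R * ((surv (S.filter (fun q => ¬ y1 < q)) b (AP m p c)).card : ℝ) + 8 * K) /
        Real.log 2) :
    ((surv (R ∪ S) b (AP m p c)).card : ℝ) ≤
      4 * CS * C1 * (N + 1) * (Real.log z / Real.log K) * ((m : ℝ) * (1 / (p : ℝ)) * V (R ∪ S)) +
        (2 * CS + 16) * K := by
  have hVR : 0 < V R := V_pos hR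
  have hVR1 : V R ≤ 1 := V_le_one hR
  have hVS : 0 < V S := V_pos hS
  obtain ⟨T, hT⟩ : ∃ T, T = S.filter (fun q => ¬ y1 < q) := ⟨_, rfl⟩
  have hTS : T ⊆ S := by rw [hT]; exact filter_subset _ _
  have hVT0 : 0 < V T := V_pos fun q hq => hS q (hTS hq)
  have hVT1 : V T ≤ 1 := V_le_one fun q hq => hS q (hTS hq)
  have h1 := det_big (m := m) hsieve hS hy1 hp hpS b c
  have h1' : ((surv T b (AP m p c)).card : ℝ) ≤ CS * V T * ((m : ℝ) * (1 / (p : ℝ)) + (y1 : ℝ) ^ N) := by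
    have h2 := det_big (m := m) hsieve (Q := T) (fun q hq => hS q (hTS hq)) hy1 hp
      (fun q hq => hpS q (hTS hq)) b c
    have h3 : T.filter (fun q => ¬ y1 < q) = T := by
      rw [hT, filter_filter]
      apply filter_congr
      intro q _
      exact and_self_iff
    rwa [h3] at h2
  rw [← hT] at hev
  have hsub : ((surv (R ∪ S) b (AP m p c)).card : ℝ) ≤ ((surv R b (surv T b (AP m p c))).card : ℝ) := by
    have h2 : surv (T ∪ R) b (AP m p c) = surv R b (surv T b (AP m p c)) := surv_union T R b _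
    rw [← h2]
    exact_mod_cast card_le_card (surv_mono (by
      rw [union_comm]; exact union_subset_union_right hTS) b _)
  have hl2 : 1 / 2 ≤ Real.log 2 := by
    have := Real.log_two_gt_d9
    linarith
  have hl2' : 0 < Real.log 2 := by linarith
  have hM0 : 0 ≤ (m : ℝ) * (1 / (p : ℝ)) := by positivity
  have h2 : ((surv (R ∪ S) b (AP m p c)).card : ℝ) ≤
      2 * (V R * (CS * V T * ((m : ℝ) * (1 / (p : ℝ)) + K)) + 8 * K) := by
    refine hsub.trans (hev.trans ?_)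
    rw [div_le_iff₀ hl2']
    have e1 : V R * ((surv T b (AP m p c)).card : ℝ) ≤
        V R * (CS * V T * ((m : ℝ) * (1 / (p : ℝ)) + K)) := by
      refine mul_le_mul_of_nonneg_left (h1'.trans ?_) hVR.le
      exact mul_le_mul_of_nonneg_left (by linarith) (by positivity)
    have e2 : 0 ≤ V R * (CS * V T * ((m : ℝ) * (1 / (p : ℝ)) + K)) + 8 * K := by positivity
    nlinarith
  have h3 : V R * (CS * V T * K) ≤ CS * K := by
    have e1 : V R * V T ≤ 1 := by nlinarith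
    have e2 : 0 ≤ CS * K := by positivity
    calc V R * (CS * V T * K) = (V R * V T) * (CS * K) := by ring
      _ ≤ 1 * (CS * K) := mul_le_mul_of_nonneg_right e1 e2
      _ = CS * K := one_mul _
  have hz1 : (1 : ℝ) < z := by exact_mod_cast (by omega : 1 < z)
  have hlz : 0 < Real.log z := Real.log_pos hz1
  have hly0 : 0 < Real.log y1 := Real.log_pos (by exact_mod_cast (by omega : 1 < y1))
  have h4 := hVs z y1 hz hy1 hy1z S hS hSz
  rw [← hT] at h4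
  have h5 : Real.log z / Real.log y1 ≤ 2 * (N + 1) * (Real.log z / Real.log K) := by
    have e1 : Real.log z / Real.log y1 ≤ Real.log z / (Real.log K / (2 * (N + 1))) :=
      div_le_div_of_nonneg_left hlz.le (by positivity) hly
    refine e1.trans (le_of_eq ?_)
    field_simp
  have h6 : V T ≤ C1 * (2 * (N + 1) * (Real.log z / Real.log K)) * V S := by
    refine h4.trans (mul_le_mul_of_nonneg_right ?_ hVS.le)
    exact mul_le_mul_of_nonneg_left h5 hC1.le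
  have hVRS : V (R ∪ S) = V R * V S := prod_union hd
  have h7 : V R * (CS * V T * ((m : ℝ) * (1 / (p : ℝ)))) ≤
      2 * CS * C1 * (N + 1) * (Real.log z / Real.log K) *
        ((m : ℝ) * (1 / (p : ℝ)) * V (R ∪ S)) := by
    rw [hVRS]
    calc V R * (CS * V T * ((m : ℝ) * (1 / (p : ℝ)))) ≤
          V R * (CS * (C1 * (2 * (N + 1) * (Real.log z / Real.log K)) * V S) *
            ((m : ℝ) * (1 / (p : ℝ)))) := by gcongr
      _ = _ := by ring
  have h8 : V R * (CS * V T * ((m : ℝ) * (1 / (p : ℝ)) + K)) =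
      V R * (CS * V T * ((m : ℝ) * (1 / (p : ℝ)))) + V R * (CS * V T * K) := by ring
  rw [h8] at h2
  linarith

end Pool.Agent.H1.Jac
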