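import Pool.Agent.H1.Jac3.SemiA

/-!
# The number of bad residues
-/

set_option autoImplicit false

namespace Pool.Agent.H1.Jac

open Finset Filter

lemma AP_mod (m e c : ℕ) : AP m e (c % e) = AP m e c := by
  unfold AP
  apply filter_congr
  intro i _
  exact ((Nat.mod_modEq c e).add_right i).dvd_iff dvd_rfl

lemma surv_mod' (Q : Finset ℕ) (a : ℕ) (T : Finset ℕ) :
    surv Q (a % ∏ q ∈ Q, q) T = surv Q a T :=
  surv_mod (fun _ hq => dvd_prod_of_mem (fun q => q) hq) a T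

lemma surv_congr {Q : Finset ℕ} {a b : ℕ} (h : ∀ q ∈ Q, (q : ℤ) ∣ (a : ℤ) - b) (T : Finset ℕ) :
    surv Q a T = surv Q b T := by
  unfold surv
  apply filter_congr
  intro i _
  refine forall₂_congr fun q hq => not_congr ?_
  have h1 := h q hq
  constructor
  · intro h2
    have h3 : (q : ℤ) ∣ ((a + i : ℕ) : ℤ) := by exact_mod_cast h2
    have h4 : (q : ℤ) ∣ ((b + i : ℕ) : ℤ) := by
      have h5 := dvd_sub h3 h1
      have h6 : ((a + i : ℕ) : ℤ) - ((a : ℤ) - b) = ((b + i : ℕ) : ℤ) := by push_cast; ring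
      rwa [h6] at h5
    exact_mod_cast h4
  · intro h2
    have h3 : (q : ℤ) ∣ ((b + i : ℕ) : ℤ) := by exact_mod_cast h2
    have h4 : (q : ℤ) ∣ ((a + i : ℕ) : ℤ) := by
      have h5 := dvd_add h3 h1
      have h6 : ((b + i : ℕ) : ℤ) + ((a : ℤ) - b) = ((a + i : ℕ) : ℤ) := by push_cast; ring
      rwa [h6] at h5
    exact_mod_cast h4

lemma good_congr {R : Finset ℕ} {z : ℕ} {X0 : ℝ} {m a b : ℕ}
    (h : ∀ q ∈ R, (q : ℤ) ∣ (a : ℤ) - b) (hg : Good R z X0 m a) : Good R z X0 m b := by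
  intro e he hc hX c
  rw [← surv_congr h]
  exact hg e he hc hX c

open Classical in
lemma good_bad {R : Finset ℕ} (hR : ∀ q ∈ R, q.Prime) {z : ℕ} (hRz : ∀ q ∈ R, z < q)
    {X0 Λ K : ℝ} (hK : 0 ≤ K) (hX : 256 ≤ X0) (hXz : X0 ≤ z)
    (hΛ : 1 + ∑ q ∈ R, 1 / (q : ℝ) ≤ Λ) (hexp : 6 * K * (1 + Λ) ≤ X0 ^ (1 / 2 : ℝ) * V R)
    (m : ℕ) :
    (((range (∏ q ∈ R, q)).filter (fun a => ¬ Good R z X0 m a)).card : ℝ) ≤
      (m : ℝ) ^ 2 * (2 * (∏ q ∈ R, (q : ℝ)) * Real.exp (-(6 * K))) := by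
  have hz0 : 0 < z := by
    have : (0 : ℝ) < z := by linarith
    exact_mod_cast this
  obtain ⟨B, hB⟩ : ∃ B : ℕ → ℕ → Finset ℕ, B = fun (e c : ℕ) => (range (∏ q ∈ R, q)).filter
      (fun a => 5 * (min ((m : ℝ) / e) z) ^ (-(1 / 4) : ℝ) * ((m : ℝ) / e * V R) <
        |((surv R a (AP m e c)).card : ℝ) - (m : ℝ) / e * V R|) := ⟨_, rfl⟩
  obtain ⟨Es, hEs⟩ : ∃ Es, Es = (Ioc 0 m).filter
    (fun e : ℕ => (∀ q ∈ R, Nat.Coprime e q) ∧ X0 ≤ (m : ℝ) / e) := ⟨_, rfl⟩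
  have hsub : (range (∏ q ∈ R, q)).filter (fun a => ¬ Good R z X0 m a) ⊆
      Es.biUnion (fun e => (range e).biUnion (fun c => B e c)) := by
    intro a ha
    rw [mem_filter] at ha
    obtain ⟨haR, hng⟩ := ha
    unfold Good at hng
    push Not at hng
    obtain ⟨e, he, hc, hXe, c, hlt⟩ := hng
    have he0 : (0 : ℝ) < e := by exact_mod_cast he
    rw [mem_biUnion]
    refine ⟨e, ?_, ?_⟩
    · rw [hEs, mem_filter, mem_Ioc]
      refine ⟨⟨he, ?_⟩, hc, hXe⟩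
      rw [le_div_iff₀ he0] at hXe
      have : (e : ℝ) ≤ m := by nlinarith
      exact_mod_cast this
    · rw [mem_biUnion]
      refine ⟨c % e, mem_range.2 (Nat.mod_lt _ he), ?_⟩
      rw [hB, mem_filter, AP_mod]
      exact ⟨haR, hlt⟩
  have hb : ∀ e ∈ Es, ∀ c, ((B e c).card : ℝ) ≤ 2 * (∏ q ∈ R, (q : ℝ)) * Real.exp (-(6 * K)) := by
    intro e he c
    rw [hEs, mem_filter, mem_Ioc] at he
    obtain ⟨⟨he0, -⟩, hc, hXe⟩ := he
    have hμ : X0 ≤ min ((m : ℝ) / e) z := le_min hXe hXz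
    have h1 : 6 * K * (1 + Λ) ≤ (min ((m : ℝ) / e) (z : ℝ)) ^ (1 / 2 : ℝ) * V R := by
      refine hexp.trans (mul_le_mul_of_nonneg_right ?_ (V_pos hR).le)
      exact Real.rpow_le_rpow (by linarith) hμ (by norm_num)
    rw [hB]
    exact conc_R R hR m e c z he0 hc hz0 hRz Λ (min ((m : ℝ) / e) z) K hK hΛ (hX.trans hμ)
      (min_le_left _ _) (min_le_right _ _) h1
  have h1 : (((range (∏ q ∈ R, q)).filter (fun a => ¬ Good R z X0 m a)).card : ℝ) ≤
      ∑ e ∈ Es, ∑ c ∈ range e, ((B e c).card : ℝ) := by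
    have h2 := (card_le_card hsub).trans card_biUnion_le
    have h3 : ∑ e ∈ Es, ((range e).biUnion (fun c => B e c)).card ≤
        ∑ e ∈ Es, ∑ c ∈ range e, (B e c).card := sum_le_sum fun e _ => card_biUnion_le
    exact_mod_cast h2.trans h3
  refine h1.trans ?_
  obtain ⟨T, hT⟩ : ∃ T, T = 2 * (∏ q ∈ R, (q : ℝ)) * Real.exp (-(6 * K)) := ⟨_, rfl⟩
  have hT0 : 0 ≤ T := by rw [hT]; positivity
  rw [← hT] at hb ⊢
  have h2 : ∀ e ∈ Es, ∑ c ∈ range e, ((B e c).card : ℝ) ≤ m * T := by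
    intro e he
    have h3 : ∑ c ∈ range e, ((B e c).card : ℝ) ≤ ∑ _c ∈ range e, T :=
      sum_le_sum fun c _ => hb e he c
    refine h3.trans ?_
    rw [sum_const, card_range, nsmul_eq_mul]
    rw [hEs, mem_filter, mem_Ioc] at he
    exact mul_le_mul_of_nonneg_right (by exact_mod_cast he.1.2) hT0
  refine (sum_le_sum h2).trans ?_
  rw [sum_const, nsmul_eq_mul]
  have h3 : (Es.card : ℝ) ≤ m := by
    have e1 : Es.card ≤ (Ioc 0 m).card := card_le_card (by rw [hEs]; exact filter_subset _ _)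
    rw [Nat.card_Ioc, Nat.sub_zero] at e1
    exact_mod_cast e1
  have h4 : 0 ≤ (m : ℝ) * T := by positivity
  calc (Es.card : ℝ) * (m * T) ≤ m * (m * T) := mul_le_mul_of_nonneg_right h3 h4
    _ = (m : ℝ) ^ 2 * T := by ring

/-- The second event: few survivors in short progressions, whatever the small primes do. -/
def EvB (R Sy E : Finset ℕ) (X1 K : ℝ) (m a : ℕ) : Prop :=
  ∀ p ∈ E, p ≤ m → (m : ℝ) / p < X1 → ∀ c b : ℕ,
    ((surv R a (surv Sy b (AP m p c))).card : ℝ) ≤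
      (V R * ((surv Sy b (AP m p c)).card : ℝ) + 8 * K) / Real.log 2

open Classical in
lemma evB_bad {R Sy E : Finset ℕ} (hR : ∀ q ∈ R, q.Prime) (hSy : ∀ q ∈ Sy, q.Prime)
    (hE : ∀ p ∈ E, p.Prime) (hd : Disjoint R E) {z : ℕ} (hRz : ∀ q ∈ R, z < q) {X1 K : ℝ}
    (hXz : X1 ≤ z) (m : ℕ) :
    (((range (∏ q ∈ R, q)).filter (fun a => ¬ EvB R Sy E X1 K m a)).card : ℝ) ≤
      (E.card : ℝ) * m * (∏ q ∈ Sy, (q : ℝ)) * ((∏ q ∈ R, (q : ℝ)) * Real.exp (-(8 * K))) := by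
  obtain ⟨B, hB⟩ : ∃ B : ℕ → ℕ → ℕ → Finset ℕ, B = fun p c b => (range (∏ q ∈ R, q)).filter
      (fun a => (V R * ((surv Sy b (AP m p c)).card : ℝ) + 8 * K) / Real.log 2 <
        ((surv R a (surv Sy b (AP m p c))).card : ℝ)) := ⟨_, rfl⟩
  obtain ⟨Es, hEs⟩ : ∃ Es, Es = E.filter (fun p : ℕ => p ≤ m ∧ (m : ℝ) / p < X1) := ⟨_, rfl⟩
  have hSy0 : 0 < ∏ q ∈ Sy, q := prod_pos fun q hq => (hSy q hq).pos
  have hsub : (range (∏ q ∈ R, q)).filter (fun a => ¬ EvB R Sy E X1 K m a) ⊆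
      Es.biUnion (fun p => (range p).biUnion (fun c =>
        (range (∏ q ∈ Sy, q)).biUnion (fun b => B p c b))) := by
    intro a ha
    rw [mem_filter] at ha
    obtain ⟨haR, hng⟩ := ha
    unfold EvB at hng
    push Not at hng
    obtain ⟨p, hp, hpm, hpX, c, b, hlt⟩ := hng
    rw [mem_biUnion]
    refine ⟨p, by rw [hEs, mem_filter]; exact ⟨hp, hpm, hpX⟩, ?_⟩
    rw [mem_biUnion]
    refine ⟨c % p, mem_range.2 (Nat.mod_lt _ (hE p hp).pos), ?_⟩
    rw [mem_biUnion]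
    refine ⟨b % ∏ q ∈ Sy, q, mem_range.2 (Nat.mod_lt _ hSy0), ?_⟩
    rw [hB, mem_filter, AP_mod, surv_mod']
    exact ⟨haR, hlt⟩
  have hl2 : 0 < Real.log 2 := Real.log_pos (by norm_num)
  obtain ⟨T, hT⟩ : ∃ T, T = (∏ q ∈ R, (q : ℝ)) * Real.exp (-(8 * K)) := ⟨_, rfl⟩
  have hT0 : 0 ≤ T := by rw [hT]; positivity
  have hb : ∀ p ∈ Es, ∀ c b, ((B p c b).card : ℝ) ≤ T := by
    intro p hp c b
    rw [hEs, mem_filter] at hp
    obtain ⟨hpE, hpm, hpX⟩ := hp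
    have hp0 : (0 : ℝ) < p := by exact_mod_cast (hE p hpE).pos
    have hL : m ≤ p * z := by
      rw [div_lt_iff₀ hp0] at hpX
      have : (m : ℝ) ≤ p * z := by nlinarith
      exact_mod_cast this
    have h1 := small_T R hR (surv Sy b (AP m p c)) m p c z (filter_subset _ _) (hE p hpE).pos
      (fun q hq => (Nat.coprime_primes (hE p hpE) (hR q hq)).2 (by
        rintro rfl
        exact disjoint_left.1 hd hq hpE)) hL hRz
      ((V R * ((surv Sy b (AP m p c)).card : ℝ) + 8 * K) / Real.log 2)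
    rw [hB]
    refine h1.trans (le_of_eq ?_)
    rw [div_mul_cancel₀ _ hl2.ne', hT]
    congr 2
    ring
  rw [← hT]
  have h1 : (((range (∏ q ∈ R, q)).filter (fun a => ¬ EvB R Sy E X1 K m a)).card : ℝ) ≤
      ∑ p ∈ Es, ∑ c ∈ range p, ∑ b ∈ range (∏ q ∈ Sy, q), ((B p c b).card : ℝ) := by
    have h2 := (card_le_card hsub).trans card_biUnion_le
    have h3 : ∑ p ∈ Es, ((range p).biUnion (fun c =>
        (range (∏ q ∈ Sy, q)).biUnion (fun b => B p c b))).card ≤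
        ∑ p ∈ Es, ∑ c ∈ range p, ∑ b ∈ range (∏ q ∈ Sy, q), (B p c b).card :=
      sum_le_sum fun p _ => card_biUnion_le.trans (sum_le_sum fun c _ => card_biUnion_le)
    exact_mod_cast h2.trans h3
  refine h1.trans ?_
  obtain ⟨NS, hNS⟩ : ∃ NS, NS = ∏ q ∈ Sy, (q : ℝ) := ⟨_, rfl⟩
  have hNS0 : 0 ≤ NS := by rw [hNS]; positivity
  rw [← hNS]
  have h2 : ∀ p ∈ Es, ∑ c ∈ range p, ∑ b ∈ range (∏ q ∈ Sy, q), ((B p c b).card : ℝ) ≤
      m * (NS * T) := by
    intro p hp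
    have h3 : ∀ c ∈ range p, ∑ b ∈ range (∏ q ∈ Sy, q), ((B p c b).card : ℝ) ≤ NS * T := by
      intro c _
      have h4 : ∑ b ∈ range (∏ q ∈ Sy, q), ((B p c b).card : ℝ) ≤
          ∑ _b ∈ range (∏ q ∈ Sy, q), T := sum_le_sum fun b _ => hb p hp c b
      refine h4.trans (le_of_eq ?_)
      rw [sum_const, card_range, nsmul_eq_mul, hNS]
      push_cast
      rfl
    refine (sum_le_sum h3).trans ?_
    rw [sum_const, card_range, nsmul_eq_mul]
    rw [hEs, mem_filter] at hp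
    exact mul_le_mul_of_nonneg_right (by exact_mod_cast hp.2.1) (by positivity)
  refine (sum_le_sum h2).trans ?_
  rw [sum_const, nsmul_eq_mul]
  have h3 : (Es.card : ℝ) ≤ E.card := by
    exact_mod_cast card_le_card (by rw [hEs]; exact filter_subset _ _)
  have h4 : 0 ≤ (m : ℝ) * (NS * T) := by positivity
  calc (Es.card : ℝ) * (m * (NS * T)) ≤ E.card * (m * (NS * T)) :=
        mul_le_mul_of_nonneg_right h3 h4
    _ = (E.card : ℝ) * m * NS * T := by ring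

theorem asymK (c C η : ℝ) (hc : 0 < c) (hC : 0 ≤ C) (hη : 0 < η) :
    ∀ᶠ k : ℕ in atTop, ∀ K : ℝ, Real.log k ≤ K → K ≤ Real.exp (Real.log k ^ (1 / 3 : ℝ)) →
      16 * (Real.log K + Real.log (Real.log k)) ≤ c * Real.log k / Real.log (Real.log k) ∧
      16 * (Real.log K + Real.log (Real.log k)) ≤ η * Real.log k ∧
      3 * (C * k * K * Real.log k + 1) ^ 2 ≤ Real.exp (5 * K) := by
  have hlog : Tendsto (fun k : ℕ => Real.log k) atTop atTop :=
    Real.tendsto_log_atTop.comp tendsto_natCast_atTop_atTop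
  have h1 : ∀ᶠ x : ℝ in atTop, Real.log x ≤ x ^ (1 / 12 : ℝ) := by
    have := (isLittleO_log_rpow_atTop (show (0 : ℝ) < 1 / 12 by norm_num)).bound one_pos
    filter_upwards [this, eventually_ge_atTop 1] with x hx hx1
    rw [one_mul, Real.norm_of_nonneg (Real.log_nonneg hx1),
      Real.norm_of_nonneg (Real.rpow_nonneg (by linarith) _)] at hx
    exact hx
  have h2 : ∀ᶠ x : ℝ in atTop, 32 / c ≤ x ^ (7 / 12 : ℝ) :=
    (tendsto_rpow_atTop (by norm_num)).eventually_ge_atTop _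
  have h3 : ∀ᶠ x : ℝ in atTop, 32 / η ≤ x ^ (2 / 3 : ℝ) :=
    (tendsto_rpow_atTop (by norm_num)).eventually_ge_atTop _
  filter_upwards [hlog.eventually h1, hlog.eventually h2, hlog.eventually h3,
    hlog.eventually_ge_atTop (72 * (C + 1) ^ 2), hlog.eventually_ge_atTop 3,
    eventually_ge_atTop 1] with k e1 e2 e3 e4 e5 e6 K hK1 hK2
  obtain ⟨x, hx⟩ : ∃ x, x = Real.log k := ⟨_, rfl⟩
  rw [← hx] at e1 e2 e3 e4 e5 hK1 hK2 ⊢
  have hk1 : (1 : ℝ) ≤ k := by exact_mod_cast e6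
  have hk0 : (0 : ℝ) < k := by linarith
  have hx0 : 0 < x := by linarith
  have hx1 : 1 ≤ x := by linarith
  have hlx : 0 < Real.log x := Real.log_pos (by linarith)
  have hK3 : 3 ≤ K := by linarith
  have hlK : Real.log K ≤ x ^ (1 / 3 : ℝ) := by
    rw [Real.log_le_iff_le_exp (by linarith)]; exact hK2
  have hlK0 : 0 ≤ Real.log K := Real.log_nonneg (by linarith)
  have hp : x ^ (1 / 12 : ℝ) ≤ x ^ (1 / 3 : ℝ) :=
    Real.rpow_le_rpow_of_exponent_le hx1 (by norm_num)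
  have hs : 16 * (Real.log K + Real.log x) ≤ 32 * x ^ (1 / 3 : ℝ) := by linarith
  refine ⟨?_, ?_, ?_⟩
  · rw [le_div_iff₀ hlx]
    calc 16 * (Real.log K + Real.log x) * Real.log x ≤
          32 * x ^ (1 / 3 : ℝ) * x ^ (1 / 12 : ℝ) :=
          mul_le_mul hs e1 hlx.le (by positivity)
      _ = 32 * x ^ (5 / 12 : ℝ) := by
        rw [mul_assoc, ← Real.rpow_add hx0]; norm_num
      _ ≤ c * (x ^ (7 / 12 : ℝ) * x ^ (5 / 12 : ℝ)) := by
        rw [div_le_iff₀ hc] at e2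
        have : 0 ≤ x ^ (5 / 12 : ℝ) := by positivity
        nlinarith
      _ = c * x := by
        rw [← Real.rpow_add hx0]; norm_num
  · refine hs.trans ?_
    rw [div_le_iff₀ hη] at e3
    have h4 : x = x ^ (2 / 3 : ℝ) * x ^ (1 / 3 : ℝ) := by
      rw [← Real.rpow_add hx0]; norm_num
    have h5 : 0 ≤ x ^ (1 / 3 : ℝ) := by positivity
    calc 32 * x ^ (1 / 3 : ℝ) ≤ x ^ (2 / 3 : ℝ) * η * x ^ (1 / 3 : ℝ) :=
          mul_le_mul_of_nonneg_right e3 h5
      _ = η * (x ^ (2 / 3 : ℝ) * x ^ (1 / 3 : ℝ)) := by ring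
      _ = η * x := by rw [← h4]
  · have hkK : (k : ℝ) ≤ Real.exp K := by
      calc (k : ℝ) = Real.exp x := by rw [hx, Real.exp_log hk0]
        _ ≤ Real.exp K := Real.exp_le_exp.2 hK1
    have hE1 : 1 ≤ Real.exp K := Real.one_le_exp (by linarith)
    have h4 : C * k * K * x + 1 ≤ (C + 1) * (Real.exp K * K ^ 2) := by
      have f1 : (k : ℝ) * K * x ≤ Real.exp K * K * K := by
        gcongr
      have f2 : C * (k * K * x) ≤ C * (Real.exp K * K * K) := mul_le_mul_of_nonneg_left f1 hC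
      have f3 : 1 ≤ Real.exp K * K ^ 2 := by nlinarith
      nlinarith
    have h5 : 0 ≤ C * k * K * x + 1 := by positivity
    have h6 : 3 * (C * k * K * x + 1) ^ 2 ≤ 3 * ((C + 1) * (Real.exp K * K ^ 2)) ^ 2 :=
      mul_le_mul_of_nonneg_left (pow_le_pow_left₀ h5 h4 2) (by norm_num)
    refine h6.trans ?_
    have h7 : K ^ 4 / 24 ≤ Real.exp K := by
      have := Real.pow_div_factorial_le_exp K (by linarith) 4
      simpa [Nat.factorial] using this
    have h8 : 72 * (C + 1) ^ 2 ≤ Real.exp (2 * K) := by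
      have := Real.add_one_le_exp (2 * K)
      linarith
    have h9 : Real.exp (5 * K) = Real.exp (2 * K) * (Real.exp K * Real.exp K ^ 2) := by
      rw [← Real.exp_nat_mul, ← Real.exp_add, ← Real.exp_add]
      congr 1
      push_cast
      ring
    rw [h9]
    have h10 : 3 * ((C + 1) * (Real.exp K * K ^ 2)) ^ 2 =
        (72 * (C + 1) ^ 2) * ((K ^ 4 / 24) * Real.exp K ^ 2) := by ring
    rw [h10]
    have h11 : 0 ≤ Real.exp K ^ 2 := by positivity
    exact mul_le_mul h8 (mul_le_mul_of_nonneg_right h7 h11) (by positivity) (Real.exp_pos _).le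

end Pool.Agent.H1.Jac
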