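import Pool.Agent.H1.Jac3.SemiB
import Pool.Agent.H1.Jac.Cheb
import Pool.Agent.H1.Jac.VBig
import Pool.Agent.H1.Jac.Mid2
import Pool.Agent.H1.Jac.AsymC

/-!
# The contribution of the largest primes
-/

set_option autoImplicit false

namespace Pool.Agent.H1.Jac

open Finset Filter

theorem class_three (ε : ℝ) (hε : 0 < ε) : ∃ c : ℝ, 0 < c ∧ c ≤ 1 / 4 ∧ ∀ B : ℝ, 1 ≤ B →
    ∃ k₀ : ℕ, ∀ k ≥ k₀, ∀ K : ℝ, Real.log k ≤ K → ∀ Q E : Finset ℕ, (∀ q ∈ Q, q.Prime) →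
    (∀ p ∈ E, p.Prime) → Disjoint Q E → Q.card ≤ k → E.card ≤ k →
    (∀ p ∈ E, ¬ (p : ℝ) ≤ k * Real.log k ^ (1 - c) / B) → ∀ m : ℕ,
    k * K * Real.log k ^ (1 - c) ≤ m → ∀ b : ℕ, ∀ cf : ℕ → ℕ,
    ∑ p ∈ E, ((surv Q b (AP m p (cf p))).card : ℝ) ≤ ε * (m * V Q) := by
  obtain ⟨CS, hCS, N, hN, hsieve⟩ := sieveU
  obtain ⟨c7, hc7, hVb⟩ := V_big
  obtain ⟨C9, hC9, hmid2⟩ := mid_two
  obtain ⟨N4, hN4⟩ : ∃ N4 : ℝ, N4 = 4 * N := ⟨_, rfl⟩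
  have hN40 : 0 < N4 := by
    rw [hN4]
    have : (1 : ℝ) ≤ N := by exact_mod_cast hN
    linarith
  obtain ⟨A, hA⟩ : ∃ A, A = CS * N4 * C9 / c7 := ⟨_, rfl⟩
  have hA0 : 0 < A := by rw [hA]; positivity
  obtain ⟨A', hA'⟩ : ∃ A', A' = CS * N4 / c7 := ⟨_, rfl⟩
  have hA'0 : 0 < A' := by rw [hA']; positivity
  obtain ⟨c, hc⟩ : ∃ c, c = min (1 / 4) (ε / (3 * A)) := ⟨_, rfl⟩
  have hcpos : 0 < c := by rw [hc]; positivity
  have hc4 : c ≤ 1 / 4 := by rw [hc]; exact min_le_left _ _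
  have hcs : A * c ≤ ε / 3 := by
    have h1 : c ≤ ε / (3 * A) := by rw [hc]; exact min_le_right _ _
    have h2 : A * (ε / (3 * A)) = ε / 3 := by field_simp
    rw [← h2]
    exact mul_le_mul_of_nonneg_left h1 hA0.le
  refine ⟨c, hcpos, hc4, ?_⟩
  intro B hB1
  have hB0 : 0 < B := by linarith
  have hlog : Tendsto (fun k : ℕ => Real.log k) atTop atTop :=
    Real.tendsto_log_atTop.comp tendsto_natCast_atTop_atTop
  have hllog : Tendsto (fun k : ℕ => Real.log (Real.log k)) atTop atTop :=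
    Real.tendsto_log_atTop.comp hlog
  have hpow : Tendsto (fun k : ℕ => Real.log k ^ (3 / 4 : ℝ)) atTop atTop :=
    (tendsto_rpow_atTop (by norm_num)).comp hlog
  have hpow4 : Tendsto (fun k : ℕ => Real.log k ^ (1 / 4 : ℝ)) atTop atTop :=
    (tendsto_rpow_atTop (by norm_num)).comp hlog
  have hev := (eventually_ge_atTop 3).and ((asymC N hN).and
      ((hllog.eventually_ge_atTop 1).and ((hllog.eventually_ge_atTop
        (A * (Real.log B + 1) * 3 / ε)).and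
      ((hpow4.eventually_ge_atTop (A' * 3 / ε)).and (hpow.eventually_ge_atTop B)))))
  obtain ⟨k₀, hk₀⟩ := eventually_atTop.1 hev
  refine ⟨k₀, ?_⟩
  intro k hk K hK Q E hQ hE hd hQk hEk hEy m hm b cf
  obtain ⟨a7, ⟨y, hy2, hyk, hyN, hly⟩, a8', a9', a10, a11⟩ := hk₀ k hk
  clear hk₀ hev
  obtain ⟨ℓ, hℓ⟩ : ∃ ℓ, ℓ = Real.log k := ⟨_, rfl⟩
  rw [← hℓ] at hyN hly a8' a9' a10 a11 hK hEy hm
  have hk3 : (3 : ℝ) ≤ k := by exact_mod_cast a7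
  have hℓ1 : 1 ≤ ℓ := by
    rw [hℓ, Real.le_log_iff_exp_le (by linarith)]
    have := Real.exp_one_lt_d9
    linarith
  have hℓ0 : 0 < ℓ := by linarith
  have hlℓ : 0 < Real.log ℓ := by linarith
  have hK0 : 0 < K := by linarith
  have hk0 : (0 : ℝ) < k := by linarith
  have hv : 0 < V Q := V_pos hQ
  have hpw : 0 < ℓ ^ (1 - c) := Real.rpow_pos_of_pos hℓ0 _
  have hM : (0 : ℝ) < m := lt_of_lt_of_le (by positivity) hm
  obtain ⟨vy, hvy⟩ : ∃ vy, vy = V (Q.filter (fun q => ¬ y < q)) := ⟨_, rfl⟩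
  have hvy0 : 0 < vy := by
    rw [hvy]; exact V_pos fun q hq => hQ q (mem_filter.1 hq).1
  have hvyle : vy ≤ N4 / c7 * (V Q * ℓ / Real.log ℓ) := by
    have e1 := hVb k a7 y hy2 hyk Q hQ hQk
    rw [← hℓ] at e1
    have e2 : V Q = V (Q.filter (fun q => y < q)) * vy := by
      rw [hvy]
      unfold V
      exact (prod_filter_mul_prod_filter_not Q (fun q => y < q) _).symm
    have e3 : Real.log ℓ / N4 ≤ Real.log y := by rw [hN4]; exact hly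
    have e4 : c7 * (Real.log ℓ / N4) / ℓ ≤ V (Q.filter (fun q => y < q)) := by
      refine le_trans ?_ e1
      gcongr
    have e5 : c7 * (Real.log ℓ / N4) / ℓ * vy ≤ V Q := by
      rw [e2]; exact mul_le_mul_of_nonneg_right e4 hvy0.le
    have e6 : vy = N4 / c7 * ((c7 * (Real.log ℓ / N4) / ℓ * vy) * ℓ / Real.log ℓ) := by
      field_simp
    rw [e6]
    gcongr
  have hBℓ : B * ℓ ^ c ≤ ℓ := by
    have e1 : B * ℓ ^ c ≤ ℓ ^ (3 / 4 : ℝ) * ℓ ^ c :=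
      mul_le_mul_of_nonneg_right a11 (Real.rpow_nonneg hℓ0.le _)
    rw [← Real.rpow_add hℓ0] at e1
    have e2 := Real.rpow_le_rpow_of_exponent_le hℓ1 (show 3 / 4 + c ≤ 1 by linarith)
    rw [Real.rpow_one] at e2
    exact e1.trans e2
  have hlogZ : Real.log (B * ℓ ^ c) = Real.log B + c * Real.log ℓ := by
    rw [Real.log_mul hB0.ne' (Real.rpow_pos_of_pos hℓ0 _).ne', Real.log_rpow hℓ0]
  have hS3 := hmid2 k a7 (B * ℓ ^ c) (one_le_mul_of_one_le_of_one_le hB1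
    (Real.one_le_rpow hℓ1 hcpos.le)) (by rw [← hℓ]; exact hBℓ) E hE hEk (by
      intro p hp
      have h1 := not_le.1 (hEy p hp)
      rw [← hℓ]
      refine lt_of_le_of_lt (le_of_eq ?_) h1
      rw [Real.rpow_sub hℓ0, Real.rpow_one]
      field_simp)
  rw [← hℓ, hlogZ] at hS3
  have hcop : ∀ p ∈ E, ∀ q ∈ Q, Nat.Coprime p q := by
    intro p hp q hq
    refine (Nat.coprime_primes (hE p hp) (hQ q hq)).2 ?_
    rintro rfl
    exact disjoint_left.1 hd hq hp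
  have h1 : ∑ p ∈ E, ((surv Q b (AP m p (cf p))).card : ℝ) ≤
      CS * vy * ((m : ℝ) * (∑ p ∈ E, 1 / (p : ℝ)) + k * (y : ℝ) ^ N) := by
    have e1 : ∀ p ∈ E, ((surv Q b (AP m p (cf p))).card : ℝ) ≤
        CS * vy * ((m : ℝ) * (1 / (p : ℝ)) + (y : ℝ) ^ N) := by
      intro p hp
      rw [hvy]
      exact det_big hsieve hQ hy2 (hE p hp).pos (hcop p hp) b (cf p)
    refine (sum_le_sum e1).trans ?_
    rw [← mul_sum, sum_add_distrib, ← mul_sum, sum_const, nsmul_eq_mul]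
    have e2 : (E.card : ℝ) ≤ k := by exact_mod_cast hEk
    gcongr
  refine h1.trans ?_
  have hMv : 0 < m * V Q := by positivity
  have hsum0 : 0 ≤ ∑ p ∈ E, 1 / (p : ℝ) := sum_nonneg fun _ _ => by positivity
  have h6 : CS * vy * (m * ∑ p ∈ E, 1 / (p : ℝ)) ≤ (A * c +
      A * ((Real.log B + 1) / Real.log ℓ)) * (m * V Q) := by
    have e1 : CS * vy * (m * ∑ p ∈ E, 1 / (p : ℝ)) ≤ CS * (N4 / c7 * (V Q * ℓ / Real.log ℓ)) *
        (m * (C9 * (Real.log B + c * Real.log ℓ + 1) / ℓ)) :=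
      mul_le_mul (mul_le_mul_of_nonneg_left hvyle hCS.le) (mul_le_mul_of_nonneg_left hS3 hM.le)
        (by positivity) (by positivity)
    refine e1.trans (le_of_eq ?_)
    rw [hA]
    field_simp
    ring
  have h7 : CS * vy * (k * (y : ℝ) ^ N) ≤ A' * (ℓ ^ (-(1 / 4) : ℝ) / Real.log ℓ) * (m * V Q) := by
    have e1 : CS * vy * (k * (y : ℝ) ^ N) ≤
        CS * (N4 / c7 * (V Q * ℓ / Real.log ℓ)) * (k * ℓ ^ (1 / 2 : ℝ)) :=
      mul_le_mul (mul_le_mul_of_nonneg_left hvyle hCS.le) (mul_le_mul_of_nonneg_left hyN hk0.le)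
        (by positivity) (by positivity)
    have e2 : k * (ℓ * ℓ ^ (1 / 2 : ℝ)) ≤ ℓ ^ (-(1 / 4) : ℝ) * m := by
      have e3 : ℓ * ℓ ^ (1 / 2 : ℝ) = ℓ ^ (-(1 / 4) : ℝ) * ℓ ^ (7 / 4 : ℝ) := by
        rw [← Real.rpow_add hℓ0, ← Real.rpow_one_add' hℓ0.le (by norm_num)]
        norm_num
      have e4 : ℓ ^ (7 / 4 : ℝ) ≤ K * ℓ ^ (1 - c) := by
        have e5 : ℓ ^ (7 / 4 : ℝ) ≤ ℓ ^ (1 + (1 - c)) :=
          Real.rpow_le_rpow_of_exponent_le hℓ1 (by linarith)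
        have e6 : ℓ ^ (1 + (1 - c)) = ℓ * ℓ ^ (1 - c) := by
          rw [Real.rpow_add hℓ0, Real.rpow_one]
        rw [e6] at e5
        exact e5.trans (mul_le_mul_of_nonneg_right hK hpw.le)
      have e5 : 0 < ℓ ^ (-(1 / 4) : ℝ) := Real.rpow_pos_of_pos hℓ0 _
      calc k * (ℓ * ℓ ^ (1 / 2 : ℝ)) = ℓ ^ (-(1 / 4) : ℝ) * (k * ℓ ^ (7 / 4 : ℝ)) := by
            rw [e3]; ring
        _ ≤ ℓ ^ (-(1 / 4) : ℝ) * (k * (K * ℓ ^ (1 - c))) := by gcongr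
        _ ≤ ℓ ^ (-(1 / 4) : ℝ) * m := by
            refine mul_le_mul_of_nonneg_left ?_ e5.le
            linarith
    have e3 : CS * (N4 / c7 * (V Q * ℓ / Real.log ℓ)) * (k * ℓ ^ (1 / 2 : ℝ)) =
        A' * (V Q / Real.log ℓ) * (k * (ℓ * ℓ ^ (1 / 2 : ℝ))) := by rw [hA']; ring
    rw [e3] at e1
    refine e1.trans ?_
    have e4 : A' * (ℓ ^ (-(1 / 4) : ℝ) / Real.log ℓ) * (m * V Q) =
        A' * (V Q / Real.log ℓ) * (ℓ ^ (-(1 / 4) : ℝ) * m) := by ring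
    rw [e4]
    exact mul_le_mul_of_nonneg_left e2 (by positivity)
  have has2 : A * ((Real.log B + 1) / Real.log ℓ) ≤ ε / 3 := by
    rw [← mul_div_assoc, div_le_iff₀ hlℓ]
    rw [div_le_iff₀ hε] at a9'
    linarith
  have has3 : A' * (ℓ ^ (-(1 / 4) : ℝ) / Real.log ℓ) ≤ ε / 3 := by
    have e1 : ℓ ^ (-(1 / 4) : ℝ) = (ℓ ^ (1 / 4 : ℝ))⁻¹ := Real.rpow_neg hℓ0.le _
    have e2 : ℓ ^ (-(1 / 4) : ℝ) / Real.log ℓ ≤ ℓ ^ (-(1 / 4) : ℝ) :=
      div_le_self (Real.rpow_nonneg hℓ0.le _) a8'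
    refine (mul_le_mul_of_nonneg_left e2 hA'0.le).trans ?_
    rw [e1]
    have e3 : 0 < ℓ ^ (1 / 4 : ℝ) := Real.rpow_pos_of_pos hℓ0 _
    rw [← div_eq_mul_inv, div_le_iff₀ e3]
    rw [div_le_iff₀ hε] at a10
    linarith
  have e1 : (A * c + A * ((Real.log B + 1) / Real.log ℓ)) * (m * V Q) ≤
      (ε / 3 + ε / 3) * (m * V Q) := mul_le_mul_of_nonneg_right (add_le_add hcs has2) hMv.le
  have e2 : A' * (ℓ ^ (-(1 / 4) : ℝ) / Real.log ℓ) * (m * V Q) ≤ ε / 3 * (m * V Q) :=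
    mul_le_mul_of_nonneg_right has3 hMv.le
  rw [mul_add]
  linarith

end Pool.Agent.H1.Jac
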