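import Pool.Agent.H1.Jac3.SemiC

/-!
# The contribution of the primes that are not among the largest
-/

set_option autoImplicit false

namespace Pool.Agent.H1.Jac

open Finset Filter

/-- asymptotic facts about `X0 = (K ℓ) ^ 8` -/
lemma X0_facts {K ℓ c0 C2 δ : ℝ} (hℓ : 1 ≤ ℓ) (hK : ℓ ≤ K) (hc0 : 0 < c0) (hδ : 0 < δ)
    (h1 : 10 * Real.exp C2 / (δ * c0) ≤ ℓ) (h2 : 7 / c0 ≤ ℓ) (h3 : 4 ≤ ℓ ^ (1 / 25 : ℝ)) :
    1 ≤ (K * ℓ) ^ 8 ∧ ((K * ℓ) ^ 8) ^ 2 = (K * ℓ) ^ 16 ∧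
    5 * ((K * ℓ) ^ 8) ^ (-(1 / 4) : ℝ) * Real.exp (Real.log ℓ + C2) ≤ δ / 2 * (c0 / ℓ) ∧
    4 ≤ ((K * ℓ) ^ 8) ^ (1 / 400 : ℝ) ∧ 7 * ((K * ℓ) ^ 8) ^ (-(13 / 100) : ℝ) ≤ c0 / ℓ := by
  have hℓ0 : 0 < ℓ := by linarith
  have hK0 : 0 < K := by linarith
  have hKℓ : 0 < K * ℓ := by positivity
  have hge : ℓ ^ 2 ≤ K * ℓ := by nlinarith
  have hge1 : 1 ≤ K * ℓ := le_trans (one_le_pow₀ hℓ) hge
  have hrp : ∀ s : ℝ, ((K * ℓ) ^ 8) ^ s = (K * ℓ) ^ (8 * s) := by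
    intro s
    rw [← Real.rpow_natCast, ← Real.rpow_mul hKℓ.le]
    norm_num
  refine ⟨one_le_pow₀ hge1, by ring, ?_, ?_, ?_⟩
  · rw [hrp]
    have e1 : (K * ℓ) ^ (8 * (-(1 / 4)) : ℝ) ≤ (ℓ ^ 4)⁻¹ := by
      have e2 : (8 * (-(1 / 4)) : ℝ) = -((2 : ℕ) : ℝ) := by norm_num
      rw [e2, Real.rpow_neg hKℓ.le, Real.rpow_natCast]
      apply inv_anti₀ (by positivity)
      calc ℓ ^ 4 = (ℓ ^ 2) ^ 2 := by ring
        _ ≤ (K * ℓ) ^ 2 := pow_le_pow_left₀ (by positivity) hge 2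
    rw [Real.exp_add, Real.exp_log hℓ0]
    have e3 : 5 * (K * ℓ) ^ (8 * (-(1 / 4)) : ℝ) * (ℓ * Real.exp C2) ≤
        5 * (ℓ ^ 4)⁻¹ * (ℓ * Real.exp C2) := by gcongr
    refine e3.trans ?_
    rw [div_le_iff₀ (by positivity)] at h1
    have e4 : 5 * (ℓ ^ 4)⁻¹ * (ℓ * Real.exp C2) = 5 * Real.exp C2 / ℓ ^ 3 := by
      field_simp
    have e5 : δ / 2 * (c0 / ℓ) = (δ * c0 / 2 * ℓ ^ 2) / ℓ ^ 3 := by
      field_simp
    rw [e4, e5]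
    apply div_le_div_of_nonneg_right _ (by positivity)
    have e6 : ℓ * (δ * c0) ≤ ℓ ^ 2 * (δ * c0) :=
      mul_le_mul_of_nonneg_right (by nlinarith) (by positivity)
    nlinarith
  · rw [hrp]
    refine h3.trans ?_
    calc ℓ ^ (1 / 25 : ℝ) = (ℓ ^ 2) ^ (1 / 50 : ℝ) := by
          rw [← Real.rpow_natCast, ← Real.rpow_mul hℓ0.le]; norm_num
      _ ≤ (K * ℓ) ^ (1 / 50 : ℝ) := Real.rpow_le_rpow (by positivity) hge (by norm_num)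
      _ = (K * ℓ) ^ (8 * (1 / 400) : ℝ) := by norm_num
  · rw [hrp]
    have e1 : (K * ℓ) ^ (8 * (-(13 / 100)) : ℝ) ≤ (ℓ ^ 2)⁻¹ := by
      calc (K * ℓ) ^ (8 * (-(13 / 100)) : ℝ) ≤ (K * ℓ) ^ (-((1 : ℕ) : ℝ)) :=
            Real.rpow_le_rpow_of_exponent_le hge1 (by norm_num)
        _ = (K * ℓ)⁻¹ := by rw [Real.rpow_neg hKℓ.le, Real.rpow_natCast, pow_one]
        _ ≤ (ℓ ^ 2)⁻¹ := inv_anti₀ (by positivity) hge
    rw [div_le_iff₀ hc0] at h2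
    calc 7 * (K * ℓ) ^ (8 * (-(13 / 100)) : ℝ) ≤ 7 * (ℓ ^ 2)⁻¹ := by linarith
      _ ≤ ℓ * c0 * (ℓ ^ 2)⁻¹ := mul_le_mul_of_nonneg_right h2 (by positivity)
      _ = c0 / ℓ := by field_simp

/-- the bounds of the three classes together -/
lemma sum_classes {E' : Finset ℕ} {δ M v A3 K Ck Ca X X1 lz lK : ℝ}
    {g : ℕ → ℝ} (hδ : 0 ≤ δ) (hM : 0 ≤ M) (hv : 0 ≤ v) (hA3 : 0 ≤ A3 * K) (hCk : 0 ≤ Ck)
    (h1 : ∀ p ∈ E', (p : ℝ) * X ≤ M → g p ≤ (1 + δ) * (M * v) * (1 / (p : ℝ)))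
    (h2 : ∀ p ∈ E', ¬ (p : ℝ) * X ≤ M → X1 ≤ M / p →
      g p ≤ Ck * (M / p * v * (1 + lz * (1 / Real.log (M / p)))))
    (h3 : ∀ p ∈ E', ¬ (p : ℝ) * X ≤ M → ¬ X1 ≤ M / p →
      g p ≤ Ca * (lz / lK) * (M * (1 / (p : ℝ)) * v) + A3 * K) :
    ∑ p ∈ E', g p ≤ (1 + δ) * (M * v) * (∑ p ∈ E', 1 / (p : ℝ)) + A3 * K * E'.card +
      Ck * (M * v) * ((∑ p ∈ E'.filter (fun p : ℕ => ¬ (p : ℝ) * X ≤ M), 1 / (p : ℝ)) +
        lz * ∑ p ∈ (E'.filter (fun p : ℕ => ¬ (p : ℝ) * X ≤ M)).filter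
          (fun p : ℕ => X1 ≤ M / p), 1 / (p : ℝ) * (1 / Real.log (M / p))) +
      Ca * (lz / lK) * (M * v) * ∑ p ∈ (E'.filter (fun p : ℕ => ¬ (p : ℝ) * X ≤ M)).filter
          (fun p : ℕ => ¬ X1 ≤ M / p), 1 / (p : ℝ) := by
  have h4 : ∀ p ∈ E', g p ≤ (1 + δ) * (M * v) * (1 / (p : ℝ)) + (A3 * K +
      (if ¬ (p : ℝ) * X ≤ M then ((if X1 ≤ M / p then Ck * (M * v) * (1 / (p : ℝ) +
        lz * (1 / (p : ℝ) * (1 / Real.log (M / p)))) else 0) + (if ¬ X1 ≤ M / p then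
        Ca * (lz / lK) * (M * v) * (1 / (p : ℝ)) else 0)) else 0)) := by
    intro p hp
    have e3 : 0 ≤ (1 + δ) * (M * v) * (1 / (p : ℝ)) := by positivity
    by_cases hpX : (p : ℝ) * X ≤ M
    · rw [if_neg (not_not.2 hpX)]
      have := h1 p hp hpX
      linarith
    · rw [if_pos hpX]
      by_cases hA : X1 ≤ M / p
      · rw [if_pos hA, if_neg (not_not.2 hA)]
        have e1 := h2 p hp hpX hA
        have e2 : Ck * (M / p * v * (1 + lz * (1 / Real.log (M / p)))) =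
            Ck * (M * v) * (1 / (p : ℝ) + lz * (1 / (p : ℝ) * (1 / Real.log (M / p)))) := by ring
        rw [e2] at e1
        linarith
      · rw [if_neg hA, if_pos hA]
        have e1 := h3 p hp hpX hA
        have e2 : Ca * (lz / lK) * (M * (1 / (p : ℝ)) * v) =
            Ca * (lz / lK) * (M * v) * (1 / (p : ℝ)) := by ring
        rw [e2] at e1
        linarith
  refine (sum_le_sum h4).trans ?_
  obtain ⟨E2, hE2⟩ : ∃ E2, E2 = E'.filter (fun p : ℕ => ¬ (p : ℝ) * X ≤ M) := ⟨_, rfl⟩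
  obtain ⟨E3, hE3⟩ : ∃ E3, E3 = E2.filter (fun p : ℕ => X1 ≤ M / p) := ⟨_, rfl⟩
  obtain ⟨E4, hE4⟩ : ∃ E4, E4 = E2.filter (fun p : ℕ => ¬ X1 ≤ M / p) := ⟨_, rfl⟩
  have e0 : ∑ _p ∈ E', A3 * K = A3 * K * E'.card := by
    rw [sum_const, nsmul_eq_mul, mul_comm]
  have e4 : ∑ p ∈ E3, Ck * (M * v) * (1 / (p : ℝ) +
      lz * (1 / (p : ℝ) * (1 / Real.log (M / p)))) = Ck * (M * v) *
      ((∑ p ∈ E3, 1 / (p : ℝ)) + lz * ∑ p ∈ E3, 1 / (p : ℝ) * (1 / Real.log (M / p))) := by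
    rw [← mul_sum, sum_add_distrib, ← mul_sum]
  rw [sum_add_distrib, sum_add_distrib, ← mul_sum, ← sum_filter, ← hE2, sum_add_distrib,
    ← sum_filter, ← sum_filter, ← hE3, ← hE4, e0, e4, ← mul_sum]
  have e2 : ∑ p ∈ E3, 1 / (p : ℝ) ≤ ∑ p ∈ E2, 1 / (p : ℝ) :=
    sum_le_sum_of_subset_of_nonneg (by rw [hE3]; exact filter_subset _ _) fun _ _ _ => by positivity
  have e3 : Ck * (M * v) * (∑ p ∈ E3, 1 / (p : ℝ)) ≤
      Ck * (M * v) * (∑ p ∈ E2, 1 / (p : ℝ)) := mul_le_mul_of_nonneg_left e2 (by positivity)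
  rw [mul_add, mul_add]
  linarith

/-- the last inequality -/
lemma final_main {ε δ Ck Ca M v S S2 S3 S4 lz lK A : ℝ} (hε : 0 < ε) (hδ : δ = ε / 20)
    (hM : 0 < M) (hv : 0 < v) (hS : S ≤ 1 - ε)
    (h2 : Ck * (S2 + lz * S3) ≤ ε / 16) (h3 : Ca * (lz / lK) * S4 ≤ ε / 48) :
    (1 + δ) * (M * v) * S + A + Ck * (M * v) * (S2 + lz * S3) +
      Ca * (lz / lK) * (M * v) * S4 ≤ (1 - 3 * ε / 4) * (M * v) + A := by
  have hMv : 0 < M * v := by positivity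
  have h4 : Ck * (M * v) * (S2 + lz * S3) ≤ ε / 16 * (M * v) := by
    have e1 : Ck * (M * v) * (S2 + lz * S3) = Ck * (S2 + lz * S3) * (M * v) := by ring
    rw [e1]
    exact mul_le_mul_of_nonneg_right h2 hMv.le
  have h5 : Ca * (lz / lK) * (M * v) * S4 ≤ ε / 48 * (M * v) := by
    have e1 : Ca * (lz / lK) * (M * v) * S4 = Ca * (lz / lK) * S4 * (M * v) := by ring
    rw [e1]
    exact mul_le_mul_of_nonneg_right h3 hMv.le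
  have h6 : (1 + δ) * (M * v) * S ≤ (1 + δ) * (M * v) * (1 - ε) := by
    refine mul_le_mul_of_nonneg_left hS ?_
    rw [hδ]; positivity
  have h7 : (1 + δ) * (M * v) * (1 - ε) + ε / 12 * (M * v) ≤ (1 - 3 * ε / 4) * (M * v) := by
    rw [hδ]
    have : 0 < ε * (M * v) := by positivity
    nlinarith [mul_pos hε this]
  linarith

end Pool.Agent.H1.Jac
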