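import Pool.Agent.H1.Jac3.SemiD

/-!
# The main estimate for a good residue
-/

set_option autoImplicit false

namespace Pool.Agent.H1.Jac

open Finset Filter

theorem class_main (ε : ℝ) (hε : 0 < ε) (hε1 : ε ≤ 1) : ∃ N : ℕ, ∃ c1 A3 : ℝ, 0 < c1 ∧ 0 < A3 ∧
    ∀ c2 : ℝ, 0 < c2 → c2 ≤ c1 → ∃ k₀ : ℕ, ∀ k ≥ k₀, ∀ K : ℝ, Real.log k ≤ K →
    K ≤ Real.exp (Real.log k ^ (1 / 3 : ℝ)) → ∀ z : ℕ, 3 ≤ z →
    (z : ℝ) ≤ Real.exp (c2 * Real.log k / Real.log (Real.log k)) →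
    c2 / 2 * Real.log k / Real.log (Real.log k) ≤ Real.log z →
    ∀ R S E : Finset ℕ, (∀ q ∈ R, q.Prime) → (∀ q ∈ S, q.Prime) → (∀ p ∈ E, p.Prime) →
    Disjoint R S → Disjoint (R ∪ S) E → (∀ q ∈ S, q ≤ z) → (R ∪ S).card ≤ k → E.card ≤ k →
    ∑ p ∈ E, 1 / (p : ℝ) ≤ 1 - ε → ∀ m : ℕ, (k : ℝ) ≤ m → ∀ b : ℕ, ∀ cf : ℕ → ℕ,
    Good R z ((K * Real.log k) ^ 8) m b →
    EvB R (S.filter (fun q => ¬ ⌊K ^ (1 / ((N : ℝ) + 1))⌋₊ < q)) E ((K * Real.log k) ^ 16) K m b →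
    ∀ E' ⊆ E, (∀ p ∈ E', p ≤ m) →
    (1 - ε / 20) * (m * V (R ∪ S)) ≤ ((surv (R ∪ S) b (range m)).card : ℝ) ∧
    ∑ p ∈ E', ((surv (R ∪ S) b (AP m p (cf p))).card : ℝ) ≤
      (1 - 3 * ε / 4) * (m * V (R ∪ S)) + A3 * K * E'.card := by
  obtain ⟨C2, hC2, hsum⟩ := sum_le
  obtain ⟨c0, hc0, hV⟩ := V_ge
  obtain ⟨C6, hC6, hmid⟩ := mid_sum
  obtain ⟨CS, hCS, N, hN, hsieve⟩ := sieveU
  obtain ⟨C1, hC1, hVs⟩ := V_small
  obtain ⟨Cab, hCab, hab⟩ := ab_R
  obtain ⟨Cw, hCw, kw, hw⟩ := w_sum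
  obtain ⟨δ, hδ⟩ : ∃ δ, δ = ε / 20 := ⟨_, rfl⟩
  have hδ0 : 0 < δ := by rw [hδ]; positivity
  obtain ⟨Ck, hCk⟩ : ∃ Ck, Ck = 1600 * Cab * C1 := ⟨_, rfl⟩
  have hCk0 : 0 < Ck := by rw [hCk]; positivity
  obtain ⟨Ca, hCa⟩ : ∃ Ca, Ca = 4 * CS * C1 * ((N : ℝ) + 1) := ⟨_, rfl⟩
  have hCa0 : 0 < Ca := by rw [hCa]; positivity
  obtain ⟨A3, hA3⟩ : ∃ A3, A3 = 2 * CS + 16 := ⟨_, rfl⟩
  have hA30 : 0 < A3 := by rw [hA3]; positivity
  obtain ⟨η, hη⟩ : ∃ η, η = min (1 / 4) (ε / (48 * Ck * C6)) := ⟨_, rfl⟩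
  have hη0 : 0 < η := by rw [hη]; positivity
  have hη2 : η ≤ 1 / 4 := by rw [hη]; exact min_le_left _ _
  have hηs : Ck * C6 * η ≤ ε / 48 := by
    have h1 : η ≤ ε / (48 * Ck * C6) := by rw [hη]; exact min_le_right _ _
    have h2 : Ck * C6 * (ε / (48 * Ck * C6)) = ε / 48 := by field_simp
    rw [← h2]
    exact mul_le_mul_of_nonneg_left h1 (by positivity)
  obtain ⟨c1', hc1', hev1⟩ := asymR (δ / 2) c0 C2 (η / 2) (by positivity) hc0 hC2 (by positivity)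
  obtain ⟨c1, hc1⟩ : ∃ c1, c1 = min c1' (ε / (48 * Ck * Cw)) := ⟨_, rfl⟩
  have hc10 : 0 < c1 := by rw [hc1]; positivity
  have hc1s : Ck * Cw * c1 ≤ ε / 48 := by
    have h1 : c1 ≤ ε / (48 * Ck * Cw) := by rw [hc1]; exact min_le_right _ _
    have h2 : Ck * Cw * (ε / (48 * Ck * Cw)) = ε / 48 := by field_simp
    rw [← h2]
    exact mul_le_mul_of_nonneg_left h1 (by positivity)
  refine ⟨N, c1, A3, hc10, hA30, ?_⟩
  intro c2 hc20 hc21
  -- asymptotics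
  have hlog : Tendsto (fun k : ℕ => Real.log k) atTop atTop :=
    Real.tendsto_log_atTop.comp tendsto_natCast_atTop_atTop
  have hllog : Tendsto (fun k : ℕ => Real.log (Real.log k)) atTop atTop :=
    Real.tendsto_log_atTop.comp hlog
  have hlo : Tendsto (fun k : ℕ => (Real.log (Real.log k) + 1) / Real.log k) atTop (nhds 0) := by
    have h1 : Tendsto (fun x : ℝ => (Real.log x + 1) / x) atTop (nhds 0) := by
      have e1 : Tendsto (fun x : ℝ => Real.log x / x) atTop (nhds 0) := by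
        have := Real.isLittleO_log_id_atTop.tendsto_div_nhds_zero
        simpa using this
      have e2 : Tendsto (fun x : ℝ => 1 / x) atTop (nhds 0) := by
        simpa using tendsto_inv_atTop_zero (𝕜 := ℝ)
      have e3 := e1.add e2
      simp only [add_zero] at e3
      refine e3.congr fun x => ?_
      rw [add_div]
    exact h1.comp hlog
  have hp25 : Tendsto (fun k : ℕ => Real.log k ^ (1 / 25 : ℝ)) atTop atTop :=
    (tendsto_rpow_atTop (by norm_num)).comp hlog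
  have hpN : Tendsto (fun k : ℕ => Real.log k ^ (1 / ((N : ℝ) + 1))) atTop atTop :=
    (tendsto_rpow_atTop (by positivity)).comp hlog
  have hev := hev1.and ((hlo.eventually_lt_const (show 0 < ε / (48 * Ck * C6) by positivity)).and
    ((hllog.eventually_ge_atTop (34 * 48 * Ca * C6 * c2 / ε)).and
    ((hllog.eventually_ge_atTop 1).and
    ((asymK (c2 / 2) 0 (η / 2) (by positivity) le_rfl (by positivity)).and
    ((hlog.eventually_ge_atTop (10 * Real.exp C2 / (δ * c0))).and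
    ((hlog.eventually_ge_atTop (7 / c0)).and ((hp25.eventually_ge_atTop 4).and
    ((hpN.eventually_ge_atTop 4).and
    ((eventually_ge_atTop kw).and (eventually_ge_atTop 3))))))))))
  obtain ⟨k₀, hk₀⟩ := eventually_atTop.1 hev
  refine ⟨k₀, ?_⟩
  intro k hk K hK1 hK2 z hz3 hz hlz2 R S E hR hS hE hRS hRSE hSz hQk hEk hSE m hkm b cf hgood hev2
    E' hE' hE'm
  obtain ⟨⟨r, a1, a2⟩, a3, a4, a5, a6, a7, a8, a9, a10, a11, a12⟩ := hk₀ k hk
  obtain ⟨a61, a62, -⟩ := a6 K hK1 hK2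
  clear hk₀ hev a6
  obtain ⟨ℓ, hℓ⟩ : ∃ ℓ, ℓ = Real.log k := ⟨_, rfl⟩
  rw [← hℓ] at a1 a3 a4 a5 a61 a62 a7 a8 a9 a10 hz hlz2 hK1 hgood hev2
  have hk3 : (3 : ℝ) ≤ k := by exact_mod_cast a12
  have hk0 : (0 : ℝ) < k := by linarith
  have hk1 : (1 : ℝ) ≤ k := by linarith
  have hlℓ : 0 < Real.log ℓ := by linarith
  have hℓ0 : 0 < ℓ := by
    by_contra hcon
    have h1 : ℓ ≤ 0 := not_lt.1 hcon
    have h2 : 0 < Real.log k := Real.log_pos (by linarith)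
    rw [← hℓ] at h2
    linarith
  have hℓ1 : 1 ≤ ℓ := by
    rw [← Real.log_nonneg_iff hℓ0]; exact hlℓ.le
  have hK0 : 1 ≤ K := hℓ1.trans hK1
  have hKpos : 0 < K := by linarith
  have hlKℓ : Real.log ℓ ≤ Real.log K := Real.log_le_log hℓ0 hK1
  have hlK1 : 1 ≤ Real.log K := a5.trans hlKℓ
  obtain ⟨hX01, hX01', hb1, hb2, hb3⟩ := X0_facts (C2 := C2) (c0 := c0) (δ := δ) hℓ1 hK1 hc0 hδ0
    a7 a8 a9
  obtain ⟨X0, hX0⟩ : ∃ X0, X0 = (K * ℓ) ^ 8 := ⟨_, rfl⟩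
  obtain ⟨X1, hX1⟩ : ∃ X1, X1 = (K * ℓ) ^ 16 := ⟨_, rfl⟩
  rw [← hX0] at hX01 hX01' hb1 hb2 hb3 hgood
  rw [← hX1] at hX01' hev2
  have hX00 : 0 < X0 := by linarith
  have hX1ge : X0 ≤ X1 := by rw [← hX01']; exact le_self_pow₀ hX01 (by norm_num)
  have hX11 : 1 ≤ X1 := hX01.trans hX1ge
  have hlX1 : Real.log X1 = 16 * (Real.log K + Real.log ℓ) := by
    rw [hX1, Real.log_pow, Real.log_mul hKpos.ne' hℓ0.ne']
    norm_num
  have hz1 : (1 : ℝ) < z := by exact_mod_cast (by omega : 1 < z)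
  have hz0 : (0 : ℝ) < z := by linarith
  have hlz0 : 0 < Real.log z := Real.log_pos hz1
  have hX1z : X1 ≤ z := by
    rw [← Real.log_le_log_iff (by linarith) hz0, hlX1]
    linarith
  have hX0z : X0 ≤ z := hX1ge.trans hX1z
  have hX4 : 4 ≤ X0 := by
    refine hb2.trans ?_
    calc X0 ^ (1 / 400 : ℝ) ≤ X0 ^ (1 : ℝ) := Real.rpow_le_rpow_of_exponent_le hX01 (by norm_num)
      _ = X0 := Real.rpow_one _
  have hX1η : X1 ≤ (k : ℝ) ^ (η / 2) := by
    rw [← Real.log_le_log_iff (by linarith) (Real.rpow_pos_of_pos hk0 _), hlX1,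
      Real.log_rpow hk0, ← hℓ]
    exact a62
  have hX0η : X0 ≤ (k : ℝ) ^ (η / 2) := hX1ge.trans hX1η
  -- the sets of primes
  obtain ⟨Q, hQ⟩ : ∃ Q, Q = R ∪ S := ⟨_, rfl⟩
  have hQp : ∀ q ∈ Q, q.Prime := by
    intro q hq
    rw [hQ, mem_union] at hq
    rcases hq with h | h
    · exact hR q h
    · exact hS q h
  have hRQ : R ⊆ Q := by rw [hQ]; exact subset_union_left
  have hSQ : S ⊆ Q := by rw [hQ]; exact subset_union_right
  rw [← hQ] at hQk hRSE ⊢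
  have hv : 0 < V Q := V_pos hQp
  have hvge : c0 / ℓ ≤ V Q := by rw [hℓ]; exact hV k a12 Q hQp hQk
  have hvS : c0 / ℓ ≤ V S := by rw [hℓ]; exact hV k a12 S hS ((card_le_card hSQ).trans hQk)
  have hVRS : V Q = V R * V S := by rw [hQ]; exact prod_union hRS
  have hM : (0 : ℝ) < m := by linarith
  have hlz : Real.log z ≤ c2 * ℓ / Real.log ℓ := by
    rw [Real.log_le_iff_le_exp hz0]
    exact hz
  have hz1' : (z : ℝ) ≤ Real.exp (c1' * Real.log k / Real.log (Real.log k)) := by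
    rw [← hℓ]
    refine hz.trans (Real.exp_le_exp.2 ?_)
    have : c2 ≤ c1' := hc21.trans (by rw [hc1]; exact min_le_left _ _)
    gcongr
  have hlev := a2 z hz1'
  obtain ⟨X, hX⟩ : ∃ X, X = (k : ℝ) ^ η := ⟨_, rfl⟩
  have hXX : X = (k : ℝ) ^ (η / 2) * (k : ℝ) ^ (η / 2) := by
    rw [hX, ← Real.rpow_add hk0]; ring_nf
  have hXge1 : 1 ≤ X := by rw [hX]; exact Real.one_le_rpow hk1 hη0.le
  have hXpos : 0 < X := by linarith
  have hXs : X ≤ Real.sqrt k := by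
    rw [hX, Real.sqrt_eq_rpow]
    exact Real.rpow_le_rpow_of_exponent_le hk1 (by linarith)
  have hsk : Real.sqrt k ≤ k := Real.sqrt_le_iff.2 ⟨hk0.le, le_self_pow₀ hk1 (by norm_num)⟩
  have hX1s : X1 ≤ Real.sqrt k := by
    rw [Real.sqrt_eq_rpow]
    exact hX1η.trans (Real.rpow_le_rpow_of_exponent_le hk1 (by linarith))
  have hlX : Real.log X = η * ℓ := by rw [hX, Real.log_rpow hk0, hℓ]
  have hXlev : ((z : ℝ) + 1) ^ (r + 2) * X0 ≤ X := by
    rw [hXX]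
    exact mul_le_mul hlev hX0η hX00.le (Real.rpow_nonneg hk0.le _)
  have hS0 : ∑ q ∈ S, 1 / (q : ℝ) ≤ Real.log ℓ + C2 := by
    rw [hℓ]; exact hsum k a12 S hS ((card_le_card hSQ).trans hQk)
  have hcopQ : ∀ p ∈ E, ∀ q ∈ Q, Nat.Coprime p q := by
    intro p hp q hq
    refine (Nat.coprime_primes (hE p hp) (hQp q hq)).2 ?_
    rintro rfl
    exact disjoint_left.1 hRSE hq hp
  -- class one
  have hone : ∀ p : ℕ, 0 < p → (∀ q ∈ Q, Nat.Coprime p q) → (p : ℝ) * X ≤ m → ∀ c,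
      |((surv Q b (AP m p c)).card : ℝ) - (m : ℝ) / p * V Q| ≤ δ * ((m : ℝ) / p * V Q) := by
    intro p hp hcop hpX c
    have hp0 : (0 : ℝ) < p := by exact_mod_cast hp
    rw [hQ]
    refine class_one hgood hX01 hX0z hR hS hSz hRS hp (fun q hq => hcop q (hRQ hq))
      (fun q hq => hcop q (hSQ hq)) ?_ hδ0 hvS hS0 a1 hb1 (r := r)
    rw [le_div_iff₀ hp0]
    calc ((z : ℝ) + 1) ^ (r + 2) * X0 * p ≤ X * p := mul_le_mul_of_nonneg_right hXlev hp0.le
      _ ≤ m := by linarith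
  have h1 : ∀ p ∈ E', (p : ℝ) * X ≤ m → ((surv Q b (AP m p (cf p))).card : ℝ) ≤
      (1 + δ) * (m * V Q) * (1 / (p : ℝ)) := by
    intro p hp hpX
    have e1 := (abs_le.1 (hone p (hE p (hE' hp)).pos (hcopQ p (hE' hp)) hpX (cf p))).2
    have e2 : (m : ℝ) / p * V Q = m * V Q * (1 / (p : ℝ)) := by ring
    rw [e2] at e1
    linarith
  have h2 : ∀ p ∈ E', ¬ (p : ℝ) * X ≤ m → X1 ≤ (m : ℝ) / p →
      ((surv Q b (AP m p (cf p))).card : ℝ) ≤
        Ck * ((m : ℝ) / p * V Q * (1 + Real.log z * (1 / Real.log ((m : ℝ) / p)))) := by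
    intro p hp _ hpX1
    rw [hQ, hCk]
    exact class_two_b hCab hC1 hab hVs hgood hX01 hb2 hX0z hR hS hSz hRS (hE p (hE' hp)).pos
      (fun q hq => hcopQ p (hE' hp) q (hRQ hq)) (fun q hq => hcopQ p (hE' hp) q (hSQ hq))
      (by rw [hX01']; exact hpX1) (by rw [← hVRS]; exact hb3.trans hvge)
  -- class two a
  obtain ⟨t, ht⟩ : ∃ t, t = K ^ (1 / ((N : ℝ) + 1)) := ⟨_, rfl⟩
  have hN1 : (0 : ℝ) < (N : ℝ) + 1 := by positivity
  have ht4 : 4 ≤ t := by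
    rw [ht]
    exact a10.trans (Real.rpow_le_rpow hℓ0.le hK1 (by positivity))
  have ht0 : 0 ≤ t := by linarith
  obtain ⟨y1, hy1⟩ : ∃ y1, y1 = ⌊K ^ (1 / ((N : ℝ) + 1))⌋₊ := ⟨_, rfl⟩
  rw [← hy1] at hev2
  rw [← ht] at hy1
  have hy1t : (y1 : ℝ) ≤ t := by rw [hy1]; exact Nat.floor_le ht0
  have hy14 : 4 ≤ y1 := by rw [hy1]; exact Nat.le_floor (by exact_mod_cast ht4)
  have htK : t ≤ K := by
    rw [ht]
    calc K ^ (1 / ((N : ℝ) + 1)) ≤ K ^ (1 : ℝ) := by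
          refine Real.rpow_le_rpow_of_exponent_le hK0 ?_
          rw [div_le_one hN1]
          linarith [Nat.cast_nonneg (α := ℝ) N]
      _ = K := Real.rpow_one _
  have hKX1 : K ≤ X1 := by
    rw [hX1]
    have e1 : K ≤ K * ℓ := le_mul_of_one_le_right hKpos.le hℓ1
    have e2 : 1 ≤ K * ℓ := hK0.trans e1
    calc K ≤ K * ℓ := e1
      _ = (K * ℓ) ^ 1 := (pow_one _).symm
      _ ≤ (K * ℓ) ^ 16 := pow_le_pow_right₀ e2 (by norm_num)
  have hy1z : y1 ≤ z := by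
    have : (y1 : ℝ) ≤ z := hy1t.trans (htK.trans (hKX1.trans hX1z))
    exact_mod_cast this
  have hy1N : (y1 : ℝ) ^ N ≤ K := by
    calc (y1 : ℝ) ^ N ≤ t ^ N := pow_le_pow_left₀ (Nat.cast_nonneg _) hy1t _
      _ = K ^ ((1 / ((N : ℝ) + 1)) * N) := by
        rw [ht, ← Real.rpow_natCast, ← Real.rpow_mul hKpos.le]
      _ ≤ K ^ (1 : ℝ) := by
        refine Real.rpow_le_rpow_of_exponent_le hK0 ?_
        rw [one_div, inv_mul_le_iff₀ hN1]
        linarith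
      _ = K := Real.rpow_one _
  have hly1 : Real.log K / (2 * ((N : ℝ) + 1)) ≤ Real.log y1 := by
    have e1 := log_floor_ge ht4
    rw [← hy1] at e1
    have e2 : Real.log t = 1 / ((N : ℝ) + 1) * Real.log K := by rw [ht, Real.log_rpow hKpos]
    rw [e2] at e1
    refine le_trans (le_of_eq ?_) e1
    field_simp
  have h3 : ∀ p ∈ E', ¬ (p : ℝ) * X ≤ m → ¬ X1 ≤ (m : ℝ) / p →
      ((surv Q b (AP m p (cf p))).card : ℝ) ≤
        Ca * (Real.log z / Real.log K) * ((m : ℝ) * (1 / (p : ℝ)) * V Q) + A3 * K := by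
    intro p hp _ hpX1
    rw [hQ, hCa, hA3]
    exact class_two_a hCS hsieve hC1 hVs hKpos hz3 hR hS hSz hRS (hE p (hE' hp)).pos
      (fun q hq => hcopQ p (hE' hp) q (hSQ hq)) (by omega) hy1z hy1N hly1 (by linarith)
      (hev2 p (hE' hp) (hE'm p hp) (not_le.1 hpX1) (cf p) b)
  constructor
  · have e1 := (abs_le.1 (hone 1 one_pos (fun q _ => Nat.coprime_one_left q) (by
      push_cast; linarith) 0)).1
    rw [AP_one, Nat.cast_one, div_one] at e1
    rw [← hδ]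
    linarith
  · have h4 := sum_classes (E' := E') (δ := δ) (M := (m : ℝ)) (v := V Q) (A3 := A3) (K := K)
      (Ck := Ck) (Ca := Ca) (X := X) (X1 := X1) (lz := Real.log z) (lK := Real.log K)
      (g := fun p => ((surv Q b (AP m p (cf p))).card : ℝ)) hδ0.le hM.le hv.le
      (by positivity) hCk0.le h1 h2 h3
    refine h4.trans ?_
    obtain ⟨E2, hE2⟩ : ∃ E2, E2 = E'.filter (fun p : ℕ => ¬ (p : ℝ) * X ≤ m) := ⟨_, rfl⟩
    obtain ⟨E3, hE3⟩ : ∃ E3, E3 = E2.filter (fun p : ℕ => X1 ≤ (m : ℝ) / p) := ⟨_, rfl⟩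
    obtain ⟨E4, hE4⟩ : ∃ E4, E4 = E2.filter (fun p : ℕ => ¬ X1 ≤ (m : ℝ) / p) := ⟨_, rfl⟩
    rw [← hE2, ← hE3, ← hE4]
    have hE2E : E2 ⊆ E := by rw [hE2]; exact (filter_subset _ _).trans hE'
    have hE3E2 : E3 ⊆ E2 := by rw [hE3]; exact filter_subset _ _
    have hE4E2 : E4 ⊆ E2 := by rw [hE4]; exact filter_subset _ _
    have hS2 := hmid k a12 X hXge1 hXs E2 (fun p hp => hE p (hE2E hp))
      ((card_le_card hE2E).trans hEk) (by
        intro p hp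
        rw [hE2, mem_filter] at hp
        have h1 := not_le.1 hp.2
        rw [div_lt_iff₀ hXpos]
        linarith)
    rw [← hℓ, hlX] at hS2
    have hS4 := hmid k a12 X1 hX11 hX1s E4 (fun p hp => hE p (hE2E (hE4E2 hp)))
      ((card_le_card (hE4E2.trans hE2E)).trans hEk) (by
        intro p hp
        have hp' := hp
        rw [hE4, mem_filter] at hp
        have hp0 : (0 : ℝ) < p := by exact_mod_cast (hE p (hE2E (hE4E2 hp'))).pos
        have h1 := not_le.1 hp.2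
        rw [div_lt_iff₀ hp0] at h1
        rw [div_lt_iff₀ (by linarith)]
        linarith)
    rw [← hℓ, hlX1] at hS4
    have hS3 := hw k a11 (m : ℝ) hkm E3 (fun p hp => hE p (hE2E (hE3E2 hp))) (by
        intro p hp
        have hp' := hp
        rw [hE3, mem_filter, hE2, mem_filter] at hp
        have hp0 : (0 : ℝ) < p := by exact_mod_cast (hE p (hE2E (hE3E2 hp'))).pos
        obtain ⟨⟨_, h2⟩, h3⟩ := hp
        rw [le_div_iff₀ hp0] at h3
        have h5 : 2 * (p : ℝ) ≤ X1 * p :=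
          mul_le_mul_of_nonneg_right ((by norm_num : (2 : ℝ) ≤ 4).trans (hX4.trans hX1ge)) hp0.le
        have h6 : X * (p : ℝ) ≤ Real.sqrt k * p := mul_le_mul_of_nonneg_right hXs hp0.le
        have h4 := not_le.1 h2
        rw [mul_comm] at h4
        exact ⟨h5.trans h3, (h4.le).trans h6⟩)
    rw [← hℓ] at hS3
    have hfin : Ck * ((∑ p ∈ E2, 1 / (p : ℝ)) +
            Real.log z * ∑ p ∈ E3, 1 / (p : ℝ) * (1 / Real.log (m / p))) ≤ ε / 16 := by
      have e1 : Ck * (∑ p ∈ E2, 1 / (p : ℝ)) ≤ ε / 48 + ε / 48 := by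
        have f1 : Ck * (∑ p ∈ E2, 1 / (p : ℝ)) ≤ Ck * (C6 * (η * ℓ + Real.log ℓ + 1) / ℓ) :=
          mul_le_mul_of_nonneg_left hS2 hCk0.le
        have f2 : Ck * (C6 * (η * ℓ + Real.log ℓ + 1) / ℓ) =
            Ck * C6 * η + Ck * C6 * ((Real.log ℓ + 1) / ℓ) := by
          field_simp
          ring
        have f3 : Ck * C6 * ((Real.log ℓ + 1) / ℓ) ≤ ε / 48 := by
          have f4 : Ck * C6 * (ε / (48 * Ck * C6)) = ε / 48 := by field_simp
          rw [← f4]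
          exact mul_le_mul_of_nonneg_left a3.le (by positivity)
        rw [f2] at f1
        linarith
      have e2 : Ck * (Real.log z * ∑ p ∈ E3, 1 / (p : ℝ) * (1 / Real.log (m / p))) ≤ ε / 48 := by
        have f2 : Real.log z * ∑ p ∈ E3, 1 / (p : ℝ) * (1 / Real.log (m / p)) ≤
            (c2 * ℓ / Real.log ℓ) * (Cw * Real.log ℓ / ℓ) := by
          refine (mul_le_mul_of_nonneg_left hS3 hlz0.le).trans ?_
          exact mul_le_mul_of_nonneg_right hlz (by positivity)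
        have f3 : (c2 * ℓ / Real.log ℓ) * (Cw * Real.log ℓ / ℓ) = Cw * c2 := by field_simp
        rw [f3] at f2
        have f4 := mul_le_mul_of_nonneg_left f2 hCk0.le
        have f5 : Ck * (Cw * c2) ≤ Ck * Cw * c1 := by
          rw [← mul_assoc]
          exact mul_le_mul_of_nonneg_left hc21 (by positivity)
        linarith
      rw [mul_add]
      linarith
    have hfin2 : Ca * (Real.log z / Real.log K) * (∑ p ∈ E4, 1 / (p : ℝ)) ≤ ε / 48 := by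
      have f1 : Ca * (Real.log z / Real.log K) * (∑ p ∈ E4, 1 / (p : ℝ)) ≤
          Ca * ((c2 * ℓ / Real.log ℓ) / Real.log K) * (C6 * (34 * Real.log K) / ℓ) := by
        refine mul_le_mul ?_ (hS4.trans ?_) (sum_nonneg fun _ _ => by positivity) (by positivity)
        · refine mul_le_mul_of_nonneg_left ?_ hCa0.le
          exact div_le_div_of_nonneg_right hlz (by linarith)
        · refine div_le_div_of_nonneg_right (mul_le_mul_of_nonneg_left ?_ hC6.le) hℓ0.le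
          linarith
      refine f1.trans ?_
      have f2 : Ca * ((c2 * ℓ / Real.log ℓ) / Real.log K) * (C6 * (34 * Real.log K) / ℓ) =
          34 * Ca * C6 * c2 / Real.log ℓ := by
        field_simp
      rw [f2, div_le_iff₀ hlℓ]
      rw [div_le_iff₀ hε] at a4
      linarith
    have hE'sum : ∑ p ∈ E', 1 / (p : ℝ) ≤ 1 - ε :=
      (sum_le_sum_of_subset_of_nonneg hE' fun _ _ _ => by positivity).trans hSE
    exact final_main hε hδ hM hv hE'sum hfin hfin2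

end Pool.Agent.H1.Jac
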