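import Pool.Agent.H1.Jac3.SemiE

/-!
# The semi-random theorem for three sets of primes
-/

set_option autoImplicit false

namespace Pool.Agent.H1.Jac

open Finset Filter

lemma evB_congr {R Sy E : Finset ℕ} {X1 K : ℝ} {m a b : ℕ}
    (h : ∀ q ∈ R, (q : ℤ) ∣ (a : ℤ) - b) (hg : EvB R Sy E X1 K m a) : EvB R Sy E X1 K m b := by
  intro p hp hpm hX c b'
  rw [← surv_congr h]
  exact hg p hp hpm hX c b'

/-- a good residue is not bad -/
lemma good_contra {R S E : Finset ℕ} (hR : ∀ q ∈ R, q.Prime) (hS : ∀ q ∈ S, q.Prime)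
    (hE : ∀ p ∈ E, p.Prime) {z m a N : ℕ} {X0 X1 K ε A3 : ℝ} (hε : 0 < ε)
    (hgood : Good R z X0 m a)
    (hev : EvB R (S.filter (fun q => ¬ ⌊K ^ (1 / ((N : ℝ) + 1))⌋₊ < q)) E X1 K m a)
    (hMv : 0 < (m : ℝ) * V (R ∪ S))
    (E' : Finset ℕ) (hE' : E' ⊆ E)
    (hmain : ∀ b : ℕ, ∀ cf : ℕ → ℕ, Good R z X0 m b →
      EvB R (S.filter (fun q => ¬ ⌊K ^ (1 / ((N : ℝ) + 1))⌋₊ < q)) E X1 K m b →
      (1 - ε / 20) * (m * V (R ∪ S)) ≤ ((surv (R ∪ S) b (range m)).card : ℝ) ∧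
      ∑ p ∈ E', ((surv (R ∪ S) b (AP m p (cf p))).card : ℝ) ≤
        (1 - 3 * ε / 4) * (m * V (R ∪ S)) + A3 * K * E'.card)
    (hcard : A3 * K * E'.card ≤ ε / 16 * (m * V (R ∪ S)))
    (hrest : ∀ b : ℕ, ∀ cf : ℕ → ℕ, ∑ p ∈ E \ E', ((surv (R ∪ S) b (AP m p (cf p))).card : ℝ) ≤
      ε / 16 * (m * V (R ∪ S)))
    (ha : a ∈ Bd R (S ∪ E) m) : False := by
  rw [mem_Bd] at ha
  obtain ⟨-, x, hxa, hcov⟩ := ha
  have hQp : ∀ q ∈ R ∪ S, q.Prime := by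
    intro q hq
    rcases mem_union.1 hq with h | h
    · exact hR q h
    · exact hS q h
  have hQ0 : 0 < ∏ q ∈ R ∪ S, q := prod_pos fun q hq => (hQp q hq).pos
  have hQ0' : (0 : ℤ) < ((∏ q ∈ R ∪ S, q : ℕ) : ℤ) := by exact_mod_cast hQ0
  obtain ⟨b, hb⟩ : ∃ b, b = (x % ((∏ q ∈ R ∪ S, q : ℕ) : ℤ)).toNat := ⟨_, rfl⟩
  have hxb : ∀ q ∈ R ∪ S, (q : ℤ) ∣ x - b := by
    intro q hq
    rw [hb, Int.toNat_of_nonneg (Int.emod_nonneg x hQ0'.ne')]
    have h3 : ((∏ q ∈ R ∪ S, q : ℕ) : ℤ) ∣ x - x % ((∏ q ∈ R ∪ S, q : ℕ) : ℤ) :=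
      Int.dvd_self_sub_emod
    refine dvd_trans ?_ h3
    exact_mod_cast dvd_prod_of_mem (fun p : ℕ => p) hq
  have hab : ∀ q ∈ R, (q : ℤ) ∣ (a : ℤ) - b := by
    intro q hq
    have h1 := dvd_sub (hxb q (mem_union_left _ hq)) (hxa q hq)
    have h2 : x - (b : ℤ) - (x - a) = (a : ℤ) - b := by ring
    rwa [h2] at h1
  obtain ⟨h1, h2⟩ := hmain b (fun p => (x % p).toNat) (good_congr hab hgood) (evB_congr hab hev)
  have h3 := hrest b (fun p => (x % p).toNat)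
  have hdet := det (R ∪ S) E (fun p hp => (hE p hp).pos) x m b hxb (by
    intro i hi
    rcases hcov i hi with ⟨q, hq, h⟩ | ⟨p, hp, h⟩
    · exact Or.inl ⟨q, mem_union_left _ hq, h⟩
    · rcases mem_union.1 hp with hp' | hp'
      · exact Or.inl ⟨p, mem_union_right _ hp', h⟩
      · exact Or.inr ⟨p, hp', h⟩)
  have hdet' : ((surv (R ∪ S) b (range m)).card : ℝ) ≤
      ∑ p ∈ E, ((surv (R ∪ S) b (AP m p (x % p).toNat)).card : ℝ) := by exact_mod_cast hdet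
  rw [← sum_sdiff hE'] at hdet'
  have h4 : 0 < ε * (m * V (R ∪ S)) := by positivity
  linarith

/-- classes modulo a prime larger than `m` have at most one element -/
lemma surv_le_one {Q : Finset ℕ} {m p b c : ℕ} (hpm : m < p) :
    ((surv Q b (AP m p c)).card : ℝ) ≤ 1 := by
  have h6 : (surv Q b (AP m p c)).card ≤ 1 := by
    refine (card_le_card (filter_subset _ _)).trans ?_
    rw [card_le_one]
    intro i hi j hj
    unfold AP at hi hj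
    rw [mem_filter, mem_range] at hi hj
    have h8 : (p : ℤ) ∣ (i : ℤ) - j := by
      have e1 : (p : ℤ) ∣ ((c + i : ℕ) : ℤ) := by exact_mod_cast hi.2
      have e2 : (p : ℤ) ∣ ((c + j : ℕ) : ℤ) := by exact_mod_cast hj.2
      have e3 := dvd_sub e1 e2
      push_cast at e3
      have e4 : (c : ℤ) + i - ((c : ℤ) + j) = (i : ℤ) - j := by ring
      rwa [e4] at e3
    have h9 : (i : ℤ) - j = 0 := by
      refine Int.eq_zero_of_abs_lt_dvd h8 ?_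
      rw [abs_lt]
      omega
    omega
  exact_mod_cast h6

/-- the product of the primes up to `y` is at most `exp (2 K)` for `y ≤ K` -/
lemma prod_small {S : Finset ℕ} (hS : ∀ q ∈ S, q.Prime) {y : ℕ} {K : ℝ} (hy : (y : ℝ) ≤ K) :
    (∏ q ∈ S.filter (fun q => ¬ y < q), (q : ℝ)) ≤ Real.exp (2 * K) := by
  have h1 : ∏ q ∈ S.filter (fun q => ¬ y < q), q ≤ primorial y := by
    unfold primorial
    refine prod_le_prod_of_subset_of_one_le' ?_ ?_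
    · intro p hp
      rw [mem_filter] at hp
      rw [mem_filter, mem_range]
      exact ⟨by omega, hS p hp.1⟩
    · intro p hp _
      exact (mem_filter.1 hp).2.one_lt.le
  have h2 : primorial y ≤ 4 ^ y := primorial_le_four_pow _
  have h3 : ((∏ q ∈ S.filter (fun q => ¬ y < q), q : ℕ) : ℝ) ≤ (4 : ℝ) ^ y := by
    exact_mod_cast h1.trans h2
  push_cast at h3
  refine h3.trans ?_
  have h5 : (4 : ℝ) ≤ Real.exp 2 := by
    have h6 : (2 : ℝ) ≤ Real.exp 1 := by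
      have := Real.add_one_le_exp (1 : ℝ); linarith
    have h7 : Real.exp 2 = Real.exp 1 * Real.exp 1 := by rw [← Real.exp_add]; norm_num
    rw [h7]; nlinarith
  have h8 : Real.exp (2 * (y : ℝ)) = Real.exp 2 ^ y := by
    rw [← Real.exp_nat_mul]; ring_nf
  calc (4 : ℝ) ^ y ≤ Real.exp 2 ^ y := pow_le_pow_left₀ (by norm_num) h5 _
    _ = Real.exp (2 * (y : ℝ)) := h8.symm
    _ ≤ Real.exp (2 * K) := Real.exp_le_exp.2 (by linarith)

open Classical in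
/-- the number of residues that are not good -/
lemma count_bad {R S E : Finset ℕ} (hR : ∀ q ∈ R, q.Prime) (hS : ∀ q ∈ S, q.Prime)
    (hE : ∀ p ∈ E, p.Prime) (hRE : Disjoint R E) {z m N k : ℕ} {X0 X1 K Λ : ℝ} (hK : 1 ≤ K)
    (hRz : ∀ q ∈ R, z < q) (hX : 256 ≤ X0) (hXz : X0 ≤ z) (hX1z : X1 ≤ z)
    (hΛ : 1 + ∑ q ∈ R, 1 / (q : ℝ) ≤ Λ) (hexp : 6 * K * (1 + Λ) ≤ X0 ^ (1 / 2 : ℝ) * V R)
    (hEk : E.card ≤ k) (hkm : (k : ℝ) ≤ m) (hm : 3 * (m : ℝ) ^ 2 ≤ Real.exp (5 * K))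
    (hcon : ∀ a, Good R z X0 m a →
      EvB R (S.filter (fun q => ¬ ⌊K ^ (1 / ((N : ℝ) + 1))⌋₊ < q)) E X1 K m a →
      a ∉ Bd R (S ∪ E) m) :
    ((Bd R (S ∪ E) m).card : ℝ) ≤ (∏ q ∈ R, (q : ℝ)) * Real.exp (-K) := by
  obtain ⟨Sy, hSy⟩ : ∃ Sy, Sy = S.filter (fun q => ¬ ⌊K ^ (1 / ((N : ℝ) + 1))⌋₊ < q) := ⟨_, rfl⟩
  rw [← hSy] at hcon
  have hSyp : ∀ q ∈ Sy, q.Prime := fun q hq => by
    rw [hSy, mem_filter] at hq; exact hS q hq.1
  have hN1 : (0 : ℝ) < (N : ℝ) + 1 := by positivity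
  have hy : ((⌊K ^ (1 / ((N : ℝ) + 1))⌋₊ : ℕ) : ℝ) ≤ K := by
    refine (Nat.floor_le (Real.rpow_nonneg (by linarith) _)).trans ?_
    calc K ^ (1 / ((N : ℝ) + 1)) ≤ K ^ (1 : ℝ) := by
          refine Real.rpow_le_rpow_of_exponent_le hK ?_
          rw [div_le_one hN1]
          linarith [Nat.cast_nonneg (α := ℝ) N]
      _ = K := Real.rpow_one _
  have hprod : (∏ q ∈ Sy, (q : ℝ)) ≤ Real.exp (2 * K) := by
    rw [hSy]; exact prod_small hS hy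
  have h1 := good_bad hR hRz (K := K) (by linarith) hX hXz hΛ hexp m
  have h2 := evB_bad hR hSyp hE hRE hRz (K := K) hX1z m
  have hsub : Bd R (S ∪ E) m ⊆
      ((range (∏ q ∈ R, q)).filter (fun a => ¬ Good R z X0 m a)) ∪
      ((range (∏ q ∈ R, q)).filter (fun a => ¬ EvB R Sy E X1 K m a)) := by
    intro a ha
    have haR : a ∈ range (∏ q ∈ R, q) := mem_range.2 (mem_Bd.1 ha).1
    rw [mem_union, mem_filter, mem_filter]
    by_contra hcon'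
    push Not at hcon'
    obtain ⟨h3, h4⟩ := hcon'
    exact hcon a (h3 haR) (h4 haR) ha
  have h3 : ((Bd R (S ∪ E) m).card : ℝ) ≤
      (((range (∏ q ∈ R, q)).filter (fun a => ¬ Good R z X0 m a)).card : ℝ) +
      (((range (∏ q ∈ R, q)).filter (fun a => ¬ EvB R Sy E X1 K m a)).card : ℝ) := by
    exact_mod_cast (card_le_card hsub).trans (card_union_le _ _)
  obtain ⟨PR, hPR⟩ : ∃ PR, PR = ∏ q ∈ R, (q : ℝ) := ⟨_, rfl⟩
  have hPR0 : 0 ≤ PR := by rw [hPR]; positivity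
  rw [← hPR] at h1 h2 ⊢
  have hEk' : (E.card : ℝ) ≤ k := by exact_mod_cast hEk
  have hm0 : (0 : ℝ) ≤ m := Nat.cast_nonneg m
  have h4 : (E.card : ℝ) * m * (∏ q ∈ Sy, (q : ℝ)) * (PR * Real.exp (-(8 * K))) ≤
      (m : ℝ) ^ 2 * (PR * Real.exp (-(6 * K))) := by
    have e1 : (E.card : ℝ) * m ≤ (m : ℝ) ^ 2 := by
      rw [sq]; exact mul_le_mul_of_nonneg_right (hEk'.trans hkm) hm0
    have e2 : (∏ q ∈ Sy, (q : ℝ)) * (PR * Real.exp (-(8 * K))) ≤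
        Real.exp (2 * K) * (PR * Real.exp (-(8 * K))) :=
      mul_le_mul_of_nonneg_right hprod (by positivity)
    have e3 : Real.exp (2 * K) * (PR * Real.exp (-(8 * K))) = PR * Real.exp (-(6 * K)) := by
      rw [← mul_assoc, mul_comm (Real.exp (2 * K)) PR, mul_assoc, ← Real.exp_add]
      ring_nf
    rw [e3] at e2
    rw [mul_assoc]
    exact mul_le_mul e1 e2 (by positivity) (by positivity)
  have h5 : ((Bd R (S ∪ E) m).card : ℝ) ≤ 3 * (m : ℝ) ^ 2 * (PR * Real.exp (-(6 * K))) := by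
    have e1 : (m : ℝ) ^ 2 * (2 * PR * Real.exp (-(6 * K))) =
        2 * ((m : ℝ) ^ 2 * (PR * Real.exp (-(6 * K)))) := by ring
    rw [e1] at h1
    linarith
  refine h5.trans ?_
  calc 3 * (m : ℝ) ^ 2 * (PR * Real.exp (-(6 * K))) ≤
        Real.exp (5 * K) * (PR * Real.exp (-(6 * K))) :=
        mul_le_mul_of_nonneg_right hm (by positivity)
    _ = PR * Real.exp (-K) := by
      rw [← mul_assoc, mul_comm (Real.exp (5 * K)) PR, mul_assoc, ← Real.exp_add]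
      ring_nf

end Pool.Agent.H1.Jac
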