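import Pool.Agent.H1.Jac3.SemiF
import Pool.Agent.H1.Jac3.FinA
import Pool.Agent.H1.Jac.Fin

/-!
# The semi-random theorem
-/

set_option autoImplicit false

namespace Pool.Agent.H1.Jac

open Finset Filter

/-- asymptotic facts for the concentration -/
lemma conc_facts {K ℓ c0 C2 : ℝ} (hℓ : 1 ≤ ℓ) (hK : ℓ ≤ K) (hc0 : 0 < c0) (hC2 : 0 ≤ C2)
    (h1 : 6 * (3 + C2) / c0 ≤ ℓ) (h2 : 256 ≤ ℓ) :
    256 ≤ (K * ℓ) ^ 8 ∧
    6 * K * (1 + (1 + (Real.log ℓ + C2))) ≤ ((K * ℓ) ^ 8) ^ (1 / 2 : ℝ) * (c0 / ℓ) := by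
  have hℓ0 : 0 < ℓ := by linarith
  have hK0 : 0 < K := by linarith
  have hKℓ : 0 < K * ℓ := by positivity
  have hKℓ1 : 1 ≤ K * ℓ := one_le_mul_of_one_le_of_one_le (hℓ.trans hK) hℓ
  have hle : ℓ ≤ K * ℓ := le_mul_of_one_le_left hℓ0.le (hℓ.trans hK)
  constructor
  · calc (256 : ℝ) ≤ ℓ := h2
      _ ≤ K * ℓ := hle
      _ ≤ (K * ℓ) ^ 8 := le_self_pow₀ hKℓ1 (by norm_num)
  · have e1 : ((K * ℓ) ^ 8) ^ (1 / 2 : ℝ) = (K * ℓ) ^ 4 := by
      rw [← Real.rpow_natCast, ← Real.rpow_mul hKℓ.le, ← Real.rpow_natCast]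
      norm_num
    rw [e1]
    have e2 : Real.log ℓ ≤ ℓ := (Real.log_le_sub_one_of_pos hℓ0).trans (by linarith)
    have e3 : 1 + (1 + (Real.log ℓ + C2)) ≤ (3 + C2) * ℓ := by nlinarith
    rw [div_le_iff₀ hc0] at h1
    calc 6 * K * (1 + (1 + (Real.log ℓ + C2))) ≤ 6 * K * ((3 + C2) * ℓ) :=
          mul_le_mul_of_nonneg_left e3 (by positivity)
      _ = K * ℓ * (6 * (3 + C2)) := by ring
      _ ≤ K * ℓ * (ℓ * c0) := mul_le_mul_of_nonneg_left h1 hKℓ.le
      _ = (K * ℓ) * (ℓ ^ 2 * (c0 / ℓ)) := by field_simp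
      _ ≤ (K * ℓ) * ((K * ℓ) ^ 3 * (c0 / ℓ)) := by
        refine mul_le_mul_of_nonneg_left (mul_le_mul_of_nonneg_right ?_ (by positivity)) hKℓ.le
        calc ℓ ^ 2 ≤ (K * ℓ) ^ 2 := pow_le_pow_left₀ hℓ0.le hle 2
          _ ≤ (K * ℓ) ^ 3 := pow_le_pow_right₀ hKℓ1 (by norm_num)
      _ = (K * ℓ) ^ 4 * (c0 / ℓ) := by ring

theorem core_semi (ε : ℝ) (hε : 0 < ε) (hε1 : ε ≤ 1) : ∃ c c1 C : ℝ, 0 < c ∧ c ≤ 1 / 4 ∧
    0 < c1 ∧ 1 ≤ C ∧ ∃ k₀ : ℕ, ∀ k ≥ k₀, ∀ K : ℝ, Real.log k ≤ K →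
    K ≤ Real.exp (Real.log k ^ (1 / 3 : ℝ)) → ∀ R S E : Finset ℕ, (∀ q ∈ R, q.Prime) →
    (∀ q ∈ S, q.Prime) → (∀ p ∈ E, p.Prime) → Disjoint R S → Disjoint (R ∪ S) E →
    (∀ q ∈ S, ¬ Real.exp (c1 * Real.log k / Real.log (Real.log k)) < q) →
    (∀ q ∈ R, Real.exp (c1 * Real.log k / Real.log (Real.log k)) < q) →
    (R ∪ S).card ≤ k → E.card ≤ k → ∑ p ∈ E, 1 / (p : ℝ) ≤ 1 - ε → ∀ m : ℕ,
    ((k * K * Real.log k ^ (1 - c) ≤ m ∧ (m : ℝ) ≤ k * K * Real.log k ^ (1 - c) + 1) ∨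
      (C * k * K ≤ m * V (R ∪ S) ∧ (m : ℝ) * V (R ∪ S) ≤ C * k * K + 1)) →
    ((Bd R (S ∪ E) m).card : ℝ) ≤ (∏ q ∈ R, (q : ℝ)) * Real.exp (-K) := by
  obtain ⟨C2, hC2, hsum⟩ := sum_le
  obtain ⟨c0, hc0, hV⟩ := V_ge
  obtain ⟨Cπ, hCπ, hcheb⟩ := cheb
  obtain ⟨N, c1, A3, hc1, hA3, hmain⟩ := class_main ε hε hε1
  obtain ⟨c, hc, hc4, hthree⟩ := class_three (ε / 16) (by positivity)
  obtain ⟨B, hB⟩ : ∃ B, B = max 1 (16 * A3 * Cπ / (c0 * ε)) := ⟨_, rfl⟩
  have hB1 : 1 ≤ B := by rw [hB]; exact le_max_left _ _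
  have hBge : 16 * A3 * Cπ / (c0 * ε) ≤ B := by rw [hB]; exact le_max_right _ _
  have hB0 : 0 < B := by linarith
  obtain ⟨C, hC⟩ : ∃ C, C = 16 * (A3 + 1) / ε := ⟨_, rfl⟩
  have hC1 : 1 ≤ C := by
    rw [hC, le_div_iff₀ hε]; linarith
  obtain ⟨Cm, hCm⟩ : ∃ Cm, Cm = max 1 ((C + 1) / c0) := ⟨_, rfl⟩
  have hCm1 : 1 ≤ Cm := by rw [hCm]; exact le_max_left _ _
  have hCmge : (C + 1) / c0 ≤ Cm := by rw [hCm]; exact le_max_right _ _
  obtain ⟨k₁, hk₁⟩ := hmain c1 hc1 le_rfl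
  obtain ⟨k₂, hk₂⟩ := hthree B hB1
  have hlog : Tendsto (fun k : ℕ => Real.log k) atTop atTop :=
    Real.tendsto_log_atTop.comp tendsto_natCast_atTop_atTop
  have hsqrt : Tendsto (fun k : ℕ => Real.sqrt k) atTop atTop :=
    Real.tendsto_sqrt_atTop.comp tendsto_natCast_atTop_atTop
  have hev := (level_ev c1 hc1).and ((asymK (c1 / 2) Cm 1 (by positivity) (by linarith)
    one_pos).and ((hlog.eventually_ge_atTop (6 * (3 + C2) / c0)).and
    ((hlog.eventually_ge_atTop 256).and ((hsqrt.eventually_ge_atTop B).and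
    (eventually_ge_atTop 3)))))
  obtain ⟨k₃, hk₃⟩ := eventually_atTop.1 hev
  refine ⟨c, c1, C, hc, hc4, hc1, hC1, max k₁ (max k₂ k₃), ?_⟩
  intro k hk K hK1 hK2 R S E hR hS hE hRS hRSE hSz hRz hQk hEk hSE m hm
  have hk1 : k₁ ≤ k := le_trans (le_max_left _ _) hk
  have hk2 : k₂ ≤ k := le_trans (le_trans (le_max_left _ _) (le_max_right _ _)) hk
  have hk3 : k₃ ≤ k := le_trans (le_trans (le_max_right _ _) (le_max_right _ _)) hk
  obtain ⟨⟨hz3, -, hll1, hlz2⟩, a2, a3, a4, a5, a6⟩ := hk₃ k hk3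
  obtain ⟨a21, -, a23⟩ := a2 K hK1 hK2
  clear hev hk₃ a2
  obtain ⟨z, hz⟩ : ∃ z, z = ⌊Real.exp (c1 * Real.log k / Real.log (Real.log k))⌋₊ := ⟨_, rfl⟩
  rw [← hz] at hz3 hlz2
  have hzle : (z : ℝ) ≤ Real.exp (c1 * Real.log k / Real.log (Real.log k)) := by
    rw [hz]; exact Nat.floor_le (Real.exp_pos _).le
  have hSz' : ∀ q ∈ S, q ≤ z := fun q hq => by
    rw [hz]; exact Nat.le_floor (not_lt.1 (hSz q hq))
  have hRz' : ∀ q ∈ R, z < q := fun q hq => by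
    have h1 := lt_of_le_of_lt hzle (hRz q hq)
    exact_mod_cast h1
  have hkr3 : (3 : ℝ) ≤ k := by exact_mod_cast a6
  have hk0 : (0 : ℝ) < k := by linarith
  obtain ⟨ℓ, hℓ⟩ : ∃ ℓ, ℓ = Real.log k := ⟨_, rfl⟩
  have hℓ1 : 1 ≤ ℓ := by rw [hℓ]; linarith
  have hℓ0 : 0 < ℓ := by linarith
  have hK0 : 1 ≤ K := by rw [hℓ] at hℓ1; linarith
  have hQp : ∀ q ∈ R ∪ S, q.Prime := by
    intro q hq
    rcases mem_union.1 hq with h | h
    · exact hR q h
    · exact hS q h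
  have hv : 0 < V (R ∪ S) := V_pos hQp
  have hv1 : V (R ∪ S) ≤ 1 := V_le_one hQp
  have hvge : c0 / ℓ ≤ V (R ∪ S) := by rw [hℓ]; exact hV k a6 (R ∪ S) hQp hQk
  have hvR : c0 / ℓ ≤ V R := by
    rw [hℓ]; exact hV k a6 R hR ((card_le_card subset_union_left).trans hQk)
  have hpw1 : 1 ≤ ℓ ^ (1 - c) := Real.one_le_rpow hℓ1 (by linarith)
  have hpwℓ : ℓ ^ (1 - c) ≤ ℓ := by
    have := Real.rpow_le_rpow_of_exponent_le hℓ1 (show 1 - c ≤ 1 by linarith)
    rwa [Real.rpow_one] at this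
  rw [← hℓ] at hm hK1 a3 a4 a21 a23 hlz2
  have hkK : (k : ℝ) ≤ k * K := le_mul_of_one_le_right hk0.le hK0
  have hkm : (k : ℝ) ≤ m := by
    rcases hm with ⟨h, -⟩ | ⟨h, -⟩
    · refine le_trans (hkK.trans ?_) h
      exact le_mul_of_one_le_right (by positivity) hpw1
    · have e1 : (k : ℝ) * K ≤ C * k * K := by
        rw [mul_assoc]; exact le_mul_of_one_le_left (by positivity) hC1
      have e2 : (m : ℝ) * V (R ∪ S) ≤ m := mul_le_of_le_one_right (Nat.cast_nonneg m) hv1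
      linarith
  have hM : (0 : ℝ) < m := by linarith
  have hMv : 0 < (m : ℝ) * V (R ∪ S) := by positivity
  have hmle : (m : ℝ) ≤ Cm * k * K * ℓ + 1 := by
    have hkKℓ : 0 ≤ (k : ℝ) * K * ℓ := by positivity
    rcases hm with ⟨-, h⟩ | ⟨-, h⟩
    · have e1 : (k : ℝ) * K * ℓ ^ (1 - c) ≤ k * K * ℓ :=
        mul_le_mul_of_nonneg_left hpwℓ (by positivity)
      have e2 : (k : ℝ) * K * ℓ ≤ Cm * (k * K * ℓ) := le_mul_of_one_le_left hkKℓ hCm1
      have e3 : Cm * (k * K * ℓ) = Cm * k * K * ℓ := by ring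
      linarith
    · have e1 : (m : ℝ) * (c0 / ℓ) ≤ m * V (R ∪ S) := mul_le_mul_of_nonneg_left hvge hM.le
      have e2 : C * k * K + 1 ≤ (C + 1) * (k * K) := by
        have : 1 ≤ (k : ℝ) * K := by linarith
        linarith
      have e3 : (m : ℝ) * (c0 / ℓ) ≤ (C + 1) * (k * K) := (e1.trans h).trans e2
      have e4 : (m : ℝ) ≤ (C + 1) / c0 * (k * K * ℓ) := by
        have e5 : (m : ℝ) * (c0 / ℓ) * (ℓ / c0) ≤ (C + 1) * (k * K) * (ℓ / c0) :=
          mul_le_mul_of_nonneg_right e3 (by positivity)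
        have e6 : (m : ℝ) * (c0 / ℓ) * (ℓ / c0) = m := by field_simp
        have e7 : (C + 1) * (k * K) * (ℓ / c0) = (C + 1) / c0 * (k * K * ℓ) := by ring
        rw [e6, e7] at e5
        exact e5
      have e5 : (C + 1) / c0 * (k * K * ℓ) ≤ Cm * (k * K * ℓ) :=
        mul_le_mul_of_nonneg_right hCmge hkKℓ
      have e6 : Cm * (k * K * ℓ) = Cm * k * K * ℓ := by ring
      linarith
  have hm3 : 3 * (m : ℝ) ^ 2 ≤ Real.exp (5 * K) := by
    refine le_trans ?_ a23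
    exact mul_le_mul_of_nonneg_left (pow_le_pow_left₀ hM.le hmle 2) (by norm_num)
  obtain ⟨hX256, hexp⟩ := conc_facts hℓ1 hK1 hc0 hC2 a3 a4
  have hΛ : 1 + ∑ q ∈ R, 1 / (q : ℝ) ≤ 1 + (Real.log ℓ + C2) := by
    have := hsum k a6 R hR ((card_le_card subset_union_left).trans hQk)
    rw [← hℓ] at this
    linarith
  have hexp' : 6 * K * (1 + (1 + (Real.log ℓ + C2))) ≤ ((K * ℓ) ^ 8) ^ (1 / 2 : ℝ) * V R := by
    refine hexp.trans (mul_le_mul_of_nonneg_left hvR ?_)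
    positivity
  have hX1z : (K * ℓ) ^ 16 ≤ z := by
    have hz0 : (0 : ℝ) < z := by exact_mod_cast (by omega : 0 < z)
    rw [← Real.log_le_log_iff (by positivity) hz0, Real.log_pow,
      Real.log_mul (by linarith) hℓ0.ne']
    push_cast
    linarith
  have hX0z : (K * ℓ) ^ 8 ≤ z := by
    refine le_trans ?_ hX1z
    have : 1 ≤ K * ℓ := one_le_mul_of_one_le_of_one_le hK0 hℓ1
    exact pow_le_pow_right₀ this (by norm_num)
  have hRE : Disjoint R E := disjoint_of_subset_left subset_union_left hRSE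
  -- the set of the primes that are not among the largest
  obtain ⟨E', hE', hE'm, hcard, hrest⟩ : ∃ E', E' ⊆ E ∧ (∀ p ∈ E', p ≤ m) ∧
      A3 * K * (E'.card : ℝ) ≤ ε / 16 * (m * V (R ∪ S)) ∧
      ∀ b : ℕ, ∀ cf : ℕ → ℕ, ∑ p ∈ E \ E', ((surv (R ∪ S) b (AP m p (cf p))).card : ℝ) ≤
        ε / 16 * (m * V (R ∪ S)) := by
    rcases hm with ⟨h, -⟩ | ⟨h, -⟩
    · obtain ⟨y2, hy2⟩ : ∃ y2 : ℝ, y2 = k * ℓ ^ (1 - c) / B := ⟨_, rfl⟩
      refine ⟨E.filter (fun p : ℕ => (p : ℝ) ≤ y2), filter_subset _ _, ?_, ?_, ?_⟩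
      · intro p hp
        rw [mem_filter] at hp
        have e1 : y2 ≤ m := by
          rw [hy2, div_le_iff₀ hB0]
          have e1 : (k : ℝ) * ℓ ^ (1 - c) ≤ k * K * ℓ ^ (1 - c) :=
            mul_le_mul_of_nonneg_right hkK (by linarith)
          have e2 : (m : ℝ) ≤ m * B := le_mul_of_one_le_right hM.le hB1
          linarith
        exact_mod_cast hp.2.trans e1
      · have hn2 := hcheb k a6 y2 (by
          rw [hy2, le_div_iff₀ hB0]
          have e1 : Real.sqrt k * B ≤ Real.sqrt k * Real.sqrt k :=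
            mul_le_mul_of_nonneg_left a5 (Real.sqrt_nonneg _)
          rw [Real.mul_self_sqrt hk0.le] at e1
          have e2 : (k : ℝ) ≤ k * ℓ ^ (1 - c) := le_mul_of_one_le_right hk0.le hpw1
          linarith) (E.filter (fun p : ℕ => (p : ℝ) ≤ y2))
          (fun p hp => hE p (mem_filter.1 hp).1) (fun p hp => (mem_filter.1 hp).2)
        rw [← hℓ] at hn2
        have e1 : A3 * K * ((E.filter (fun p : ℕ => (p : ℝ) ≤ y2)).card : ℝ) ≤
            A3 * K * (Cπ * y2 / ℓ) := mul_le_mul_of_nonneg_left hn2 (by positivity)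
        refine e1.trans ?_
        have e2 : A3 * K * (Cπ * y2 / ℓ) =
            (A3 * Cπ / (c0 * B)) * (k * K * ℓ ^ (1 - c) * (c0 / ℓ)) := by
          rw [hy2]; field_simp
        have e3 : A3 * Cπ / (c0 * B) ≤ ε / 16 := by
          rw [div_le_iff₀ (by positivity)] at hBge ⊢
          linarith
        rw [e2]
        have e4 : k * K * ℓ ^ (1 - c) * (c0 / ℓ) ≤ m * V (R ∪ S) :=
          mul_le_mul h hvge (by positivity) hM.le
        exact mul_le_mul e3 e4 (by positivity) (by positivity)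
      · intro b cf
        refine hk₂ k hk2 K (by rw [← hℓ]; exact hK1) (R ∪ S) _ hQp ?_ ?_ hQk ?_ ?_ m
          (by rw [← hℓ]; exact h) b cf
        · intro p hp
          exact hE p (Finset.mem_sdiff.1 hp).1
        · exact disjoint_of_subset_right sdiff_subset hRSE
        · exact (card_le_card sdiff_subset).trans hEk
        · intro p hp hcon
          obtain ⟨hpE, hpn⟩ := Finset.mem_sdiff.1 hp
          rw [← hℓ, ← hy2] at hcon
          exact hpn (mem_filter.2 ⟨hpE, hcon⟩)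
    · have hkKm : 16 * (A3 + 1) / ε * (k * K) ≤ m * V (R ∪ S) := by
        rw [← hC]
        have e1 : C * (k * K) = C * k * K := by ring
        rw [e1]; exact h
      have hkKm' : (A3 + 1) * (k * K) ≤ ε / 16 * (m * V (R ∪ S)) := by
        have e1 := mul_le_mul_of_nonneg_left hkKm (show 0 ≤ ε / 16 by positivity)
        have e2 : ε / 16 * (16 * (A3 + 1) / ε * (k * K)) = (A3 + 1) * (k * K) := by
          field_simp
        rw [e2] at e1
        exact e1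
      have hkK0 : 0 ≤ (k : ℝ) * K := by positivity
      refine ⟨E.filter (fun p => p ≤ m), filter_subset _ _, ?_, ?_, ?_⟩
      · intro p hp
        exact (mem_filter.1 hp).2
      · have e1 : ((E.filter (fun p => p ≤ m)).card : ℝ) ≤ k := by
          exact_mod_cast (card_le_card (filter_subset _ _)).trans hEk
        have e2 : A3 * K * ((E.filter (fun p => p ≤ m)).card : ℝ) ≤ A3 * K * k :=
          mul_le_mul_of_nonneg_left e1 (by positivity)
        have e3 : A3 * K * k ≤ (A3 + 1) * (k * K) := by linarith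
        linarith
      · intro b cf
        have e1 : ∀ p ∈ E \ E.filter (fun p => p ≤ m),
            ((surv (R ∪ S) b (AP m p (cf p))).card : ℝ) ≤ 1 := by
          intro p hp
          obtain ⟨hpE, hpn⟩ := Finset.mem_sdiff.1 hp
          refine surv_le_one ?_
          by_contra hcon
          exact hpn (mem_filter.2 ⟨hpE, by omega⟩)
        have e2 := sum_le_sum e1
        rw [sum_const, nsmul_eq_mul, mul_one] at e2
        have e3 : ((E \ E.filter (fun p => p ≤ m)).card : ℝ) ≤ k := by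
          exact_mod_cast (card_le_card sdiff_subset).trans hEk
        have e4 : (k : ℝ) ≤ (A3 + 1) * (k * K) := by
          have : 0 ≤ A3 * (k * K) := by positivity
          linarith
        linarith
  refine count_bad (N := N) (Λ := 1 + (Real.log ℓ + C2)) hR hS hE hRE hK0 hRz' hX256 hX0z hX1z
    hΛ hexp' hEk hkm hm3 ?_
  intro a hg hev ha
  refine good_contra (N := N) hR hS hE hε hg hev hMv E' hE' ?_ hcard hrest ha
  intro b cf hgb hevb
  have := hk₁ k hk1 K (by rw [← hℓ]; exact hK1) hK2 z hz3 hzle (by rw [← hℓ]; exact hlz2) R S E hR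
    hS hE hRS hRSE hSz' hQk hEk hSE m hkm b cf (by rw [← hℓ]; exact hgb) (by rw [← hℓ]; exact hevb)
    E' hE' hE'm
  exact this

lemma Bd_mono {Q E : Finset ℕ} {m m' : ℕ} (h : m' ≤ m) : Bd Q E m ⊆ Bd Q E m' := by
  intro a ha
  rw [mem_Bd] at ha ⊢
  obtain ⟨h1, x, h2, h3⟩ := ha
  exact ⟨h1, x, h2, fun i hi => h3 i (by omega)⟩

/-- the blocked residues are bad -/
lemma blocked_sub {n m : ℕ} {R S E : Finset ℕ} (hn : n ≠ 0) (hR : R ⊆ n.primeFactors)
    (hSE : n.primeFactors ⊆ R ∪ (S ∪ E)) :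
    blockedResidues (∏ p ∈ R, p) n m ⊆ Bd R (S ∪ E) m := by
  intro a ha
  rw [mem_blockedResidues] at ha
  obtain ⟨haN, x, hxa, hbl⟩ := ha
  rw [mem_Bd]
  refine ⟨haN, x, ?_, ?_⟩
  · intro q hq
    have h1 : ((∏ p ∈ R, p : ℕ) : ℤ) ∣ x - a := (Int.modEq_iff_dvd.1 hxa.symm)
    refine dvd_trans ?_ h1
    exact_mod_cast dvd_prod_of_mem (fun p : ℕ => p) hq
  · intro i hi
    have h3 := hbl i hi
    rw [coprime_iff hn] at h3
    push Not at h3
    obtain ⟨p, hp, hpd⟩ := h3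
    rcases mem_union.1 (hSE hp) with h | h
    · exact Or.inl ⟨p, h, hpd⟩
    · exact Or.inr ⟨p, h, hpd⟩

theorem semi_three (ε : ℝ) (hε : 0 < ε) : ∃ c c1 C : ℝ, 0 < c ∧ 0 < c1 ∧ 0 < C ∧ ∃ k₀ : ℕ,
    ∀ k ≥ k₀, ∀ K : ℝ, Real.log k ≤ K → K ≤ Real.exp (Real.log k ^ (1 / 3 : ℝ)) →
    ∀ n : ℕ, n ≠ 0 → n.primeFactors.card ≤ k → ∀ R ⊆ n.primeFactors,
    (∀ p ∈ R, Real.exp (c1 * Real.log k / Real.log (Real.log k)) < p) →
    ∑ p ∈ (n.primeFactors \ R).filter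
      (fun p : ℕ => Real.exp (c1 * Real.log k / Real.log (Real.log k)) < p), 1 / (p : ℝ) ≤ 1 - ε →
    ∀ m : ℕ, k * K * min (Real.log k ^ (1 - c)) (C * ((n : ℝ) / Nat.totient n)) ≤ m →
    ((blockedResidues (∏ p ∈ R, p) n m).card : ℝ) ≤
      Real.exp (-K) * ((∏ p ∈ R, p : ℕ) : ℝ) := by
  obtain ⟨c, c1, C, hc, hc4, hc1, hC, k₀, hcore⟩ := core_semi (min ε 1) (lt_min hε one_pos)
    (min_le_right _ _)
  obtain ⟨k₁, hk₁⟩ := eventually_atTop.1 (level_ev c1 hc1)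
  refine ⟨c, c1, C, hc, hc1, by linarith, max k₀ (max k₁ 3), ?_⟩
  intro k hk K hK1 hK2 n hn hnk R hR hRz hsum m hm
  have hk3 : 3 ≤ k := le_trans (le_trans (le_max_right _ _) (le_max_right _ _)) hk
  have hk3' : (3 : ℝ) ≤ k := by exact_mod_cast hk3
  have hℓ : 1 ≤ Real.log k := by
    rw [Real.le_log_iff_exp_le (by linarith)]
    have := Real.exp_one_lt_d9
    linarith
  have hK0 : 1 ≤ K := hℓ.trans hK1
  have hpr : ∀ p ∈ n.primeFactors, p.Prime := fun p hp => Nat.prime_of_mem_primeFactors hp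
  obtain ⟨E, hE⟩ : ∃ E, E = (n.primeFactors \ R).filter
      (fun p : ℕ => Real.exp (c1 * Real.log k / Real.log (Real.log k)) < p) := ⟨_, rfl⟩
  obtain ⟨S, hS⟩ : ∃ S, S = (n.primeFactors \ R).filter
      (fun p : ℕ => ¬ Real.exp (c1 * Real.log k / Real.log (Real.log k)) < p) := ⟨_, rfl⟩
  rw [← hE] at hsum
  have hEs : E ⊆ n.primeFactors := by rw [hE]; exact (filter_subset _ _).trans sdiff_subset
  have hSs : S ⊆ n.primeFactors := by rw [hS]; exact (filter_subset _ _).trans sdiff_subset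
  have hRSs : R ∪ S ⊆ n.primeFactors := union_subset hR hSs
  have hRS : Disjoint R S := by
    rw [disjoint_left]
    intro p hp hp'
    rw [hS, mem_filter, Finset.mem_sdiff] at hp'
    exact hp'.1.2 hp
  have hRSE : Disjoint (R ∪ S) E := by
    rw [disjoint_left]
    intro p hp hp'
    rw [hE, mem_filter, Finset.mem_sdiff] at hp'
    rcases mem_union.1 hp with h | h
    · exact hp'.1.2 h
    · rw [hS, mem_filter] at h
      exact h.2 hp'.2
  have hcov : n.primeFactors ⊆ R ∪ (S ∪ E) := by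
    intro p hp
    by_cases h1 : p ∈ R
    · exact mem_union_left _ h1
    · refine mem_union_right _ ?_
      by_cases h2 : Real.exp (c1 * Real.log k / Real.log (Real.log k)) < p
      · exact mem_union_right _ (by rw [hE, mem_filter, Finset.mem_sdiff]; exact ⟨⟨hp, h1⟩, h2⟩)
      · exact mem_union_left _ (by rw [hS, mem_filter, Finset.mem_sdiff]; exact ⟨⟨hp, h1⟩, h2⟩)
  have hV : 0 < V (R ∪ S) := V_pos fun p hp => hpr p (hRSs hp)
  have hfin : ∀ m0 : ℕ, m0 ≤ m →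
      ((k * K * Real.log k ^ (1 - c) ≤ m0 ∧ (m0 : ℝ) ≤ k * K * Real.log k ^ (1 - c) + 1) ∨
      (C * k * K ≤ m0 * V (R ∪ S) ∧ (m0 : ℝ) * V (R ∪ S) ≤ C * k * K + 1)) →
      ((blockedResidues (∏ p ∈ R, p) n m).card : ℝ) ≤
        Real.exp (-K) * ((∏ p ∈ R, p : ℕ) : ℝ) := by
    intro m0 hm0 hcase
    have h1 := hcore k (le_trans (le_max_left _ _) hk) K hK1 hK2 R S E (fun p hp => hpr p (hR hp))
      (fun p hp => hpr p (hSs hp)) (fun p hp => hpr p (hEs hp)) hRS hRSE (by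
        intro p hp
        rw [hS, mem_filter] at hp
        exact hp.2) hRz ((card_le_card hRSs).trans hnk) ((card_le_card hEs).trans hnk)
      (hsum.trans (by linarith [min_le_left ε 1])) m0 hcase
    have h2 : ((blockedResidues (∏ p ∈ R, p) n m).card : ℝ) ≤ ((Bd R (S ∪ E) m0).card : ℝ) := by
      exact_mod_cast card_le_card ((blocked_sub hn hR hcov).trans (Bd_mono hm0))
    refine h2.trans (h1.trans (le_of_eq ?_))
    push_cast
    ring
  have hpw : 0 ≤ Real.log k ^ (1 - c) := Real.rpow_nonneg (by linarith) _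
  rcases le_total (Real.log k ^ (1 - c)) (C * ((n : ℝ) / Nat.totient n)) with h | h
  · rw [min_eq_left h] at hm
    refine hfin ⌈k * K * Real.log k ^ (1 - c)⌉₊ (Nat.ceil_le.2 hm) (Or.inl ⟨Nat.le_ceil _, ?_⟩)
    exact (Nat.ceil_lt_add_one (by positivity)).le
  · rw [min_eq_right h] at hm
    have hpos : 0 ≤ C * k * K / V (R ∪ S) := by positivity
    refine hfin ⌈C * k * K / V (R ∪ S)⌉₊ (Nat.ceil_le.2 ?_) (Or.inr ⟨?_, ?_⟩)
    · refine le_trans ?_ hm
      have h1 : (V (R ∪ S))⁻¹ ≤ (n : ℝ) / Nat.totient n := by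
        rw [totient_V hn]
        have h2 : n.primeFactors = (R ∪ S) ∪ (n.primeFactors \ (R ∪ S)) := by
          rw [union_sdiff_of_subset hRSs]
        have h3 : V n.primeFactors = V (R ∪ S) * V (n.primeFactors \ (R ∪ S)) := by
          conv_lhs => rw [h2]
          exact prod_union disjoint_sdiff
        have h4 : V (n.primeFactors \ (R ∪ S)) ≤ 1 :=
          V_le_one fun p hp => hpr p (Finset.mem_sdiff.1 hp).1
        have h5 : 0 < V n.primeFactors := V_pos hpr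
        apply inv_anti₀ h5
        rw [h3]
        exact mul_le_of_le_one_right hV.le h4
      calc C * k * K / V (R ∪ S) = k * K * (C * (V (R ∪ S))⁻¹) := by ring
        _ ≤ k * K * (C * ((n : ℝ) / Nat.totient n)) := by gcongr
    · have h1 := Nat.le_ceil (C * k * K / V (R ∪ S))
      rw [div_le_iff₀ hV] at h1
      exact h1
    · have h1 := (Nat.ceil_lt_add_one hpos).le
      have h2 := mul_le_mul_of_nonneg_right h1 hV.le
      have h3 : (C * k * K / V (R ∪ S) + 1) * V (R ∪ S) = C * k * K + V (R ∪ S) := by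
        field_simp
      rw [h3] at h2
      have h4 := V_le_one (Q := R ∪ S) fun p hp => hpr p (hRSs hp)
      linarith

theorem semi_theta_three (θ : ℝ) (hθ : Real.exp (-1) < θ) : ∃ c c1 : ℝ, 0 < c ∧ 0 < c1 ∧
    ∃ k₀ : ℕ, ∀ k ≥ k₀, ∀ K : ℝ, Real.log k ≤ K →
    K ≤ Real.exp (Real.log k ^ (1 / 3 : ℝ)) →
    ∀ n : ℕ, n ≠ 0 → n.primeFactors.card ≤ k → ∀ m : ℕ, k * K * Real.log k ^ (1 - c) ≤ m →
    ((blockedResidues
      (∏ p ∈ n.primeFactors.filter (fun p : ℕ =>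
        Real.exp (c1 * Real.log k / Real.log (Real.log k)) < p ∧ (p : ℝ) ≤ (k : ℝ) ^ θ), p)
        n m).card : ℝ) ≤ Real.exp (-K) *
      ((∏ p ∈ n.primeFactors.filter (fun p : ℕ =>
        Real.exp (c1 * Real.log k / Real.log (Real.log k)) < p ∧ (p : ℝ) ≤ (k : ℝ) ^ θ), p : ℕ) :
        ℝ) := by
  have hθ0 : 0 < θ := (Real.exp_pos _).trans hθ
  obtain ⟨θ', hθ'⟩ : ∃ θ', θ' = min θ (9 / 10) := ⟨_, rfl⟩
  have hθ'0 : 0 < θ' := by rw [hθ']; exact lt_min hθ0 (by norm_num)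
  have hθ'1 : θ' < 1 := by rw [hθ']; exact lt_of_le_of_lt (min_le_right _ _) (by norm_num)
  have hθ'e : Real.exp (-1) < θ' := by
    rw [hθ']
    refine lt_min hθ ?_
    rw [Real.exp_neg]
    have h1 := Real.exp_one_gt_d9
    have h2 : (Real.exp 1)⁻¹ ≤ (2 : ℝ)⁻¹ := inv_anti₀ (by norm_num) (by linarith)
    linarith
  have hlogθ : Real.log (1 / θ') < 1 := by
    rw [one_div, Real.log_inv, neg_lt, ← Real.exp_lt_exp, Real.exp_log hθ'0]
    exact hθ'e
  obtain ⟨η, hη⟩ : ∃ η, η = (1 - Real.log (1 / θ')) / 2 := ⟨_, rfl⟩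
  have hη0 : 0 < η := by rw [hη]; linarith
  obtain ⟨c, c1, C, hc, hc1, hC, k₀, hmain⟩ := semi_three η hη0
  obtain ⟨k₁, hk₁⟩ := large_sum θ' η hθ'0 hθ'1 hη0
  refine ⟨c, c1, hc, hc1, max k₀ (max k₁ 3), ?_⟩
  intro k hk K hK1 hK2 n hn hnk m hm
  have hk3 : 3 ≤ k := le_trans (le_trans (le_max_right _ _) (le_max_right _ _)) hk
  have hk3' : (3 : ℝ) ≤ k := by exact_mod_cast hk3
  have hℓ : 1 ≤ Real.log k := by
    rw [Real.le_log_iff_exp_le (by linarith)]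
    have := Real.exp_one_lt_d9
    linarith
  have hK0 : 1 ≤ K := hℓ.trans hK1
  have hpr : ∀ p ∈ n.primeFactors, p.Prime := fun p hp => Nat.prime_of_mem_primeFactors hp
  obtain ⟨R, hRdef⟩ : ∃ R, R = n.primeFactors.filter (fun p : ℕ =>
        Real.exp (c1 * Real.log k / Real.log (Real.log k)) < p ∧ (p : ℝ) ≤ (k : ℝ) ^ θ) :=
    ⟨_, rfl⟩
  rw [← hRdef]
  have hR : R ⊆ n.primeFactors := by rw [hRdef]; exact filter_subset _ _
  refine hmain k (le_trans (le_max_left _ _) hk) K hK1 hK2 n hn hnk R hR ?_ ?_ m ?_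
  · intro p hp
    rw [hRdef, mem_filter] at hp
    exact hp.2.1
  · have h1 := hk₁ k (le_trans (le_trans (le_max_left _ _) (le_max_right _ _)) hk)
      ((n.primeFactors \ R).filter
      (fun p : ℕ => Real.exp (c1 * Real.log k / Real.log (Real.log k)) < p))
      (fun p hp => hpr p (Finset.mem_sdiff.1 (mem_filter.1 hp).1).1)
      ((card_le_card ((filter_subset _ _).trans sdiff_subset)).trans hnk) (by
        intro p hp
        rw [mem_filter, Finset.mem_sdiff, hRdef, mem_filter] at hp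
        obtain ⟨⟨hp1, hp2⟩, hp3⟩ := hp
        have h5 : (k : ℝ) ^ θ < p := by
          by_contra h
          exact hp2 ⟨hp1, hp3, not_lt.1 h⟩
        refine lt_of_le_of_lt ?_ h5
        exact Real.rpow_le_rpow_of_exponent_le (by linarith) (by rw [hθ']; exact min_le_left _ _))
    rw [hη] at h1 ⊢
    linarith
  · refine le_trans ?_ hm
    exact mul_le_mul_of_nonneg_left (min_le_left _ _) (by positivity)

end Pool.Agent.H1.Jac
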